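import Mathlib

/-!
# The size of a Hamming ball (Mathlib only)

Induction on `D`: every `f` with `hammingDist v f ≤ D + 1` is `Function.update f0 i x` for some
`f0` with `hammingDist v f0 ≤ D` and some `i`, `x` (if `f = v` take any `i`; otherwise take `i` with
`v i ≠ f i`, `f0 = Function.update f i (v i)`, `x = f i`).
-/

set_option autoImplicit false

namespace H40.OS

theorem ball_card {N : ℕ} {α : Type} [Fintype α] [DecidableEq α] (hN : 1 ≤ N) (v : Fin N → α)
    (D : ℕ) : (Finset.univ.filter fun f : Fin N → α => hammingDist v f ≤ D).card
      ≤ (N * Fintype.card α) ^ D := by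
  induction D with
  | zero =>
    rw [pow_zero]
    refine Finset.card_le_one.2 fun a ha b hb => ?_
    have h1 := Nat.le_zero.1 (Finset.mem_filter.1 ha).2
    have h2 := Nat.le_zero.1 (Finset.mem_filter.1 hb).2
    rw [hammingDist_eq_zero] at h1 h2
    exact h1.symm.trans h2
  | succ D ih =>
    have hsub : (Finset.univ.filter fun f : Fin N → α => hammingDist v f ≤ D + 1) ⊆
        ((Finset.univ.filter fun f : Fin N → α => hammingDist v f ≤ D) ×ˢ
          (Finset.univ : Finset (Fin N × α))).image
          (fun z => Function.update z.1 z.2.1 z.2.2) := by
      intro f hf
      have hd := (Finset.mem_filter.1 hf).2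
      rw [Finset.mem_image]
      by_cases h : v = f
      · subst h
        refine ⟨(v, ⟨0, hN⟩, v ⟨0, hN⟩), ?_, Function.update_eq_self _ _⟩
        refine Finset.mem_product.2 ⟨Finset.mem_filter.2 ⟨Finset.mem_univ _, ?_⟩,
          Finset.mem_univ _⟩
        show hammingDist v v ≤ D
        rw [hammingDist_self]
        exact Nat.zero_le _
      · obtain ⟨i, hi⟩ := Function.ne_iff.1 h
        refine ⟨(Function.update f i (v i), i, f i), ?_, ?_⟩
        · refine Finset.mem_product.2 ⟨Finset.mem_filter.2 ⟨Finset.mem_univ _, ?_⟩,
            Finset.mem_univ _⟩
          show hammingDist v (Function.update f i (v i)) ≤ D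
          have hlt : hammingDist v (Function.update f i (v i)) < hammingDist v f := by
            unfold hammingDist
            refine Finset.card_lt_card (Finset.ssubset_iff_subset_ne.2 ⟨fun j hj => ?_, ?_⟩)
            · have h1 := (Finset.mem_filter.1 hj).2
              refine Finset.mem_filter.2 ⟨Finset.mem_univ _, ?_⟩
              by_cases hji : j = i
              · subst hji
                exact hi
              · rwa [Function.update_of_ne hji] at h1
            · intro he
              have h1 : i ∈ Finset.univ.filter (fun j => v j ≠ f j) :=
                Finset.mem_filter.2 ⟨Finset.mem_univ _, hi⟩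
              rw [← he] at h1
              have h2 := (Finset.mem_filter.1 h1).2
              rw [Function.update_self] at h2
              exact h2 rfl
          omega
        · show Function.update (Function.update f i (v i)) i (f i) = f
          rw [Function.update_idem, Function.update_eq_self]
    refine (Finset.card_le_card hsub).trans (Finset.card_image_le.trans ?_)
    rw [Finset.card_product, Finset.card_univ, Fintype.card_prod, Fintype.card_fin, pow_succ]
    exact Nat.mul_le_mul_right _ ih

end H40.OS
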