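import Pool.Agent.H40.LS.Pot

/-!
# The number of cells of a chain

Induction on `h`.  Let `H` be the image of `C` under the head (for `h = 0` there is at most one
cell).  For two cells `e :: x`, `e' :: y` with `e.1 < e'.1` the code of the first is smaller
(`code_cons_lt`), so `e.2 ≤ e'.2`; hence `e ↦ e.1 + e.2` is injective on `H` (if `e.1 = e'.1` and
the sums are equal then `e = e'`) and `|H| ≤ 2 R + (K + 4 R) = K + 6 R`.  For fixed `e ∈ H` the
tails of the cells with head `e` have the property for `h - 1` (codes and times of cells with equal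
heads are compared as those of the tails).
-/

set_option autoImplicit false

namespace H40.OS

open H40.LS

theorem chain_card {K R : ℕ} (h : ℕ) (C : Finset (List (ℕ × ℕ)))
    (hC : ∀ x ∈ C, x.length = h ∧ ∀ e ∈ x, e.1 < 2 * R ∧ e.2 < K + 4 * R)
    (hch : ∀ x ∈ C, ∀ y ∈ C, code (K + 4 * R) (2 * R * (K + 4 * R)) x
      < code (K + 4 * R) (2 * R * (K + 4 * R)) y → ¬ tlt (tm y) (tm x)) :
    C.card ≤ (K + 6 * R) ^ h := by
  classical
  induction h generalizing C with
  | zero =>
    have h1 : C ⊆ {[]} := by
      intro x hx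
      rw [Finset.mem_singleton]
      exact List.length_eq_zero_iff.1 (hC x hx).1
    simpa using Finset.card_le_card h1
  | succ h ih =>
    have hcons : ∀ x ∈ C, ∃ e x', x = e :: x' ∧ x'.length = h ∧ (e.1 < 2 * R ∧ e.2 < K + 4 * R) ∧
        ∀ e' ∈ x', e'.1 < 2 * R ∧ e'.2 < K + 4 * R := by
      intro x hx
      obtain ⟨h1, h2⟩ := hC x hx
      obtain ⟨e, x', rfl⟩ := List.exists_cons_of_length_eq_add_one h1
      exact ⟨e, x', rfl, by simpa using h1, h2 e List.mem_cons_self,
        fun e' he' => h2 e' (List.mem_cons_of_mem _ he')⟩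
    -- the heads
    have hH : (C.image List.headI).card ≤ K + 6 * R := by
      have h1 : Set.InjOn (fun e : ℕ × ℕ => e.1 + e.2) (C.image List.headI : Finset (ℕ × ℕ)) := by
        have key : ∀ x ∈ C, ∀ y ∈ C, x.headI.1 < y.headI.1 →
            x.headI.1 + x.headI.2 ≠ y.headI.1 + y.headI.2 := by
          intro x hx y hy hlt heq
          obtain ⟨e, x', rfl, hl, he, hx'⟩ := hcons x hx
          obtain ⟨e', y', rfl, hl', he', hy'⟩ := hcons y hy
          change e.1 < e'.1 at hlt
          change e.1 + e.2 = e'.1 + e'.2 at heq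
          refine hch _ hx _ hy ?_ ?_
          · rw [code_cons_lt hx' hy' (hl.trans hl'.symm)]
            left
            have h2 : (e.1 + 1) * (K + 4 * R) ≤ e'.1 * (K + 4 * R) := Nat.mul_le_mul_right _ hlt
            have h3 : (e.1 + 1) * (K + 4 * R) = e.1 * (K + 4 * R) + (K + 4 * R) := by ring
            omega
          · rw [tm_cons, tm_cons]
            left
            omega
        intro e he e' he' heq
        obtain ⟨x, hx, rfl⟩ := Finset.mem_image.1 (Finset.mem_coe.1 he)
        obtain ⟨y, hy, rfl⟩ := Finset.mem_image.1 (Finset.mem_coe.1 he')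
        change x.headI.1 + x.headI.2 = y.headI.1 + y.headI.2 at heq
        rcases lt_trichotomy x.headI.1 y.headI.1 with h2 | h2 | h2
        · exact absurd heq (key x hx y hy h2)
        · exact Prod.ext h2 (by omega)
        · exact absurd heq.symm (key y hy x hx h2)
      rw [← Finset.card_image_of_injOn h1]
      have h2 : (C.image List.headI).image (fun e : ℕ × ℕ => e.1 + e.2) ⊆
          Finset.range (K + 6 * R) := by
        intro m hm
        obtain ⟨e, he, rfl⟩ := Finset.mem_image.1 hm
        obtain ⟨x, hx, rfl⟩ := Finset.mem_image.1 he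
        obtain ⟨e, x', rfl, hl, he, hx'⟩ := hcons x hx
        rw [Finset.mem_range]
        change e.1 + e.2 < _
        omega
      simpa using Finset.card_le_card h2
    have hfib : ∀ e ∈ C.image List.headI, (C.filter fun x => x.headI = e).card ≤
        (K + 6 * R) ^ h := by
      intro e _
      have h1 : Set.InjOn List.tail
          ((C.filter fun x => x.headI = e : Finset (List (ℕ × ℕ))) : Set (List (ℕ × ℕ))) := by
        intro x hx y hy hxy
        rw [Finset.mem_coe, Finset.mem_filter] at hx hy
        obtain ⟨e1, x', rfl, -⟩ := hcons x hx.1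
        obtain ⟨e2, y', rfl, -⟩ := hcons y hy.1
        have e3 : e1 = e := hx.2
        have e4 : e2 = e := hy.2
        have e5 : x' = y' := hxy
        rw [e3, e4, e5]
      rw [← Finset.card_image_of_injOn h1]
      apply ih
      · intro z hz
        obtain ⟨x, hx, rfl⟩ := Finset.mem_image.1 hz
        obtain ⟨e1, x', rfl, hl, -, hx'⟩ := hcons x (Finset.mem_filter.1 hx).1
        exact ⟨hl, hx'⟩
      · intro z hz w hw hlt hc
        obtain ⟨x, hx, rfl⟩ := Finset.mem_image.1 hz
        obtain ⟨y, hy, rfl⟩ := Finset.mem_image.1 hw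
        rw [Finset.mem_filter] at hx hy
        obtain ⟨e1, x', rfl, hl, -, hx'⟩ := hcons x hx.1
        obtain ⟨e2, y', rfl, hl', -, hy'⟩ := hcons y hy.1
        obtain rfl : e1 = e := hx.2
        obtain rfl : e2 = e1 := hy.2
        refine hch _ hx.1 _ hy.1 ?_ ?_
        · rw [code_cons_lt hx' hy' (hl.trans hl'.symm)]
          exact Or.inr ⟨rfl, hlt⟩
        · rw [tm_cons, tm_cons]
          exact Or.inr ⟨rfl, hc⟩
    have h3 := Finset.card_le_mul_card_image C ((K + 6 * R) ^ h) hfib
    refine h3.trans ?_
    rw [pow_succ]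
    exact Nat.mul_le_mul_left _ hH

end H40.OS
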