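import Pool.Agent.H40.LS.Pot

/-!
# The sum of the weights of a chain

By `Finset.induction_on_max_value` (for `code`) one shows: if all elements of `C` are before the
cell `y` (`tlt` and smaller code) then `∑ x ∈ C, wt x + wt y ≤ Ps y`: for `insert a C` use the
induction hypothesis for `y := a` and `pot` for `a`, `y`; for `C = ∅` this is part of `pot_bd`.
The theorem follows with `y` the last element of `C` (and `Ps y ≤ (K + 3 R y)^h`, `pot_bd`).
`code` is injective on cells of the same length (`code_inj` of `LS/Exp.lean`); here it is enough that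
different elements of `C` are comparable.
-/

set_option autoImplicit false

namespace H40.OS

open H40.LS

private theorem chain_wt_aux {K R : ℕ} {y z : ℝ} (hp : Par K R y z) {A : List ℕ → ℕ}
    (hA : ∀ l, A l < R) (h : ℕ) (C : Finset (List (ℕ × ℕ)))
    (hC : ∀ x ∈ C, x.length = h ∧ Val K R A x)
    (hch : ∀ x ∈ C, ∀ x' ∈ C, x ≠ x' →
      (tlt (tm x) (tm x') ∧ code (K + 4 * R) (2 * R * (K + 4 * R)) x
        < code (K + 4 * R) (2 * R * (K + 4 * R)) x') ∨
      (tlt (tm x') (tm x) ∧ code (K + 4 * R) (2 * R * (K + 4 * R)) x'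
        < code (K + 4 * R) (2 * R * (K + 4 * R)) x)) :
    ∀ c : List (ℕ × ℕ), c.length = h → Val K R A c →
      (∀ x ∈ C, tlt (tm x) (tm c) ∧ code (K + 4 * R) (2 * R * (K + 4 * R)) x
        < code (K + 4 * R) (2 * R * (K + 4 * R)) c) →
      ∑ x ∈ C, wt K R y z A x + wt K R y z A c ≤ Ps K R y z A c := by
  classical
  induction C using Finset.induction_on_max_value
      (f := code (K + 4 * R) (2 * R * (K + 4 * R))) with
  | empty =>
    intro c hc hv _
    rw [Finset.sum_empty, zero_add]
    exact (pot_bd hp hA hv).2.1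
  | insert a C haC hmax ih =>
    intro c hc hv hbef
    obtain ⟨hal, hav⟩ := hC a (Finset.mem_insert_self a C)
    have ih' := ih (fun x hx => hC x (Finset.mem_insert_of_mem hx))
      (fun x hx x' hx' hne => hch x (Finset.mem_insert_of_mem hx) x'
        (Finset.mem_insert_of_mem hx') hne) a hal hav (by
          intro x hx
          have hne : x ≠ a := fun e => haC (e ▸ hx)
          rcases hch x (Finset.mem_insert_of_mem hx) a (Finset.mem_insert_self a C) hne with
            h1 | h1
          · exact h1
          · exact absurd (hmax x hx) (not_le.2 h1.2))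
    obtain ⟨hb1, hb2⟩ := hbef a (Finset.mem_insert_self a C)
    have h3 := (pot hp hA hav hv (hal.trans hc.symm) hb1).2 hb2
    rw [Finset.sum_insert haC]
    linarith

theorem chain_wt {K R : ℕ} {y z : ℝ} (hp : Par K R y z) {A : List ℕ → ℕ} (hA : ∀ l, A l < R)
    (h : ℕ) (C : Finset (List (ℕ × ℕ))) (hC : ∀ x ∈ C, x.length = h ∧ Val K R A x)
    (hch : ∀ x ∈ C, ∀ x' ∈ C, x ≠ x' →
      (tlt (tm x) (tm x') ∧ code (K + 4 * R) (2 * R * (K + 4 * R)) x
        < code (K + 4 * R) (2 * R * (K + 4 * R)) x') ∨
      (tlt (tm x') (tm x) ∧ code (K + 4 * R) (2 * R * (K + 4 * R)) x'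
        < code (K + 4 * R) (2 * R * (K + 4 * R)) x)) :
    ∑ x ∈ C, wt K R y z A x ≤ ((K : ℝ) + 3 * R * y) ^ h := by
  classical
  rcases C.eq_empty_or_nonempty with rfl | hne
  · rw [Finset.sum_empty]
    have hM := hp.M
    exact pow_nonneg (by linarith) _
  · obtain ⟨c, hcC, hmax⟩ := C.exists_max_image (code (K + 4 * R) (2 * R * (K + 4 * R))) hne
    obtain ⟨hcl, hcv⟩ := hC c hcC
    have h1 := chain_wt_aux hp hA h (C.erase c)
      (fun x hx => hC x (Finset.mem_of_mem_erase hx))
      (fun x hx x' hx' hne => hch x (Finset.mem_of_mem_erase hx) x'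
        (Finset.mem_of_mem_erase hx') hne) c hcl hcv (by
          intro x hx
          rcases hch x (Finset.mem_of_mem_erase hx) c hcC (Finset.ne_of_mem_erase hx) with
            h1 | h1
          · exact h1
          · exact absurd (hmax x (Finset.mem_of_mem_erase hx)) (not_le.2 h1.2))
    rw [Finset.sum_erase_add _ _ hcC] at h1
    refine h1.trans ?_
    have h2 := (pot_bd hp hA hcv).2.2
    rwa [hcl] at h2

end H40.OS
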