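import Pool.Agent.H40.OS.One

/-!
# Several copies: exponential moments of the number of copies with much noise
-/

set_option autoImplicit false

namespace H40.OS

open H40.LS

namespace Prm

variable (p : Prm)

theorem exk_congr_u {σ : Type} (step : ℕ → σ → ℕ → σ) (D : ℕ) (q0 : σ)
    (Af : ℕ → List ℕ → ℕ) {u u' : ℕ → ℕ → Fin p.N → ZMod p.Q} (k : ℕ)
    (hu : ∀ k' ≤ k, u (p.cop k') = u' (p.cop k')) :
    p.exk step D q0 Af u k = p.exk step D q0 Af u' k := by
  have hup : ∀ k' ≤ k, p.up u k' = p.up u' k' := by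
    intro k' hk'
    unfold up
    rw [hu k' hk']
  have hdown : p.down u k = p.down u' k := by
    unfold down
    rw [hu k le_rfl]
  have hst : p.stt step q0 Af u k = p.stt step q0 Af u' k := by
    unfold stt
    rw [p.strm_congr Af fun k' hk' => hup k' hk'.le]
  have hfl : p.fl step q0 Af u k = p.fl step q0 Af u' k := by
    unfold fl alt
    rw [hst, hup k le_rfl, hdown]
  unfold exk
  rw [hfl, hdown]

theorem noise_congr {σ : Type} (step : ℕ → σ → ℕ → σ) (b ub D : ℕ) (q0 : σ)
    {A A' : ℕ → p.Sm} {c : ℕ} (hA : ∀ c' ≤ c, A c' = A' c') :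
    p.noise step b ub D q0 (p.hid A) (p.ofs A) c
      = p.noise step b ub D q0 (p.hid A') (p.ofs A') c := by
  unfold noise
  apply Finset.sum_congr rfl
  intro i hi
  have hi' : i < p.P := Finset.mem_range.1 hi
  have hcop : ∀ k' ≤ c * p.P + i, p.cop k' ≤ c := by
    intro k' hk'
    rw [← p.cop_add (c := c) hi']
    exact Nat.div_le_div_right hk'
  have h1 : p.exk step D q0 (p.hid A) (p.ofs A) (c * p.P + i)
      = p.exk step D q0 (p.hid A') (p.ofs A') (c * p.P + i) := by
    rw [p.exk_local step D q0 (Af := p.hid A) (Af' := p.hid A') (p.ofs A) (c * p.P + i)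
      (fun k' hk' => by
        unfold cells hid
        rw [hA _ (hcop k' hk')])]
    apply p.exk_congr_u
    intro k' hk'
    funext a
    unfold ofs
    rw [hA _ (hcop k' hk')]
  have h2 : p.hid A c = p.hid A' c := by
    unfold hid
    rw [hA c le_rfl]
  rw [h1, h2]

open Classical in
/-- The number of copies with much noise. -/
noncomputable def zn {σ : Type} (step : ℕ → σ → ℕ → σ) (b ub D : ℕ) (θ : ℝ) (q0 : σ)
    (A : ℕ → p.Sm) (m : ℕ) : ℕ :=
  ((Finset.range m).filter fun c =>
    θ ≤ p.noise step b ub D q0 (p.hid A) (p.ofs A) c).card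

/-- The expected noise of a copy. -/
noncomputable def En (b ub D : ℕ) : ℝ :=
  p.P * (D * (2 ^ p.h * (p.R : ℝ) ^ (b + ub))) / (p.R : ℝ) ^ p.h

theorem moment_zn [NeZero p.Q] {σ : Type} (step : ℕ → σ → ℕ → σ) (hR : 1 ≤ p.R)
    (b ub D : ℕ) {θ : ℝ} (hθ : 0 < θ) (q0 : σ) (a0 : p.Sm) (m : ℕ) :
    ∑ A : Fin m → p.Sm, (2 : ℝ) ^ p.zn step b ub D θ q0 (toF a0 A) m
      ≤ ((Fintype.card p.Sm : ℝ) * (1 + p.En b ub D / θ)) ^ m := by
  classical
  have hR' : (0 : ℝ) < p.R := by exact_mod_cast hR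
  have hEn : 0 ≤ p.En b ub D := by
    unfold En
    positivity
  let f : ℕ → (ℕ → p.Sm) → ℝ := fun c A =>
    if θ ≤ p.noise step b ub D q0 (p.hid A) (p.ofs A) c then 2 else 1
  have hZ : ∀ A : Fin m → p.Sm, (2 : ℝ) ^ p.zn step b ub D θ q0 (toF a0 A) m
      = ∏ c ∈ Finset.range m, f c (toF a0 A) := by
    intro A
    unfold zn
    rw [← Finset.prod_const, Finset.prod_filter]
  rw [Finset.sum_congr rfl fun A _ => hZ A]
  apply chern a0 f
  · positivity
  · intro c A
    change (0 : ℝ) ≤ if _ then 2 else 1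
    split_ifs <;> norm_num
  · intro c A A' hAA
    change (if _ then (2 : ℝ) else 1) = if _ then (2 : ℝ) else 1
    rw [p.noise_congr step b ub D q0 hAA]
  · intro c A
    have h2 := p.exp_noise step hR b ub D q0 A c
    have h3 : (∑ a : p.Sm, (p.noise step b ub D q0 (p.hid (Function.update A c a))
        (p.ofs (Function.update A c a)) c : ℝ)) ≤ (Fintype.card p.Sm : ℝ) * p.En b ub D := by
      unfold En
      rw [← mul_div_assoc, le_div_iff₀ (by positivity)]
      have h4 : ((∑ a : p.Sm, p.noise step b ub D q0 (p.hid (Function.update A c a))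
          (p.ofs (Function.update A c a)) c : ℕ) : ℝ) * (p.R : ℝ) ^ p.h
          ≤ p.P * (D * (2 ^ p.h * (p.R : ℝ) ^ (b + ub))) * Fintype.card p.Sm := by
        exact_mod_cast h2
      push_cast at h4
      linarith
    have h4 : ∀ a : p.Sm, f c (Function.update A c a)
        ≤ 1 + (p.noise step b ub D q0 (p.hid (Function.update A c a))
          (p.ofs (Function.update A c a)) c : ℝ) / θ := by
      intro a
      change (if _ then (2 : ℝ) else 1) ≤ _
      split_ifs with h5
      · have : 1 ≤ (p.noise step b ub D q0 (p.hid (Function.update A c a))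
          (p.ofs (Function.update A c a)) c : ℝ) / θ := by
          rw [le_div_iff₀ hθ, one_mul]
          exact h5
        linarith
      · have : 0 ≤ (p.noise step b ub D q0 (p.hid (Function.update A c a))
          (p.ofs (Function.update A c a)) c : ℝ) / θ := by positivity
        linarith
    refine (Finset.sum_le_sum fun a _ => h4 a).trans ?_
    rw [Finset.sum_add_distrib, Finset.sum_const, Finset.card_univ, nsmul_eq_mul, mul_one,
      ← Finset.sum_div]
    have h5 := div_le_div_of_nonneg_right h3 hθ.le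
    rw [mul_add, mul_one, ← mul_div_assoc]
    exact add_le_add_right h5 _

open Classical in
/-- The union bound over the starting states. -/
theorem count_zn [NeZero p.Q] {σ : Type} [Fintype σ] (step : ℕ → σ → ℕ → σ) {S : ℕ}
    (hσ : Fintype.card σ ≤ 2 ^ S) (hR : 1 ≤ p.R) (b ub D : ℕ) {θ : ℝ} (hθ : 0 < θ) (Z0 : ℕ)
    (a0 : p.Sm) (m : ℕ) :
    ((Finset.univ.filter fun A : Fin m → p.Sm => ∃ q0 : σ,
      Z0 ≤ p.zn step b ub D θ q0 (toF a0 A) m).card : ℝ) * 2 ^ Z0
      ≤ 2 ^ S * ((Fintype.card p.Sm : ℝ) * (1 + p.En b ub D / θ)) ^ m := by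
  set W := ((Fintype.card p.Sm : ℝ) * (1 + p.En b ub D / θ)) ^ m with hW
  have hR' : (0 : ℝ) < p.R := by exact_mod_cast hR
  have hEn : 0 ≤ p.En b ub D := by
    unfold En
    positivity
  have hW0 : 0 ≤ W := by
    rw [hW]
    positivity
  have h1 : Finset.univ.filter (fun A : Fin m → p.Sm => ∃ q0 : σ,
      Z0 ≤ p.zn step b ub D θ q0 (toF a0 A) m)
      ⊆ (Finset.univ : Finset σ).biUnion fun q0 =>
        Finset.univ.filter fun A : Fin m → p.Sm => Z0 ≤ p.zn step b ub D θ q0 (toF a0 A) m := by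
    intro A hA
    obtain ⟨q0, h2⟩ := (Finset.mem_filter.1 hA).2
    rw [Finset.mem_biUnion]
    exact ⟨q0, Finset.mem_univ _, Finset.mem_filter.2 ⟨Finset.mem_univ _, h2⟩⟩
  have h2 : ∀ q0 : σ, ((Finset.univ.filter fun A : Fin m → p.Sm =>
      Z0 ≤ p.zn step b ub D θ q0 (toF a0 A) m).card : ℝ) * 2 ^ Z0 ≤ W := by
    intro q0
    refine le_trans ?_ (p.moment_zn step hR b ub D hθ q0 a0 m)
    rw [← nsmul_eq_mul, ← Finset.sum_const]
    refine le_trans (Finset.sum_le_sum (g := fun A => (2 : ℝ) ^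
      p.zn step b ub D θ q0 (toF a0 A) m) ?_)
      (Finset.sum_le_sum_of_subset_of_nonneg (Finset.filter_subset _ _) fun A _ _ => by positivity)
    intro A hA
    exact pow_le_pow_right₀ (by norm_num) (Finset.mem_filter.1 hA).2
  have h3 : ((Finset.univ.filter fun A : Fin m → p.Sm => ∃ q0 : σ,
      Z0 ≤ p.zn step b ub D θ q0 (toF a0 A) m).card : ℝ)
      ≤ ∑ q0 : σ, ((Finset.univ.filter fun A : Fin m → p.Sm =>
          Z0 ≤ p.zn step b ub D θ q0 (toF a0 A) m).card : ℝ) := by
    exact_mod_cast (Finset.card_le_card h1).trans Finset.card_biUnion_le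
  calc _ ≤ (∑ q0 : σ, ((Finset.univ.filter fun A : Fin m → p.Sm =>
          Z0 ≤ p.zn step b ub D θ q0 (toF a0 A) m).card : ℝ)) * 2 ^ Z0 :=
        mul_le_mul_of_nonneg_right h3 (by positivity)
    _ ≤ ∑ q0 : σ, W := by
        rw [Finset.sum_mul]
        exact Finset.sum_le_sum fun q0 _ => h2 q0
    _ = Fintype.card σ * W := by rw [Finset.sum_const, Finset.card_univ, nsmul_eq_mul]
    _ ≤ _ := by
        apply mul_le_mul_of_nonneg_right _ hW0
        exact_mod_cast hσ

end Prm

end H40.OS
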