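import Pool.Agent.H40.OS.Mgf

/-!
# Concentration in product spaces

Proof of `conc` from `mgf`: `c = (1 + cosh t) / 2 = cosh (t/2)^2 ≤ exp (t^2 / 4)`
(`Real.cosh_le_exp_half_sq`), so `|F| |{D ≤ dS F}| exp (t D) ≤ q^(2N) exp (N t² / 4)`; take
`t = 2 D / N` (for `N = 0` the exponent is `0` in Lean).

Proof of `fool_count`: `F` may be assumed nonempty; the set is contained in `{u | u + c1 ∈ F}`,
which has `|F|` elements, and in `{u | D ≤ dS F (u + c2)}`, which has `|{y | D ≤ dS F y}|` elements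
(the infimum in `dS` is attained, `Nat.sInf_mem`); so the square of its cardinality is at most
`q ^ (2 N) exp (- D² / N)`.
-/

set_option autoImplicit false

namespace H40.OS

private theorem Conc_cosh (t : ℝ) :
    1 / 2 + (Real.exp t + Real.exp (-t)) / 4 ≤ Real.exp (t ^ 2 / 4) := by
  have h1 : 1 / 2 + (Real.exp t + Real.exp (-t)) / 4 = Real.cosh (t / 2) ^ 2 := by
    rw [Real.cosh_eq]
    have e1 : Real.exp t = Real.exp (t / 2) ^ 2 := by
      rw [← Real.exp_nat_mul]; congr 1; push_cast; ring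
    have e2 : Real.exp (-t) = Real.exp (-(t / 2)) ^ 2 := by
      rw [← Real.exp_nat_mul]; congr 1; push_cast; ring
    have e3 : Real.exp (t / 2) * Real.exp (-(t / 2)) = 1 := by
      rw [← Real.exp_add]; simp
    rw [e1, e2]
    nlinarith [e3]
  rw [h1]
  have h2 := Real.cosh_le_exp_half_sq (t / 2)
  have h3 : 0 ≤ Real.cosh (t / 2) := (Real.cosh_pos _).le
  calc Real.cosh (t / 2) ^ 2 ≤ Real.exp ((t / 2) ^ 2 / 2) ^ 2 := pow_le_pow_left₀ h3 h2 2
    _ = Real.exp (t ^ 2 / 4) := by
      rw [← Real.exp_nat_mul]; congr 1; push_cast; ring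

theorem conc {α : Type} [Fintype α] [DecidableEq α] {N : ℕ}
    (F : Finset (Fin N → α)) (hF : F.Nonempty) (D : ℕ) :
    (F.card : ℝ) * ((Finset.univ.filter fun y : Fin N → α => D ≤ dS F y).card : ℝ)
      ≤ (Fintype.card α : ℝ) ^ (2 * N) * Real.exp (-(D : ℝ) ^ 2 / N) := by
  set t : ℝ := 2 * D / N with ht
  have ht0 : 0 ≤ t := by positivity
  have h1 := mgf ht0 N F hF
  have h2 : ((Finset.univ.filter fun y : Fin N → α => D ≤ dS F y).card : ℝ) * Real.exp (t * D) ≤
      ∑ y : Fin N → α, Real.exp (t * dS F y) := by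
    calc ((Finset.univ.filter fun y : Fin N → α => D ≤ dS F y).card : ℝ) * Real.exp (t * D)
        = ∑ y ∈ Finset.univ.filter (fun y : Fin N → α => D ≤ dS F y), Real.exp (t * D) := by
          rw [Finset.sum_const, nsmul_eq_mul]
      _ ≤ ∑ y ∈ Finset.univ.filter (fun y : Fin N → α => D ≤ dS F y),
          Real.exp (t * dS F y) := by
          refine Finset.sum_le_sum fun y hy => ?_
          have h3 : (D : ℝ) ≤ dS F y := by exact_mod_cast (Finset.mem_filter.1 hy).2
          exact Real.exp_le_exp.2 (mul_le_mul_of_nonneg_left h3 ht0)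
      _ ≤ ∑ y : Fin N → α, Real.exp (t * dS F y) :=
          Finset.sum_le_sum_of_subset_of_nonneg (Finset.filter_subset _ _)
            fun y _ _ => (Real.exp_pos _).le
  have h4 : (1 / 2 + (Real.exp t + Real.exp (-t)) / 4) ^ N ≤ Real.exp ((D : ℝ) ^ 2 / N) := by
    have h5 : 0 ≤ 1 / 2 + (Real.exp t + Real.exp (-t)) / 4 := by positivity
    refine (pow_le_pow_left₀ h5 (Conc_cosh t) N).trans (le_of_eq ?_)
    rw [← Real.exp_nat_mul]
    congr 1
    rcases Nat.eq_zero_or_pos N with h | h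
    · subst h; simp
    · have h6 : (N : ℝ) ≠ 0 := by positivity
      rw [ht]
      field_simp
      ring
  have h7 : Real.exp (t * D) * Real.exp (-(D : ℝ) ^ 2 / N) = Real.exp ((D : ℝ) ^ 2 / N) := by
    rw [← Real.exp_add]
    congr 1
    rcases Nat.eq_zero_or_pos N with h | h
    · subst h; simp [ht]
    · have h6 : (N : ℝ) ≠ 0 := by positivity
      rw [ht]
      field_simp
      ring
  have h8 : 0 < Real.exp (t * D) := Real.exp_pos _
  have h9 : (F.card : ℝ) * ((Finset.univ.filter fun y : Fin N → α => D ≤ dS F y).card : ℝ) *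
      Real.exp (t * D) ≤ (Fintype.card α : ℝ) ^ (2 * N) * Real.exp (-(D : ℝ) ^ 2 / N) *
      Real.exp (t * D) := by
    calc (F.card : ℝ) * ((Finset.univ.filter fun y : Fin N → α => D ≤ dS F y).card : ℝ) *
        Real.exp (t * D)
        = (F.card : ℝ) * (((Finset.univ.filter fun y : Fin N → α => D ≤ dS F y).card : ℝ) *
          Real.exp (t * D)) := by ring
      _ ≤ (F.card : ℝ) * ∑ y : Fin N → α, Real.exp (t * dS F y) :=
          mul_le_mul_of_nonneg_left h2 (Nat.cast_nonneg _)
      _ ≤ (Fintype.card α : ℝ) ^ (2 * N) * (1 / 2 + (Real.exp t + Real.exp (-t)) / 4) ^ N := h1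
      _ ≤ (Fintype.card α : ℝ) ^ (2 * N) * Real.exp ((D : ℝ) ^ 2 / N) :=
          mul_le_mul_of_nonneg_left h4 (by positivity)
      _ = (Fintype.card α : ℝ) ^ (2 * N) * Real.exp (-(D : ℝ) ^ 2 / N) * Real.exp (t * D) := by
          rw [← h7]; ring
  exact le_of_mul_le_mul_right h9 h8

theorem fool_count {α : Type} [Fintype α] [DecidableEq α] [AddGroup α] {N : ℕ}
    (F : Finset (Fin N → α)) (c1 c2 : Fin N → α) (D : ℕ) :
    ((Finset.univ.filter fun u : Fin N → α => (fun i => u i + c1 i) ∈ F ∧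
      ∀ f ∈ F, D ≤ hammingDist (fun i => u i + c2 i) f).card : ℝ)
      ≤ (Fintype.card α : ℝ) ^ N * Real.exp (-(D : ℝ) ^ 2 / (2 * N)) := by
  have hR : 0 ≤ (Fintype.card α : ℝ) ^ N * Real.exp (-(D : ℝ) ^ 2 / (2 * N)) := by positivity
  rcases F.eq_empty_or_nonempty with hF | hF
  · subst hF
    refine le_trans (le_of_eq ?_) hR
    rw [Nat.cast_eq_zero, Finset.card_eq_zero]
    refine Finset.filter_false_of_mem fun u _ h => ?_
    exact absurd h.1 (Finset.notMem_empty _)
  · set A := Finset.univ.filter fun u : Fin N → α => (fun i => u i + c1 i) ∈ F ∧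
      ∀ f ∈ F, D ≤ hammingDist (fun i => u i + c2 i) f with hA
    have hinj : ∀ c : Fin N → α, Function.Injective fun (u : Fin N → α) (i : Fin N) =>
        u i + c i := by
      intro c u v h
      funext i
      exact add_right_cancel (congrFun h i)
    have h1 : A.card ≤ F.card := by
      refine Finset.card_le_card_of_injOn (fun u i => u i + c1 i) ?_ (hinj c1).injOn
      intro u hu
      exact (Finset.mem_filter.1 (Finset.mem_coe.1 hu)).2.1
    have h2 : A.card ≤ (Finset.univ.filter fun y : Fin N → α => D ≤ dS F y).card := by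
      refine Finset.card_le_card_of_injOn (fun u i => u i + c2 i) ?_ (hinj c2).injOn
      intro u hu
      have h3 := (Finset.mem_filter.1 (Finset.mem_coe.1 hu)).2.2
      refine Finset.mem_coe.2 (Finset.mem_filter.2 ⟨Finset.mem_univ _, ?_⟩)
      have hne : {k | ∃ f ∈ F, hammingDist (fun i => u i + c2 i) f = k}.Nonempty := by
        obtain ⟨f, hf⟩ := hF
        exact ⟨_, f, hf, rfl⟩
      obtain ⟨f, hf, he⟩ := Nat.sInf_mem hne
      show D ≤ sInf _
      rw [← he]
      exact h3 f hf
    have h4 := conc F hF D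
    have h5 : (A.card : ℝ) ^ 2 ≤
        ((Fintype.card α : ℝ) ^ N * Real.exp (-(D : ℝ) ^ 2 / (2 * N))) ^ 2 := by
      have h6 : ((Fintype.card α : ℝ) ^ N * Real.exp (-(D : ℝ) ^ 2 / (2 * N))) ^ 2 =
          (Fintype.card α : ℝ) ^ (2 * N) * Real.exp (-(D : ℝ) ^ 2 / N) := by
        rw [mul_pow, ← pow_mul, mul_comm N 2, ← Real.exp_nat_mul]
        congr 2
        rcases Nat.eq_zero_or_pos N with h | h
        · subst h; simp
        · have h7 : (N : ℝ) ≠ 0 := by positivity
          push_cast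
          field_simp
      rw [h6, sq]
      refine le_trans ?_ h4
      have a1 : (A.card : ℝ) ≤ F.card := by exact_mod_cast h1
      have a2 : (A.card : ℝ) ≤
          ((Finset.univ.filter fun y : Fin N → α => D ≤ dS F y).card : ℝ) := by exact_mod_cast h2
      exact mul_le_mul a1 a2 (Nat.cast_nonneg _) (Nat.cast_nonneg _)
    exact (pow_le_pow_iff_left₀ (Nat.cast_nonneg _) hR two_ne_zero).1 h5

end H40.OS
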