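import Pool.Agent.H40.OS.Upd
import Pool.Agent.H40.OS.Conc

/-!
# Most choices are typical

`Typ` fails for `A` only if there are `k < m P`, `q`, `q'` such that `up u k ∈ F` and
`D < hammingDist (down u k) f` for all `f ∈ F`, where
`F = {f | trans step (hid A) k q f = q'}` (take `q' = trans .. (up u k)` and use `near_le`); `F` does not
depend on the offsets (`hid_upd`), and `up u k`, `down u k` are `u c a` plus constants with
`c = cop k`, `a = tic k`.  By `fool_count` and `count_upd`, for fixed `k`, `q`, `q'` the number of such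
`A` is at most `card Sm ^ m * exp (- D² / (2 N))`.  There are `m P` values of `k` and at most
`4 ^ S` pairs `q`, `q'` (union bound).
-/

set_option autoImplicit false

namespace H40.OS

open H40.LS

namespace Prm

variable (p : Prm)

/-- The event for fixed `k`, `q`, `q'`. -/
private def Cnt_Z {σ : Type} (step : ℕ → σ → ℕ → σ) (a0 : p.Sm) (D m k : ℕ) (q q' : σ)
    (A : Fin m → p.Sm) : Prop :=
  p.trans step (p.hid (toF a0 A)) k q (p.up (p.ofs (toF a0 A)) k) = q' ∧
    ∀ f, p.trans step (p.hid (toF a0 A)) k q f = q' →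
      D ≤ hammingDist (p.down (p.ofs (toF a0 A)) k) f

private theorem Cnt_Z_upd {σ : Type} (step : ℕ → σ → ℕ → σ) (a0 : p.Sm) (D m k : ℕ) (q q' : σ)
    (A : Fin m → p.Sm) (c : Fin m) (a : Fin p.nT) (hc : p.cop k = c) (ha : p.tic k = a)
    (v : Fin p.N → ZMod p.Q) :
    Cnt_Z p step a0 D m k q q' (p.upd A c a v) ↔
      (p.trans step (p.hid (toF a0 A)) k q (fun i => v i + (p.sub k : ZMod p.Q)) = q' ∧
        ∀ f, p.trans step (p.hid (toF a0 A)) k q f = q' →
          D ≤ hammingDist (fun i => v i + -(p.sub k : ZMod p.Q)) f) := by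
  have h1 : p.up (p.ofs (toF a0 (p.upd A c a v))) k = fun i => v i + (p.sub k : ZMod p.Q) := by
    funext i
    unfold up
    rw [hc, ha, p.ofs_upd]
  have h2 : p.down (p.ofs (toF a0 (p.upd A c a v))) k = fun i => v i + -(p.sub k : ZMod p.Q) := by
    funext i
    unfold down
    rw [hc, ha, p.ofs_upd, sub_eq_add_neg]
  unfold Cnt_Z
  rw [p.hid_upd, h1, h2]

open Classical in
private theorem Cnt_one [NeZero p.Q] {σ : Type} (step : ℕ → σ → ℕ → σ) (a0 : p.Sm)
    (D m k : ℕ) (hk : k < m * p.P) (q q' : σ) :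
    ((Finset.univ.filter fun A : Fin m → p.Sm => Cnt_Z p step a0 D m k q q' A).card : ℝ)
      ≤ Real.exp (-(D : ℝ) ^ 2 / (2 * p.N)) * (Fintype.card p.Sm : ℝ) ^ m := by
  have hP : 0 < p.P := by
    rcases Nat.eq_zero_or_pos p.P with h | h
    · rw [h, Nat.mul_zero] at hk
      exact absurd hk (Nat.not_lt_zero _)
    · exact h
  have hL : 0 < p.L := by
    rcases Nat.eq_zero_or_pos p.L with h | h
    · unfold P at hP
      rw [h, Nat.mul_zero] at hP
      exact absurd hP (Nat.lt_irrefl _)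
    · exact h
  have hc : p.cop k < m := by
    unfold cop
    rw [Nat.div_lt_iff_lt_mul hP]
    exact hk
  have ha : p.tic k < p.nT := by
    unfold tic
    rw [Nat.div_lt_iff_lt_mul hL]
    exact Nat.mod_lt _ hP
  refine p.count_upd ⟨p.cop k, hc⟩ ⟨p.tic k, ha⟩ _ _ fun A => ?_
  have h1 := fool_count (Finset.univ.filter fun f : Fin p.N → ZMod p.Q =>
    p.trans step (p.hid (toF a0 A)) k q f = q') (fun _ => (p.sub k : ZMod p.Q))
    (fun _ => -(p.sub k : ZMod p.Q)) D
  rw [ZMod.card] at h1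
  rw [mul_comm]
  refine le_trans ?_ h1
  refine Nat.cast_le.2 (Finset.card_le_card fun v hv => ?_)
  have h2 := (Cnt_Z_upd p step a0 D m k q q' A ⟨p.cop k, hc⟩ ⟨p.tic k, ha⟩ rfl rfl v).1
    (Finset.mem_filter.1 hv).2
  refine Finset.mem_filter.2 ⟨Finset.mem_univ _, Finset.mem_filter.2 ⟨Finset.mem_univ _, h2.1⟩, ?_⟩
  intro f hf
  exact h2.2 f (Finset.mem_filter.1 hf).2

open Classical in
theorem typ_count [NeZero p.Q] {σ : Type} [Fintype σ] (step : ℕ → σ → ℕ → σ) {S : ℕ}
    (hσ : Fintype.card σ ≤ 2 ^ S) (a0 : p.Sm) (D m : ℕ) :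
    ((Finset.univ.filter fun A : Fin m → p.Sm =>
      ¬ p.Typ step D m (p.hid (toF a0 A)) (p.ofs (toF a0 A))).card : ℝ)
      ≤ (Fintype.card p.Sm : ℝ) ^ m *
        (m * p.P * 4 ^ S * Real.exp (-(D : ℝ) ^ 2 / (2 * p.N))) := by
  have hsub : (Finset.univ.filter fun A : Fin m → p.Sm =>
      ¬ p.Typ step D m (p.hid (toF a0 A)) (p.ofs (toF a0 A))) ⊆
      (Finset.range (m * p.P)).biUnion fun k =>
        (Finset.univ : Finset (σ × σ)).biUnion fun e =>
          Finset.univ.filter fun A : Fin m → p.Sm => Cnt_Z p step a0 D m k e.1 e.2 A := by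
    intro A hA
    have h1 := (Finset.mem_filter.1 hA).2
    unfold Typ at h1
    push Not at h1
    obtain ⟨k, hk, q, hq⟩ := h1
    refine Finset.mem_biUnion.2 ⟨k, Finset.mem_range.2 hk, Finset.mem_biUnion.2
      ⟨(q, p.trans step (p.hid (toF a0 A)) k q (p.up (p.ofs (toF a0 A)) k)), Finset.mem_univ _,
        Finset.mem_filter.2 ⟨Finset.mem_univ _, rfl, fun f hf => ?_⟩⟩⟩
    have h2 := near_le (p.trans step (p.hid (toF a0 A)) k q)
      (fun f => hammingDist (p.down (p.ofs (toF a0 A)) k) f) (p.up (p.ofs (toF a0 A)) k) f hf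
    exact hq.le.trans h2
  have h1 := Finset.card_le_card hsub
  have h2 : (((Finset.range (m * p.P)).biUnion fun k =>
        (Finset.univ : Finset (σ × σ)).biUnion fun e =>
          Finset.univ.filter fun A : Fin m → p.Sm => Cnt_Z p step a0 D m k e.1 e.2 A).card : ℝ) ≤
      ∑ k ∈ Finset.range (m * p.P), ∑ e : σ × σ,
        Real.exp (-(D : ℝ) ^ 2 / (2 * p.N)) * (Fintype.card p.Sm : ℝ) ^ m := by
    refine (Nat.cast_le.2 Finset.card_biUnion_le).trans ?_
    rw [Nat.cast_sum]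
    refine Finset.sum_le_sum fun k hk => ?_
    refine (Nat.cast_le.2 Finset.card_biUnion_le).trans ?_
    rw [Nat.cast_sum]
    exact Finset.sum_le_sum fun e _ => Cnt_one p step a0 D m k (Finset.mem_range.1 hk) e.1 e.2
  refine (Nat.cast_le.2 h1).trans (h2.trans ?_)
  rw [Finset.sum_const, Finset.card_range, Finset.sum_const, Finset.card_univ, Fintype.card_prod]
  simp only [nsmul_eq_mul, Nat.cast_mul]
  have h3 : (Fintype.card σ : ℝ) * Fintype.card σ ≤ 4 ^ S := by
    have h4 : (Fintype.card σ : ℝ) ≤ 2 ^ S := by exact_mod_cast hσ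
    calc (Fintype.card σ : ℝ) * Fintype.card σ ≤ 2 ^ S * 2 ^ S :=
          mul_le_mul h4 h4 (Nat.cast_nonneg _) (by positivity)
      _ = 4 ^ S := by rw [← mul_pow]; norm_num
  have h5 : 0 ≤ Real.exp (-(D : ℝ) ^ 2 / (2 * p.N)) * (Fintype.card p.Sm : ℝ) ^ m := by positivity
  have h6 : (0 : ℝ) ≤ m * p.P := by positivity
  calc (m * p.P : ℝ) * ((Fintype.card σ : ℝ) * Fintype.card σ *
        (Real.exp (-(D : ℝ) ^ 2 / (2 * p.N)) * (Fintype.card p.Sm : ℝ) ^ m))
      ≤ (m * p.P : ℝ) * (4 ^ S *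
        (Real.exp (-(D : ℝ) ^ 2 / (2 * p.N)) * (Fintype.card p.Sm : ℝ) ^ m)) :=
        mul_le_mul_of_nonneg_left (mul_le_mul_of_nonneg_right h3 h5) h6
    _ = _ := by ring

end Prm

end H40.OS
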