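import Pool.Agent.H40.OS.Idx
import Pool.Agent.H40.LS.Cat

/-!
# The fooling stream has the same states as the true stream

`run_fl` by induction on `n`, with `run_append` (`LS/Cat.lean`), `length_strm` and `near_eq`.
-/

set_option autoImplicit false

namespace H40.OS

open H40.LS

namespace Prm

variable (p : Prm)

theorem strm_succ (Af : ℕ → List ℕ → ℕ) (f : ℕ → Fin p.N → ZMod p.Q) (n : ℕ) :
    p.strm Af f (n + 1) = p.strm Af f n ++ p.bl Af n (f n) := by
  unfold strm
  rw [List.range_succ, List.flatMap_append]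
  simp

theorem strm_congr (Af : ℕ → List ℕ → ℕ) {f f' : ℕ → Fin p.N → ZMod p.Q} {n : ℕ}
    (hf : ∀ k < n, f k = f' k) : p.strm Af f n = p.strm Af f' n := by
  induction n with
  | zero => rfl
  | succ n ih =>
    rw [strm_succ, strm_succ, ih fun k hk => hf k (by omega), hf n (by omega)]

theorem length_bl (Af : ℕ → List ℕ → ℕ) (k : ℕ) (v : Fin p.N → ZMod p.Q) :
    (p.bl Af k v).length = (p.cells Af k).length := by
  unfold bl ents
  rw [List.length_map, List.length_mapIdx]

theorem length_strm (Af : ℕ → List ℕ → ℕ) (f : ℕ → Fin p.N → ZMod p.Q) (n : ℕ) :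
    (p.strm Af f n).length = p.posn Af n := by
  induction n with
  | zero =>
    unfold strm posn
    simp
  | succ n ih =>
    rw [strm_succ, List.length_append, ih, length_bl]
    unfold posn
    rw [Finset.sum_range_succ]

theorem run_fl {σ : Type} (step : ℕ → σ → ℕ → σ) (q0 : σ) (Af : ℕ → List ℕ → ℕ)
    (u : ℕ → ℕ → Fin p.N → ZMod p.Q) (n : ℕ) :
    run step 0 q0 (p.strm Af (p.fl step q0 Af u) n) = run step 0 q0 (p.strm Af (p.up u) n) := by
  induction n with
  | zero => rfl
  | succ n ih =>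
    rw [strm_succ, strm_succ, run_append, run_append, ih, length_strm, length_strm, Nat.zero_add]
    exact near_eq (p.trans step Af n (p.stt step q0 Af u n))
      (fun f => hammingDist (p.down u n) f) (p.up u n)

/-- The number of elements of a block. -/
theorem length_cells (hR : 1 ≤ p.R) (Af : ℕ → List ℕ → ℕ) {m k : ℕ} (hk : k < m * p.P) :
    (p.cells Af k).length ≤ p.N := by
  have h1 := length_tickAt (K := p.K) hR (p.tau k) (Af (p.cop k))
  rw [(mem_times.1 (p.tau_mem hk)).1] at h1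
  exact h1

theorem length_strm_le (hR : 1 ≤ p.R) (Af : ℕ → List ℕ → ℕ) (f : ℕ → Fin p.N → ZMod p.Q)
    (m : ℕ) : (p.strm Af f (m * p.P)).length ≤ m * (p.P * p.N) := by
  rw [length_strm]
  unfold posn
  refine (Finset.sum_le_card_nsmul _ _ p.N fun k hk =>
    p.length_cells hR Af (Finset.mem_range.1 hk)).trans ?_
  rw [Finset.card_range, smul_eq_mul, Nat.mul_assoc]

/-- The values are in `[1, (m * wid + 1) * Q]`. -/
theorem strm_val [NeZero p.Q] {Af : ℕ → List ℕ → ℕ} (hA : ∀ c l, Af c l < p.R)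
    (f : ℕ → Fin p.N → ZMod p.Q) (m : ℕ) :
    ∀ v ∈ p.strm Af f (m * p.P), 1 ≤ v ∧ v ≤ (m * wid p.K p.R p.h + 1) * p.Q := by
  intro v hv
  unfold strm at hv
  obtain ⟨k, hk, h1⟩ := List.mem_flatMap.1 hv
  have hk' : k < m * p.P := List.mem_range.1 hk
  unfold bl ents at h1
  obtain ⟨e, he, rfl⟩ := List.mem_map.1 h1
  rw [List.mem_mapIdx] at he
  obtain ⟨i, hi, rfl⟩ := he
  have hx : (p.cells Af k)[i] ∈ tickAt p.K p.R (Af (p.cop k)) (p.tau k) := List.getElem_mem hi
  obtain ⟨h2, h3⟩ := mem_times.1 (p.tau_mem hk')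
  obtain ⟨h4, h5⟩ := mem_tickAt hx
  have h6 := code_lt (Val.lt (hA (p.cop k)) (h5 h3))
  rw [← tm_length, h4, h2] at h6
  have hc := p.cop_lt hk'
  have hQ : 0 < p.Q := Nat.pos_of_ne_zero (NeZero.ne p.Q)
  have hoff : off (f k) i < p.Q := by
    unfold off
    split_ifs
    · exact ZMod.val_lt _
    · exact hQ
  have h7 : val p.K p.R (p.cells Af k)[i] ≤ wid p.K p.R p.h := h6
  have h8 : 1 ≤ val p.K p.R (p.cells Af k)[i] := Nat.le_add_left 1 _
  have h9 : (p.cop k + 1) * wid p.K p.R p.h ≤ m * wid p.K p.R p.h := Nat.mul_le_mul_right _ hc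
  change 1 ≤ (val p.K p.R (p.cells Af k)[i] + p.cop k * wid p.K p.R p.h) * p.Q + off (f k) i ∧
    (val p.K p.R (p.cells Af k)[i] + p.cop k * wid p.K p.R p.h) * p.Q + off (f k) i ≤ _
  generalize val p.K p.R (p.cells Af k)[i] = a at *
  generalize off (f k) i = o at *
  have h10 : a + p.cop k * wid p.K p.R p.h ≤ m * wid p.K p.R p.h := by
    rw [Nat.add_mul, one_mul] at h9
    omega
  have h11 := Nat.mul_le_mul_right p.Q h10
  constructor
  · have h12 : 1 * 1 ≤ (a + p.cop k * wid p.K p.R p.h) * p.Q :=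
      Nat.mul_le_mul (by omega) hQ
    omega
  · rw [Nat.add_mul _ 1, one_mul]
    omega

end Prm

end H40.OS
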