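import Pool.Agent.H40.OS.Gexp
import Pool.Agent.H40.OS.Mach

/-!
# The expected noise

`exk_local`: `exk` at the block `k` depends on the hidden rows only through the cells of the blocks
`k' ≤ k` (`posn`, `stt`, `up`, `down` and `trans` do).

`exp_noise`: the sum over `a = (ω, w)`; fix `w` and `i < P`, let `k = c * P + i`.  Apply `exp_cntG` to
`S ω := exk` at the block `k` for the hidden rows `ext ω` in the copy `c` (cardinality at most `D` by
the definition of `exk`).  Invariance: by `exk_local` it suffices that the cells of the blocks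
`k' ≤ k` do not change if `ω` is replaced by `mix K τ ω a` (`τ = tau k`): for `cop k' < c` the hidden
rows are not changed, for `cop k' = c` the time of `k'` is `τ` or before `τ` (`tau_lt`), use `agree`
(`LS/Agr.lean`) and `ext_mix_false`.
-/

set_option autoImplicit false

namespace H40.OS

open H40.LS

namespace Prm

variable (p : Prm)

theorem exk_local {σ : Type} (step : ℕ → σ → ℕ → σ) (D : ℕ) (q0 : σ)
    {Af Af' : ℕ → List ℕ → ℕ} (u : ℕ → ℕ → Fin p.N → ZMod p.Q) (k : ℕ)
    (hc : ∀ k' ≤ k, p.cells Af k' = p.cells Af' k') :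
    p.exk step D q0 Af u k = p.exk step D q0 Af' u k := by
  have hbl : ∀ k' ≤ k, ∀ v, p.bl Af k' v = p.bl Af' k' v := by
    intro k' hk' v
    unfold bl ents
    rw [hc k' hk']
  have hpos : p.posn Af k = p.posn Af' k :=
    Finset.sum_congr rfl fun k' hk' => by rw [hc k' (Finset.mem_range.1 hk').le]
  have htr : p.trans step Af k = p.trans step Af' k := by
    funext q v
    unfold trans
    rw [hpos, hbl k le_rfl]
  have hst : p.strm Af (p.up u) k = p.strm Af' (p.up u) k := by
    unfold strm
    rw [List.flatMap_def, List.flatMap_def]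
    congr 1
    exact List.map_congr_left fun k' hk' => hbl k' (List.mem_range.1 hk').le _
  have hfl : p.fl step q0 Af u k = p.fl step q0 Af' u k := by
    unfold fl alt stt
    rw [hst, htr]
  unfold exk
  rw [hfl, hc k le_rfl]

private theorem expN_ofs [NeZero p.Q] (A : ℕ → p.Sm) (c : ℕ)
    (ω ω' : dom (p.K + 4 * p.R) p.h → Fin p.R) (w : Fin p.nT → Fin p.N → ZMod p.Q) :
    p.ofs (Function.update A c (ω, w)) = p.ofs (Function.update A c (ω', w)) := by
  funext c' a
  unfold ofs
  by_cases h : c' = c
  · subst h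
    rw [Function.update_self, Function.update_self]
  · rw [Function.update_of_ne h, Function.update_of_ne h]

private theorem expN_hid [NeZero p.Q] (A : ℕ → p.Sm) (c : ℕ) (x : p.Sm) :
    p.hid (Function.update A c x) c = ext x.1 := by
  unfold hid
  rw [Function.update_self]

private theorem expN_card_exk {σ : Type} (step : ℕ → σ → ℕ → σ) (D : ℕ) (q0 : σ)
    (Af : ℕ → List ℕ → ℕ) (u : ℕ → ℕ → Fin p.N → ZMod p.Q) (k : ℕ) :
    (p.exk step D q0 Af u k).card ≤ D := by
  unfold exk
  split_ifs with h
  · exact Finset.card_image_le.trans h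
  · simp

private theorem expN_inv [NeZero p.Q] {σ : Type} (step : ℕ → σ → ℕ → σ) (D : ℕ) (q0 : σ)
    (A : ℕ → p.Sm) (c i : ℕ) (hi : i < p.P) (w : Fin p.nT → Fin p.N → ZMod p.Q)
    (ω a : dom (p.K + 4 * p.R) p.h → Fin p.R) :
    p.exk step D q0 (p.hid (Function.update A c (mix p.K (p.tau (c * p.P + i)) ω a, w)))
      (p.ofs (Function.update A c (mix p.K (p.tau (c * p.P + i)) ω a, w))) (c * p.P + i)
    = p.exk step D q0 (p.hid (Function.update A c (ω, w)))
      (p.ofs (Function.update A c (ω, w))) (c * p.P + i) := by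
  rw [p.expN_ofs A c (mix p.K (p.tau (c * p.P + i)) ω a) ω w]
  apply p.exk_local
  intro k' hk'
  unfold cells
  have hk : c * p.P + i < (c + 1) * p.P := by
    rw [Nat.succ_mul]
    omega
  by_cases h : p.cop k' = c
  · rw [h, expN_hid, expN_hid]
    dsimp only
    refine agree (p.tau (c * p.P + i)) (p.tau k') _ _ (fun l hl => ext_mix_false ω a hl) ?_
    rcases eq_or_lt_of_le hk' with h1 | h1
    · exact Or.inl (by rw [h1])
    · rcases p.tau_lt h1 hk with h2 | ⟨-, h2 | ⟨h2, -⟩⟩
      · rw [h, p.cop_add hi] at h2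
        exact absurd h2 (lt_irrefl _)
      · exact Or.inr h2
      · exact Or.inl (by unfold tau; rw [h2])
  · unfold hid
    rw [Function.update_of_ne h, Function.update_of_ne h]

theorem exp_noise [NeZero p.Q] {σ : Type} (step : ℕ → σ → ℕ → σ) (hR : 1 ≤ p.R) (b ub D : ℕ)
    (q0 : σ) (A : ℕ → p.Sm) (c : ℕ) :
    (∑ a : p.Sm, p.noise step b ub D q0 (p.hid (Function.update A c a))
      (p.ofs (Function.update A c a)) c) * p.R ^ p.h
      ≤ p.P * (D * (2 ^ p.h * p.R ^ (b + ub))) * Fintype.card p.Sm := by
  unfold noise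
  rw [Finset.sum_comm, Finset.sum_mul]
  have key : ∀ i ∈ Finset.range p.P,
      (∑ a : p.Sm, cnt p.K p.R b ub (p.exk step D q0 (p.hid (Function.update A c a))
        (p.ofs (Function.update A c a)) (c * p.P + i)) (p.hid (Function.update A c a) c)
        (p.tau (c * p.P + i))) * p.R ^ p.h
        ≤ D * (2 ^ p.h * p.R ^ (b + ub)) * Fintype.card p.Sm := by
    intro i hi
    have hi' := Finset.mem_range.1 hi
    have hk : c * p.P + i < (c + 1) * p.P := by
      rw [Nat.succ_mul]
      omega
    have h1 : ∀ w : Fin p.nT → Fin p.N → ZMod p.Q,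
        (∑ ω : dom (p.K + 4 * p.R) p.h → Fin p.R,
          cnt p.K p.R b ub (p.exk step D q0 (p.hid (Function.update A c (ω, w)))
          (p.ofs (Function.update A c (ω, w))) (c * p.P + i)) (ext ω)
          (p.tau (c * p.P + i))) * p.R ^ p.h
        ≤ D * (2 ^ p.h * p.R ^ (b + ub)) * p.R ^ Fintype.card (dom (p.K + 4 * p.R) p.h) :=
      fun w => exp_cntG hR b ub (p.tau_mem hk)
        (fun ω => p.exk step D q0 (p.hid (Function.update A c (ω, w)))
          (p.ofs (Function.update A c (ω, w))) (c * p.P + i))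
        (fun ω => p.expN_card_exk step D q0 _ _ _)
        (fun ω a => p.expN_inv step D q0 A c i hi' w ω a)
    have hcard : Fintype.card p.Sm = Fintype.card (Fin p.nT → Fin p.N → ZMod p.Q)
        * p.R ^ Fintype.card (dom (p.K + 4 * p.R) p.h) := by
      rw [Fintype.card_prod, Fintype.card_fun (α := dom (p.K + 4 * p.R) p.h), Fintype.card_fin,
        mul_comm]
    rw [Fintype.sum_prod_type_right, Finset.sum_mul]
    simp only [expN_hid]
    refine (Finset.sum_le_sum fun w _ => h1 w).trans ?_
    rw [Finset.sum_const, Finset.card_univ, smul_eq_mul, hcard]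
    exact le_of_eq (by ring)
  refine (Finset.sum_le_sum key).trans ?_
  rw [Finset.sum_const, Finset.card_range, smul_eq_mul]
  exact le_of_eq (by ring)

end Prm

end H40.OS
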