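import Pool.Agent.H40.OS.Mach

/-!
# A long increasing subsequence of the true stream

In the block `k` take the element with the cell in `optAt` (`LS/Opt.lean`; `optAt` is empty or a
singleton, `optAt_cases`, `optAt_sublist`).  For blocks `k < k'` (`tau_lt`): a larger copy gives a
larger value (`val x ≤ wid`, see `code_lt`, `val_pos`); in the same copy a later time gives a larger
code (`optAt_lt`), hence a larger value as the offsets are `< Q`; the same time and a later substep:
same cell, same index, and the offsets are `(u n).val + j < (u n).val + j'` (`NW`,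
`ZMod.val_add_of_lt`).  The number of elements is
`∑ k ∈ range (m * P), (optAt (Af (cop k)) (tau k)).length`, to be computed with `sum_idx` and
`length_opt`.
-/

set_option autoImplicit false

namespace H40.OS

open H40.LS

namespace Prm

variable (p : Prm)

private theorem lup_sum {α : Type} (F : α → ℕ) (d : α) : ∀ l : List α,
    ∑ a ∈ Finset.range l.length, F (l.getD a d) = (l.map F).sum
  | [] => by simp
  | x :: l => by
    rw [List.length_cons, Finset.sum_range_succ', List.map_cons, List.sum_cons]
    simp only [List.getD_cons_succ, List.getD_cons_zero]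
    rw [lup_sum F d l, add_comm]

/-- The element of the block `k` chosen for the long subsequence. -/
private theorem lup_sel {Af : ℕ → List ℕ → ℕ} (hA : ∀ c l, Af c l < p.R) (k : ℕ)
    (v : Fin p.N → ZMod p.Q) : ∃ s : List ℕ, s.Sublist (p.bl Af k v) ∧
    s.length = (optAt p.K p.R (Af (p.cop k)) (p.tau k)).length ∧ s.Pairwise (· < ·) ∧
    ∀ w ∈ s, ∃ x ∈ optAt p.K p.R (Af (p.cop k)) (p.tau k), ∃ i, ∃ hi : i < (p.cells Af k).length,
      (p.cells Af k)[i] = x ∧
      w = (val p.K p.R x + p.cop k * wid p.K p.R p.h) * p.Q + off v i := by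
  rcases optAt_cases (K := p.K) (R := p.R) (p.tau k) (Af (p.cop k)) with h | ⟨x, h⟩
  · refine ⟨[], List.nil_sublist _, by rw [h]; rfl, List.Pairwise.nil, fun w hw => ?_⟩
    exact absurd hw List.not_mem_nil
  · have hx : x ∈ p.cells Af k := (optAt_sublist (p.tau k) (Af (p.cop k)) (hA _)).subset
      (by rw [h]; exact List.mem_singleton.2 rfl)
    obtain ⟨i, hi, hix⟩ := List.mem_iff_getElem.1 hx
    refine ⟨[(val p.K p.R x + p.cop k * wid p.K p.R p.h) * p.Q + off v i], ?_, by rw [h]; rfl,
      List.pairwise_singleton _ _, fun w hw => ⟨x, by rw [h]; exact List.mem_singleton.2 rfl, i,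
        hi, hix, List.mem_singleton.1 hw⟩⟩
    rw [List.singleton_sublist]
    unfold bl
    refine List.mem_map.2 ⟨(x, p.sub k, off v i), ?_, rfl⟩
    unfold ents
    refine List.mem_iff_getElem.2 ⟨i, by rw [List.length_mapIdx]; exact hi, ?_⟩
    rw [List.getElem_mapIdx, hix]

private theorem lup_off [NeZero p.Q] (v : Fin p.N → ZMod p.Q) (i : ℕ) : off v i < p.Q := by
  unfold off
  split_ifs with h
  · exact ZMod.val_lt _
  · exact Nat.pos_of_ne_zero (NeZero.ne _)

private theorem lup_up [NeZero p.Q] (u : ℕ → ℕ → Fin p.N → ZMod p.Q) {m : ℕ} (hNW : p.NW m u)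
    {k i : ℕ} (hk : k < m * p.P) (hi : i < p.N) :
    off (p.up u k) i = (u (p.cop k) (p.tic k) ⟨i, hi⟩).val + p.sub k := by
  unfold off
  rw [dif_pos hi]
  unfold up
  have h1 := (hNW k hk ⟨i, hi⟩).2
  have h2 := p.sub_lt hk
  have h3 : ((p.sub k : ℕ) : ZMod p.Q).val = p.sub k := ZMod.val_natCast_of_lt (by omega)
  rw [ZMod.val_add_of_lt (by rw [h3]; omega), h3]

theorem lis_up [NeZero p.Q] {Af : ℕ → List ℕ → ℕ} (hA : ∀ c l, Af c l < p.R)
    (u : ℕ → ℕ → Fin p.N → ZMod p.Q) (m : ℕ) (hNW : p.NW m u) (l' : List ℕ) :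
    m * (p.L * (p.K + 3 * p.R) ^ p.h) ≤ LIS (p.strm Af (p.up u) (m * p.P) ++ l') := by
  have hR : 1 ≤ p.R := by
    have := hA 0 []
    omega
  choose s hs1 hs2 hs3 hs4 using fun k => p.lup_sel hA k (p.up u k)
  unfold LIS
  have hbdd : BddAbove {k | ∃ t : List ℕ, t.Sublist (p.strm Af (p.up u) (m * p.P) ++ l') ∧
      t.Pairwise (· < ·) ∧ t.length = k} := by
    refine ⟨(p.strm Af (p.up u) (m * p.P) ++ l').length, ?_⟩
    rintro k ⟨t, ht, -, rfl⟩
    exact ht.length_le
  refine le_csSup hbdd ⟨(List.range (m * p.P)).flatMap s, ?_, ?_, ?_⟩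
  · refine List.Sublist.trans ?_ (List.sublist_append_left _ _)
    unfold strm
    exact List.Sublist.flatMap_right _ fun k _ => hs1 k
  · rw [List.pairwise_flatMap]
    refine ⟨fun k _ => hs3 k, ?_⟩
    refine List.Pairwise.imp_of_mem ?_ (List.pairwise_lt_range (n := m * p.P))
    intro k k' hk hk' hkk w hw w' hw'
    rw [List.mem_range] at hk hk'
    obtain ⟨x, hx, i, hi, hix, rfl⟩ := hs4 k w hw
    obtain ⟨x', hx', i', hi', hix', rfl⟩ := hs4 k' w' hw'
    have o1 := p.lup_off (p.up u k) i
    have hxt : x ∈ tickAt p.K p.R (Af (p.cop k)) (p.tau k) :=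
      (optAt_sublist (p.tau k) (Af (p.cop k)) (hA _)).subset hx
    have hxt' : x' ∈ tickAt p.K p.R (Af (p.cop k')) (p.tau k') :=
      (optAt_sublist (p.tau k') (Af (p.cop k')) (hA _)).subset hx'
    have hval : val p.K p.R x ≤ wid p.K p.R p.h := by
      refine val_le (hA (p.cop k)) p.h _ ?_
      unfold str
      exact List.mem_flatMap.2 ⟨p.tau k, p.tau_mem hk, List.mem_map.2 ⟨x, hxt, rfl⟩⟩
    have hval' : 1 ≤ val p.K p.R x' := val_pos x'
    have key : val p.K p.R x + p.cop k * wid p.K p.R p.h
        < val p.K p.R x' + p.cop k' * wid p.K p.R p.h →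
        (val p.K p.R x + p.cop k * wid p.K p.R p.h) * p.Q + off (p.up u k) i
        < (val p.K p.R x' + p.cop k' * wid p.K p.R p.h) * p.Q + off (p.up u k') i' := by
      intro h
      have h1 := Nat.mul_le_mul_right p.Q (Nat.succ_le_of_lt h)
      have h2 : (val p.K p.R x + p.cop k * wid p.K p.R p.h).succ * p.Q
          = (val p.K p.R x + p.cop k * wid p.K p.R p.h) * p.Q + p.Q := Nat.succ_mul _ _
      omega
    rcases p.tau_lt hkk hk' with h | ⟨hc, h | ⟨ht, hsub⟩⟩
    · apply key
      have h3 : (p.cop k + 1) * wid p.K p.R p.h ≤ p.cop k' * wid p.K p.R p.h :=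
        Nat.mul_le_mul_right _ h
      have h4 : (p.cop k + 1) * wid p.K p.R p.h
          = p.cop k * wid p.K p.R p.h + wid p.K p.R p.h := by ring
      omega
    · apply key
      obtain ⟨a1, a2⟩ := mem_times.1 (p.tau_mem hk)
      obtain ⟨b1, b2⟩ := mem_times.1 (p.tau_mem hk')
      rw [← hc] at hx'
      have h5 := optAt_lt (hA (p.cop k)) a2 b2 (by rw [a1, b1]) h x hx x' hx'
      rw [← hc]
      unfold val
      omega
    · have htau : p.tau k = p.tau k' := by
        unfold tau
        rw [ht]
      have hcl : p.cells Af k = p.cells Af k' := by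
        unfold cells
        rw [htau, hc]
      rw [← hc, ← htau] at hx'
      have hxx : x = x' := by
        rcases optAt_cases (K := p.K) (R := p.R) (p.tau k) (Af (p.cop k)) with h | ⟨y, h⟩
        · rw [h] at hx
          exact absurd hx List.not_mem_nil
        · rw [h, List.mem_singleton] at hx hx'
          rw [hx, hx']
      subst hxx
      have hnd : (p.cells Af k).Nodup := by
        have := tickAt_sorted (K := p.K) (hA (p.cop k)) (mem_times.1 (p.tau_mem hk)).2
        refine List.Pairwise.imp ?_ this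
        intro a b hab hne
        rw [hne] at hab
        exact lt_irrefl _ hab
      have hii : i = i' := by
        have h6 : (p.cells Af k)[i] = (p.cells Af k)[i']'(by rw [hcl]; exact hi') := by
          rw [hix]
          simp only [hcl]
          exact hix'.symm
        exact (List.Nodup.getElem_inj_iff hnd).1 h6
      subst hii
      have hiN : i < p.N := lt_of_lt_of_le hi (p.length_cells hR Af hk)
      rw [p.lup_up u hNW hk hiN, p.lup_up u hNW hk' hiN, ← hc, ← ht]
      omega
  · rw [List.length_flatMap]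
    have e1 : ((List.range (m * p.P)).map fun k => (s k).length).sum
        = ∑ k ∈ Finset.range (m * p.P), (s k).length := by
      rw [← List.sum_toFinset _ List.nodup_range, List.toFinset_range]
    rw [e1]
    have e2 : ∑ k ∈ Finset.range (m * p.P), (s k).length = ∑ k ∈ Finset.range (m * p.P),
        (fun c a _ : ℕ => (optAt p.K p.R (Af c) ((times (p.K + 4 * p.R) p.h).getD a [])).length)
          (p.cop k) (p.tic k) (p.sub k) :=
      Finset.sum_congr rfl fun k _ => hs2 k
    rw [e2]
    refine (p.sum_idx m fun c a _ =>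
      (optAt p.K p.R (Af c) ((times (p.K + 4 * p.R) p.h).getD a [])).length).trans ?_
    have e3 : ∀ c, ∑ a ∈ Finset.range p.nT, ∑ _j ∈ Finset.range p.L,
        (optAt p.K p.R (Af c) ((times (p.K + 4 * p.R) p.h).getD a [])).length
        = p.L * (p.K + 3 * p.R) ^ p.h := by
      intro c
      rw [← length_opt p.h (Af c) (hA c), List.length_flatMap, ← lup_sum _ [], ← length_times',
        Finset.mul_sum]
      refine Finset.sum_congr rfl fun a _ => ?_
      rw [Finset.sum_const, Finset.card_range, smul_eq_mul]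
    rw [Finset.sum_congr rfl fun c _ => e3 c, Finset.sum_const, Finset.card_range, smul_eq_mul]

end Prm

end H40.OS
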