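import Pool.Agent.H40.OS.Upd

/-!
# Most offsets are not near the ends of the range

For every `c`, `a`, `i` the number of `x : ZMod Q` with `x.val < L` or `Q < x.val + L` is at most
`2 L`, so by `count_upd` the number of `A` for which this holds for `x = (A c).2 a i` is at most
`card Sm ^ m * (2 L / Q)`; union bound over `c`, `a`, `i`.
-/

set_option autoImplicit false

namespace H40.OS

open H40.LS

private theorem nw_card {Q : ℕ} [NeZero Q] (L : ℕ) (S : Finset (ZMod Q))
    (hS : ∀ x ∈ S, ¬ (L ≤ x.val ∧ x.val + L ≤ Q)) : S.card ≤ 2 * L := by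
  have h1 : S.image ZMod.val ⊆ Finset.range L ∪ Finset.Ico (Q + 1 - L) Q := by
    intro y hy
    obtain ⟨x, hx, rfl⟩ := Finset.mem_image.1 hy
    have h2 := hS x hx
    have h3 := ZMod.val_lt x
    rw [Finset.mem_union, Finset.mem_range, Finset.mem_Ico]
    omega
  rw [← Finset.card_image_of_injective S (ZMod.val_injective Q)]
  refine (Finset.card_le_card h1).trans ((Finset.card_union_le _ _).trans ?_)
  rw [Finset.card_range, Nat.card_Ico]
  omega

private theorem nw_fib {N Q : ℕ} [NeZero Q] (S : Finset (ZMod Q)) (i : Fin N)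
    (T : Finset (Fin N → ZMod Q)) (hT : ∀ v ∈ T, v i ∈ S) :
    (T.card : ℝ) ≤ S.card / Q * (Q : ℝ) ^ N := by
  classical
  have h1 : T ⊆ Fintype.piFinset (Function.update (fun _ => Finset.univ) i S) := by
    intro v hv
    rw [Fintype.mem_piFinset]
    intro j
    by_cases hj : j = i
    · subst hj
      simpa using hT v hv
    · simp [Function.update_of_ne hj]
  have h2 : ∀ j, (Function.update (fun _ : Fin N => (Finset.univ : Finset (ZMod Q))) i S j).card =
      Function.update (fun _ : Fin N => Q) i S.card j := by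
    intro j
    by_cases hj : j = i
    · subst hj
      simp
    · rw [Function.update_of_ne hj, Function.update_of_ne hj, Finset.card_univ, ZMod.card]
  have h3 : T.card ≤ S.card * Q ^ (N - 1) := by
    refine (Finset.card_le_card h1).trans ?_
    rw [Fintype.card_piFinset, Finset.prod_congr rfl fun j _ => h2 j,
      Finset.prod_update_of_mem (Finset.mem_univ i), Finset.prod_const,
      Finset.card_sdiff_of_subset (Finset.subset_univ _), Finset.card_univ, Fintype.card_fin,
      Finset.card_singleton]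
  have hN : 0 < N := lt_of_le_of_lt (Nat.zero_le _) i.2
  have hQ : (Q : ℝ) ≠ 0 := Nat.cast_ne_zero.2 (NeZero.ne Q)
  have h4 : (S.card : ℝ) / Q * (Q : ℝ) ^ N = S.card * (Q : ℝ) ^ (N - 1) := by
    obtain ⟨n, rfl⟩ : ∃ n, N = n + 1 := ⟨N - 1, by omega⟩
    rw [Nat.add_sub_cancel, pow_succ]
    field_simp
  rw [h4]
  exact_mod_cast h3

namespace Prm

variable (p : Prm)

open Classical in
theorem nw_count [NeZero p.Q] (a0 : p.Sm) (m : ℕ) :
    ((Finset.univ.filter fun A : Fin m → p.Sm => ¬ p.NW m (p.ofs (toF a0 A))).card : ℝ)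
      ≤ (Fintype.card p.Sm : ℝ) ^ m * (m * p.nT * p.N * (2 * p.L / p.Q)) := by
  set B : ℝ := 2 * p.L / p.Q with hB
  obtain ⟨Z, hZ⟩ : ∃ Z : Fin m → Fin p.nT → Fin p.N → (Fin m → p.Sm) → Prop, ∀ c a i A,
      Z c a i A ↔ ¬ (p.L ≤ ((A c).2 a i).val ∧ ((A c).2 a i).val + p.L ≤ p.Q) :=
    ⟨_, fun _ _ _ _ => Iff.rfl⟩
  have hone : ∀ c a i, ((Finset.univ.filter fun A : Fin m → p.Sm => Z c a i A).card : ℝ)
      ≤ B * (Fintype.card p.Sm : ℝ) ^ m := by
    intro c a i
    refine p.count_upd c a (Z c a i) B fun A => ?_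
    set S : Finset (ZMod p.Q) := Finset.univ.filter fun x =>
      ¬ (p.L ≤ x.val ∧ x.val + p.L ≤ p.Q) with hS
    have h1 := nw_fib S i (Finset.univ.filter fun v : Fin p.N → ZMod p.Q =>
      Z c a i (p.upd A c a v)) (by
        intro v hv
        have hv2 := (Finset.mem_filter.1 hv).2
        rw [hS, Finset.mem_filter]
        refine ⟨Finset.mem_univ _, ?_⟩
        have e : (p.upd A c a v c).2 a i = v i := by
          unfold upd
          rw [Function.update_self]
          simp only [Function.update_self]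
        rw [hZ, e] at hv2
        exact hv2)
    refine h1.trans ?_
    have h2 : (S.card : ℝ) ≤ 2 * p.L := by
      exact_mod_cast nw_card p.L S fun x hx => (Finset.mem_filter.1 hx).2
    rw [hB]
    gcongr
  have hsub : (Finset.univ.filter fun A : Fin m → p.Sm => ¬ p.NW m (p.ofs (toF a0 A))) ⊆
      (Finset.univ : Finset (Fin m × Fin p.nT × Fin p.N)).biUnion fun t =>
        Finset.univ.filter fun A : Fin m → p.Sm => Z t.1 t.2.1 t.2.2 A := by
    intro A hA
    have hA2 := (Finset.mem_filter.1 hA).2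
    unfold NW at hA2
    push Not at hA2
    obtain ⟨k, hk, i, hi⟩ := hA2
    have hP : 0 < p.P := Nat.pos_of_ne_zero (by rintro h0; rw [h0, mul_zero] at hk; omega)
    have hc : p.cop k < m := Nat.div_lt_of_lt_mul (by rwa [mul_comm] at hk)
    have ha : p.tic k < p.nT := by
      unfold tic
      refine Nat.div_lt_of_lt_mul ?_
      have := Nat.mod_lt k hP
      rw [mul_comm]
      exact this
    rw [Finset.mem_biUnion]
    refine ⟨(⟨p.cop k, hc⟩, ⟨p.tic k, ha⟩, i), Finset.mem_univ _, ?_⟩
    rw [Finset.mem_filter]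
    refine ⟨Finset.mem_univ _, ?_⟩
    have e : p.ofs (toF a0 A) (p.cop k) (p.tic k) i = (A ⟨p.cop k, hc⟩).2 ⟨p.tic k, ha⟩ i := by
      unfold ofs toF
      rw [dif_pos ha, dif_pos hc]
    rw [e] at hi
    rw [hZ]
    intro h
    exact absurd h.2 (not_le.2 (hi h.1))
  have h1 : ((Finset.univ.filter fun A : Fin m → p.Sm => ¬ p.NW m (p.ofs (toF a0 A))).card : ℝ) ≤
      ∑ t : Fin m × Fin p.nT × Fin p.N,
        ((Finset.univ.filter fun A : Fin m → p.Sm => Z t.1 t.2.1 t.2.2 A).card : ℝ) := by
    exact_mod_cast (Finset.card_le_card hsub).trans Finset.card_biUnion_le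
  refine h1.trans ((Finset.sum_le_sum fun t _ => hone t.1 t.2.1 t.2.2).trans (le_of_eq ?_))
  rw [Finset.sum_const, Finset.card_univ, Fintype.card_prod, Fintype.card_prod, Fintype.card_fin,
    Fintype.card_fin, Fintype.card_fin, nsmul_eq_mul]
  push_cast
  ring

end Prm

end H40.OS
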