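import Pool.Agent.H40.OS.Lfl
import Pool.Agent.H40.OS.Lup
import Pool.Agent.H40.OS.Cnt
import Pool.Agent.H40.OS.Nw
import Pool.Agent.H40.OS.Ball
import Pool.Agent.H40.OS.ExpN

/-!
# The output on the true stream is bounded by the longest increasing subsequence of the fooling
stream
-/

set_option autoImplicit false

namespace H40.OS

open H40.LS

/-- All passes in parallel. -/
def Alg.pstep {p s : ℕ} (M : Alg p s) (i : ℕ) (q : Fin p → M.Q) (x : ℕ) : Fin p → M.Q :=
  fun κ => M.step κ i (q κ) x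

theorem Alg.run_pstep {p s : ℕ} (M : Alg p s) : ∀ (l : List ℕ) (i : ℕ) (q : Fin p → M.Q)
    (κ : Fin p), run M.pstep i q l κ = run (M.step κ) i (q κ) l
  | [], _, _, _ => rfl
  | x :: l, i, q, κ => by
    change run M.pstep (i + 1) (M.pstep i q x) l κ
      = run (M.step κ) (i + 1) (M.step κ i (q κ) x) l
    rw [M.run_pstep l (i + 1) (M.pstep i q x) κ]
    rfl

/-- The starting states of the passes. -/
def Alg.starts {p s : ℕ} (M : Alg p s) (l : List ℕ) : Fin p → M.Q := fun κ => M.passStart l κ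

theorem Alg.out_eq {p s : ℕ} (M : Alg p s) {l l' : List ℕ}
    (h : run M.pstep 0 (M.starts l) l' = run M.pstep 0 (M.starts l) l) : M.out l' = M.out l := by
  have h1 : ∀ κ, κ ≤ p → M.passStart l' κ = M.passStart l κ := by
    intro κ
    induction κ with
    | zero => intro _; rfl
    | succ κ ih =>
      intro hκ
      have h2 := congrFun h ⟨κ, hκ⟩
      rw [M.run_pstep, M.run_pstep] at h2
      change run (M.step κ) 0 (M.passStart l' κ) l' = run (M.step κ) 0 (M.passStart l κ) l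
      rw [ih (by omega)]
      exact h2
  unfold Alg.out
  rw [h1 p le_rfl]

theorem Alg.card_states {p s : ℕ} (M : Alg p s) : Fintype.card (Fin p → M.Q) ≤ 2 ^ (p * s) := by
  rw [Fintype.card_fun, Fintype.card_fin, mul_comm, pow_mul]
  exact Nat.pow_le_pow_left M.card_le p

namespace Prm

variable (p : Prm)

/-- The true stream. -/
def tst (a0 : p.Sm) {m : ℕ} (A : Fin m → p.Sm) (r : ℕ) : List ℕ :=
  p.strm (p.hid (toF a0 A)) (p.up (p.ofs (toF a0 A))) (m * p.P) ++ List.replicate r 1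

/-- The streams with the offsets `f`. -/
def fst (a0 : p.Sm) {m : ℕ} (A : Fin m → p.Sm) (r : ℕ) (f : Fin (m * p.P) → Fin p.N → ZMod p.Q) :
    List ℕ :=
  p.strm (p.hid (toF a0 A)) (toF 0 f) (m * p.P) ++ List.replicate r 1

/-- The sequences of offsets near the target. -/
def Fam [NeZero p.Q] (a0 : p.Sm) {m : ℕ} (D : ℕ) (A : Fin m → p.Sm) :
    Finset (Fin (m * p.P) → Fin p.N → ZMod p.Q) :=
  Fintype.piFinset fun k : Fin (m * p.P) =>
    Finset.univ.filter fun v => hammingDist (p.down (p.ofs (toF a0 A)) k) v ≤ D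

theorem card_Fam [NeZero p.Q] (hR : 1 ≤ p.R) (a0 : p.Sm) {m : ℕ} (D : ℕ) (A : Fin m → p.Sm) :
    (p.Fam a0 D A).card ≤ ((p.N * p.Q) ^ D) ^ (m * p.P) := by
  unfold Fam
  rw [Fintype.card_piFinset]
  have h1 : ∀ k ∈ (Finset.univ : Finset (Fin (m * p.P))),
      (Finset.univ.filter fun v : Fin p.N → ZMod p.Q =>
        hammingDist (p.down (p.ofs (toF a0 A)) k) v ≤ D).card ≤ (p.N * p.Q) ^ D := by
    intro k _
    have h2 := ball_card (α := ZMod p.Q) (N := p.N) (Nat.one_le_pow _ _ hR)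
      (p.down (p.ofs (toF a0 A)) k) D
    rwa [ZMod.card] at h2
  refine (Finset.prod_le_prod' h1).trans (le_of_eq ?_)
  rw [Finset.prod_const, Finset.card_univ, Fintype.card_fin]

/-- Some stream near the target is overestimated. -/
def Over [NeZero p.Q] (a0 : p.Sm) {m : ℕ} (D : ℕ) (r : (Fin m → p.Sm) → ℕ) (out : List ℕ → ℝ)
    (A : Fin m → p.Sm) : Prop :=
  ∃ f ∈ p.Fam a0 D A, (LIS (p.fst a0 A (r A) f) : ℝ) < out (p.fst a0 A (r A) f)

theorem core [NeZero p.Q] {κ s : ℕ} (M : Alg κ s) {z : ℝ} (h1 : Par p.K p.R 1 z)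
    (h2 : Par p.K p.R 2 1) (b ub D : ℕ) (a0 : p.Sm) {m : ℕ} (A : Fin m → p.Sm)
    (r : (Fin m → p.Sm) → ℕ)
    (hT : p.Typ M.pstep D m (p.hid (toF a0 A)) (p.ofs (toF a0 A)))
    (hNW : p.NW m (p.ofs (toF a0 A))) (hO : ¬ p.Over a0 D r M.out A) :
    M.out (p.tst a0 A (r A)) ≤ 1 + ∑ c ∈ Finset.range m, p.cb M.pstep z b ub D
      (M.starts (p.tst a0 A (r A))) (p.hid (toF a0 A)) (p.ofs (toF a0 A)) c := by
  have hA : ∀ c l, p.hid (toF a0 A) c l < p.R := fun c l => ext_lt h1.hR _ l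
  set Af := p.hid (toF a0 A) with hAf
  set u := p.ofs (toF a0 A) with hu
  set q0 := M.starts (p.tst a0 A (r A)) with hq0
  let f : Fin (m * p.P) → Fin p.N → ZMod p.Q := fun k => p.fl M.pstep q0 Af u k
  have hfst : p.fst a0 A (r A) f
      = p.strm Af (p.fl M.pstep q0 Af u) (m * p.P) ++ List.replicate (r A) 1 := by
    unfold fst
    congr 1
    apply p.strm_congr
    intro k hk
    unfold toF
    rw [dif_pos hk]
  have hout : M.out (p.fst a0 A (r A) f) = M.out (p.tst a0 A (r A)) := by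
    apply M.out_eq
    change run M.pstep 0 q0 _ = run M.pstep 0 q0 _
    rw [hfst]
    unfold tst
    rw [run_append, run_append, p.length_strm, p.length_strm, p.run_fl]
  have hf : f ∈ p.Fam a0 D A := by
    unfold Fam
    rw [Fintype.mem_piFinset]
    intro k
    rw [Finset.mem_filter]
    exact ⟨Finset.mem_univ _, hT k k.2 _⟩
  have h3 : M.out (p.fst a0 A (r A) f) ≤ LIS (p.fst a0 A (r A) f) := by
    by_contra hcon
    exact hO ⟨f, hf, not_le.1 hcon⟩
  rw [← hout]
  refine h3.trans ?_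
  rw [hfst]
  exact p.lis_fl M.pstep h1 h2 hA u b ub D m hT hNW q0 (r A)

end Prm

end H40.OS
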