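import Pool.Agent.H40.LS.PModel

/-!
# Streaming algorithms without any restriction on the use of the memory

`LIS l` (the length of a longest strictly increasing subsequence of `l`) is defined in
`Pool/Agent/H40/LS/Model.lean`, `run step i q l` (the state after the list `l` has been read, starting
in the state `q` with the element at position `i`) in `Pool/Agent/H40/LS/PModel.lean`.
-/

namespace H40.OS

open H40.LS

/-- A deterministic streaming algorithm with `p` passes and `s` bits of memory: it has at most
`2 ^ s` states; `step κ i q x` is the next state if in the pass `κ` the element `x` at position `i`
is read in the state `q`; the output `res q` depends on the last state. -/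
structure Alg (p s : ℕ) where
  /-- the states of the memory -/
  Q : Type
  [fin : Fintype Q]
  card_le : Fintype.card Q ≤ 2 ^ s
  /-- the initial state -/
  start : Q
  /-- the transition function -/
  step : ℕ → ℕ → Q → ℕ → Q
  /-- the output -/
  res : Q → ℝ

attribute [instance] Alg.fin

/-- The state at the beginning of the pass `κ` over the stream `l`. -/
def Alg.passStart {p s : ℕ} (M : Alg p s) (l : List ℕ) : ℕ → M.Q
  | 0 => M.start
  | κ + 1 => run (M.step κ) 0 (M.passStart l κ) l

/-- The output for the stream `l`: the value of `res` at the state after `p` passes. -/
def Alg.out {p s : ℕ} (M : Alg p s) (l : List ℕ) : ℝ := M.res (M.passStart l p)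

end H40.OS
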