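import Pool.Agent.H40.LS.PFinal
import Pool.Agent.H40.OS.Model

/-!
# One-sided error: the instance

The instance of `H40/LS` is modified as follows: every tick is divided into `L` substeps; in the
substep `j` every active cell `x` presents the value `(val x + c * wid) * Q + (offset)`, where `c` is
the number of the copy.  In the true stream the offset is `u + j`, in the target of the fooling
stream it is `u - j` (modulo `Q`), with a random `u` for every cell.
-/

namespace H40.OS

open H40.LS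

/-- The parameters of the instance: `h` levels, `L` substeps per tick, offsets modulo `Q`. -/
structure Prm where
  K : ℕ
  R : ℕ
  h : ℕ
  L : ℕ
  Q : ℕ

/-- The offset of the element with index `i` of a block. -/
def off {N Q : ℕ} (v : Fin N → ZMod Q) (i : ℕ) : ℕ := if h : i < N then (v ⟨i, h⟩).val else 0

theorem exists_near {V σ : Type} (g : V → σ) (d : V → ℕ) (v : V) :
    ∃ f, g f = g v ∧ ∀ f', g f' = g v → d f ≤ d f' := by
  obtain ⟨f, hf, hmin⟩ := WellFounded.has_min (measure d).wf {f | g f = g v} ⟨v, rfl⟩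
  exact ⟨f, hf, fun f' hf' => Nat.not_lt.1 (hmin f' hf')⟩

/-- A minimiser of `d` among the `f` with `g f = g v`. -/
noncomputable def near {V σ : Type} (g : V → σ) (d : V → ℕ) (v : V) : V :=
  (exists_near g d v).choose

theorem near_eq {V σ : Type} (g : V → σ) (d : V → ℕ) (v : V) : g (near g d v) = g v :=
  (exists_near g d v).choose_spec.1

theorem near_le {V σ : Type} (g : V → σ) (d : V → ℕ) (v f : V) (hf : g f = g v) :
    d (near g d v) ≤ d f :=
  (exists_near g d v).choose_spec.2 f hf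

namespace Prm

variable (p : Prm)

/-- The number of ticks. -/
def nT : ℕ := (p.K + 4 * p.R) ^ p.h

/-- The number of blocks of one copy. -/
def P : ℕ := p.nT * p.L

/-- The maximal number of elements of a block. -/
def N : ℕ := p.R ^ p.h

/-- The copy of a block. -/
def cop (k : ℕ) : ℕ := k / p.P

/-- The tick of a block. -/
def tic (k : ℕ) : ℕ := k % p.P / p.L

/-- The substep of a block. -/
def sub (k : ℕ) : ℕ := k % p.P % p.L

/-- The time of a block. -/
def tau (k : ℕ) : List ℕ := (times (p.K + 4 * p.R) p.h).getD (p.tic k) []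

/-- The active cells of a block, in decreasing order. -/
def cells (Af : ℕ → List ℕ → ℕ) (k : ℕ) : List (List (ℕ × ℕ)) :=
  tickAt p.K p.R (Af (p.cop k)) (p.tau k)

/-- The elements of a block: cell, substep, offset. -/
def ents (Af : ℕ → List ℕ → ℕ) (k : ℕ) (v : Fin p.N → ZMod p.Q) :
    List (List (ℕ × ℕ) × ℕ × ℕ) :=
  (p.cells Af k).mapIdx fun i x => (x, p.sub k, off v i)

/-- The value of an element in the copy `c`. -/
def vl (c : ℕ) (e : List (ℕ × ℕ) × ℕ × ℕ) : ℕ :=
  (val p.K p.R e.1 + c * wid p.K p.R p.h) * p.Q + e.2.2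

/-- A block. -/
def bl (Af : ℕ → List ℕ → ℕ) (k : ℕ) (v : Fin p.N → ZMod p.Q) : List ℕ :=
  (p.ents Af k v).map (p.vl (p.cop k))

/-- The first `n` blocks. -/
def strm (Af : ℕ → List ℕ → ℕ) (f : ℕ → Fin p.N → ZMod p.Q) (n : ℕ) : List ℕ :=
  (List.range n).flatMap fun k => p.bl Af k (f k)

/-- The offsets of the true stream. -/
def up (u : ℕ → ℕ → Fin p.N → ZMod p.Q) (k : ℕ) : Fin p.N → ZMod p.Q :=
  fun i => u (p.cop k) (p.tic k) i + (p.sub k : ZMod p.Q)

/-- The target offsets of the fooling stream. -/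
def down (u : ℕ → ℕ → Fin p.N → ZMod p.Q) (k : ℕ) : Fin p.N → ZMod p.Q :=
  fun i => u (p.cop k) (p.tic k) i - (p.sub k : ZMod p.Q)

/-- The position of the first element of a block. -/
def posn (Af : ℕ → List ℕ → ℕ) (k : ℕ) : ℕ := ∑ k' ∈ Finset.range k, (p.cells Af k').length

variable {σ : Type} (step : ℕ → σ → ℕ → σ)

/-- The state after a block. -/
def trans (Af : ℕ → List ℕ → ℕ) (k : ℕ) (q : σ) (v : Fin p.N → ZMod p.Q) : σ :=
  run step (p.posn Af k) q (p.bl Af k v)

/-- The offsets with the same transition as in the true stream which are nearest to the target. -/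
noncomputable def alt (Af : ℕ → List ℕ → ℕ) (u : ℕ → ℕ → Fin p.N → ZMod p.Q) (k : ℕ) (q : σ) :
    Fin p.N → ZMod p.Q :=
  near (p.trans step Af k q) (fun f => hammingDist (p.down u k) f) (p.up u k)

/-- The state before a block in the true stream. -/
def stt (q0 : σ) (Af : ℕ → List ℕ → ℕ) (u : ℕ → ℕ → Fin p.N → ZMod p.Q) (k : ℕ) : σ :=
  run step 0 q0 (p.strm Af (p.up u) k)

/-- The offsets of the fooling stream. -/
noncomputable def fl (q0 : σ) (Af : ℕ → List ℕ → ℕ) (u : ℕ → ℕ → Fin p.N → ZMod p.Q) (k : ℕ) :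
    Fin p.N → ZMod p.Q :=
  p.alt step Af u k (p.stt step q0 Af u k)

/-- The exceptional pairs of a block (none if there are more than `D`). -/
noncomputable def exk (D : ℕ) (q0 : σ) (Af : ℕ → List ℕ → ℕ) (u : ℕ → ℕ → Fin p.N → ZMod p.Q)
    (k : ℕ) : Finset (ℕ × ℕ) :=
  if hammingDist (p.down u k) (p.fl step q0 Af u k) ≤ D then
    (Finset.univ.filter fun i => p.down u k i ≠ p.fl step q0 Af u k i).image fun i : Fin p.N =>
      (((p.cells Af k).map (val p.K p.R)).getD (i : ℕ) 0, 1)
  else ∅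

/-- The number of exceptional pairs with low cells in a copy. -/
noncomputable def noise (b ub D : ℕ) (q0 : σ) (Af : ℕ → List ℕ → ℕ)
    (u : ℕ → ℕ → Fin p.N → ZMod p.Q) (c : ℕ) : ℕ :=
  ∑ i ∈ Finset.range p.P, cnt p.K p.R b ub (p.exk step D q0 Af u (c * p.P + i)) (Af c)
    (p.tau (c * p.P + i))

/-- Typical: at every block and for every state there is a near vector with the same
transition. -/
def Typ (D m : ℕ) (Af : ℕ → List ℕ → ℕ) (u : ℕ → ℕ → Fin p.N → ZMod p.Q) : Prop :=
  ∀ k < m * p.P, ∀ q : σ, hammingDist (p.down u k) (p.alt step Af u k q) ≤ D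

/-- No offset is near the ends of the range. -/
def NW (m : ℕ) (u : ℕ → ℕ → Fin p.N → ZMod p.Q) : Prop :=
  ∀ k < m * p.P, ∀ i, p.L ≤ (u (p.cop k) (p.tic k) i).val ∧
    (u (p.cop k) (p.tic k) i).val + p.L ≤ p.Q

/-- The bound for the number of elements of an increasing subsequence in one copy of the fooling
stream. -/
noncomputable def cb (z : ℝ) (b ub D : ℕ) (q0 : σ) (Af : ℕ → List ℕ → ℕ)
    (u : ℕ → ℕ → Fin p.N → ZMod p.Q) (c : ℕ) : ℝ :=
  min (p.L * ((p.K : ℝ) + 3 * p.R) ^ p.h)
    (p.L * (((p.K : ℝ) + 3 * p.R) ^ p.h / z ^ b + ((p.K : ℝ) + 6 * p.R) ^ p.h / 2 ^ ub)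
      + ((p.K : ℝ) + 6 * p.R) ^ p.h + p.noise step b ub D q0 Af u c)

/-! ### The sample space -/

/-- The random choices in one copy: hidden rows, offsets. -/
abbrev Sm : Type :=
  (dom (p.K + 4 * p.R) p.h → Fin p.R) × (Fin p.nT → Fin p.N → ZMod p.Q)

/-- The hidden rows. -/
def hid (A : ℕ → p.Sm) (c : ℕ) : List ℕ → ℕ := ext (A c).1

/-- The offsets. -/
def ofs (A : ℕ → p.Sm) (c a : ℕ) : Fin p.N → ZMod p.Q :=
  if h : a < p.nT then (A c).2 ⟨a, h⟩ else 0

end Prm

end H40.OS
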