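import Pool.Agent.H40.OS.CCard
import Pool.Agent.H40.OS.CWt
import Pool.Agent.H40.LS.Exp

/-!
# The number of elements of an increasing subsequence in one copy

An element is `e = (x, j, o)`: cell, substep, offset.  `Before Q e e'`: the value of `e` is smaller
and `e` comes before `e'`.

Facts for `e`, `e' ∈ E` with `Before Q e e'`: as the offsets are `< Q`, `code x ≤ code x'`; if
`tlt (tm x) (tm x')` then even `code x < code x'` (`code_inj`, the cells are different).  The elements
with a fixed time have different substeps, so there are at most `L` of them.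

`entry_triv`: choose for every time `τ` of an element of `E` one cell `x_τ` (of an element of
`E`); by `chain_wt` for `y = z = 1` (all weights are `1`) their number is at most `(K + 3 R) ^ h`.

`entry_bd`: split `E` in four parts.
(1) elements whose time `τ` is the time of an element with a cell with `b ≤ bad`: choose `x_τ` with
`b ≤ bad`; by `chain_wt` for `y = 1` (`wt_z`) there are at most `(K + 3 R)^h / z^b` such times;
(2) elements with `u ≤ ph` (which depends only on the time): `chain_wt` for `y = 2`, `z = 1` (`wt_y`);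
(3) the other elements which are not exceptional: at most one for every cell (`hX`: two of them
with the same cell would have decreasing offsets, but the values increase), and the number of cells
is at most `(K + 6 R) ^ h` by `chain_card`;
(4) the other exceptional elements: these are counted by the last summand.
-/

set_option autoImplicit false

namespace H40.OS

open H40.LS

/-- `e` has a smaller value than `e'` and comes before `e'`. -/
def Before (K R Q : ℕ) (e e' : List (ℕ × ℕ) × ℕ × ℕ) : Prop :=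
  val K R e.1 * Q + e.2.2 < val K R e'.1 * Q + e'.2.2 ∧
    (tlt (tm e.1) (tm e'.1) ∨ (tm e.1 = tm e'.1 ∧ e.2.1 < e'.2.1))

private theorem entry_tlt_irrefl : ∀ τ : List ℕ, ¬ tlt τ τ
  | [] => fun h => h
  | t :: τ => by
    rintro (h | ⟨-, h⟩)
    · exact lt_irrefl _ h
    · exact entry_tlt_irrefl τ h

private theorem entry_tlt_asymm : ∀ τ τ' : List ℕ, tlt τ τ' → ¬ tlt τ' τ
  | [], _ => fun h => h.elim
  | t :: τ, [] => fun h => h.elim
  | t :: τ, t' :: τ' => by
    intro h h'
    rcases h with h | ⟨h1, h2⟩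
    · rcases h' with h' | ⟨h3, -⟩
      · omega
      · omega
    · rcases h' with h' | ⟨-, h4⟩
      · omega
      · exact entry_tlt_asymm τ τ' h2 h4

private theorem entry_val_le {a b o o' Q : ℕ} (ho : o' < Q) (h : a * Q + o < b * Q + o') :
    a ≤ b := by
  by_contra hc
  have h1 : (b + 1) * Q ≤ a * Q := Nat.mul_le_mul_right _ (by omega)
  have h2 : (b + 1) * Q = b * Q + Q := by ring
  omega

private theorem entry_code_le {K R Q : ℕ} {e e' : List (ℕ × ℕ) × ℕ × ℕ} (ho : e'.2.2 < Q)
    (hb : Before K R Q e e') :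
    code (K + 4 * R) (2 * R * (K + 4 * R)) e.1 ≤ code (K + 4 * R) (2 * R * (K + 4 * R)) e'.1 := by
  have h1 := entry_val_le ho hb.1
  unfold val at h1
  omega

private theorem entry_part {K R h L Q : ℕ} {y z : ℝ} (hp : Par K R y z) {A : List ℕ → ℕ}
    (hA : ∀ l, A l < R) (F : Finset (List (ℕ × ℕ) × ℕ × ℕ))
    (hE : ∀ e ∈ F, e.1.length = h ∧ Val K R A e.1 ∧ e.2.1 < L ∧ e.2.2 < Q)
    (hch : ∀ e ∈ F, ∀ e' ∈ F, e ≠ e' → Before K R Q e e' ∨ Before K R Q e' e)
    {w : ℝ} (hw : 0 < w) (hwt : ∀ e ∈ F, w ≤ wt K R y z A e.1) :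
    (F.card : ℝ) ≤ L * (((K : ℝ) + 3 * R * y) ^ h / w) := by
  classical
  -- the times
  set T : Finset (List ℕ) := F.image fun e => tm e.1 with hT
  have hcard : F.card ≤ L * T.card := by
    refine Finset.card_le_mul_card_image (f := fun e : List (ℕ × ℕ) × ℕ × ℕ => tm e.1) F L ?_
    intro τ _
    have h1 : ((F.filter fun e => tm e.1 = τ).image fun e => e.2.1).card
        = (F.filter fun e => tm e.1 = τ).card := by
      apply Finset.card_image_of_injOn
      intro e he e' he' hee
      have he1 := Finset.mem_filter.1 (Finset.mem_coe.1 he)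
      have he2 := Finset.mem_filter.1 (Finset.mem_coe.1 he')
      by_contra hne
      rcases hch e he1.1 e' he2.1 hne with hb | hb
      · rcases hb.2 with h3 | ⟨-, h3⟩
        · rw [he1.2, he2.2] at h3
          exact entry_tlt_irrefl _ h3
        · exact absurd hee (ne_of_lt h3)
      · rcases hb.2 with h3 | ⟨-, h3⟩
        · rw [he1.2, he2.2] at h3
          exact entry_tlt_irrefl _ h3
        · exact absurd hee (ne_of_gt h3)
    rw [← h1]
    calc _ ≤ (Finset.range L).card := Finset.card_le_card (by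
          intro j hj
          obtain ⟨e, he, rfl⟩ := Finset.mem_image.1 hj
          exact Finset.mem_range.2 (hE e (Finset.mem_filter.1 he).1).2.2.1)
      _ = L := Finset.card_range L
  -- a cell for every time
  have hex : ∀ τ : List ℕ, ∃ x : List (ℕ × ℕ), τ ∈ T → ∃ e ∈ F, e.1 = x ∧ tm x = τ := by
    intro τ
    by_cases hτ : τ ∈ T
    · obtain ⟨e, he, h1⟩ := Finset.mem_image.1 hτ
      exact ⟨e.1, fun _ => ⟨e, he, rfl, h1⟩⟩
    · exact ⟨[], fun h => absurd h hτ⟩
  choose c hc using hex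
  set C : Finset (List (ℕ × ℕ)) := T.image c with hC
  have hCcard : C.card = T.card := by
    apply Finset.card_image_of_injOn
    intro τ hτ τ' hτ' hττ
    obtain ⟨e, _, _, h1⟩ := hc τ (Finset.mem_coe.1 hτ)
    obtain ⟨e', _, _, h2⟩ := hc τ' (Finset.mem_coe.1 hτ')
    have h3 : c τ = c τ' := hττ
    rw [← h1, ← h2, h3]
  have hCmem : ∀ x ∈ C, ∃ e ∈ F, e.1 = x ∧ c (tm x) = x := by
    intro x hx
    obtain ⟨τ, hτ, rfl⟩ := Finset.mem_image.1 hx
    obtain ⟨e, he, h1, h2⟩ := hc τ hτ
    exact ⟨e, he, h1, by rw [h2]⟩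
  have hsum := chain_wt hp hA h C (by
    intro x hx
    obtain ⟨e, he, rfl, -⟩ := hCmem x hx
    exact ⟨(hE e he).1, (hE e he).2.1⟩) (by
    intro x hx x' hx' hne
    obtain ⟨e, he, h1, h1c⟩ := hCmem x hx
    obtain ⟨e', he', h2, h2c⟩ := hCmem x' hx'
    have htm : tm x ≠ tm x' := by
      intro h3
      apply hne
      rw [← h1c, ← h2c, h3]
    have hcode : code (K + 4 * R) (2 * R * (K + 4 * R)) x
        ≠ code (K + 4 * R) (2 * R * (K + 4 * R)) x' := by
      intro h3
      apply hne
      refine code_inj (K := K) (R := R) ?_ ?_ ?_ h3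
      · rw [← h1]
        exact Val.lt hA (hE e he).2.1
      · rw [← h2]
        exact Val.lt hA (hE e' he').2.1
      · rw [← h1, ← h2, (hE e he).1, (hE e' he').1]
    have hee : e ≠ e' := by
      rintro rfl
      exact hne (h1.symm.trans h2)
    rcases hch e he e' he' hee with hb | hb
    · left
      have h4 := entry_code_le (hE e' he').2.2.2 hb
      rw [h1, h2] at h4
      refine ⟨?_, lt_of_le_of_ne h4 hcode⟩
      rcases hb.2 with h5 | ⟨h5, -⟩
      · rwa [h1, h2] at h5
      · rw [h1, h2] at h5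
        exact absurd h5 htm
    · right
      have h4 := entry_code_le (hE e he).2.2.2 hb
      rw [h1, h2] at h4
      refine ⟨?_, lt_of_le_of_ne h4 hcode.symm⟩
      rcases hb.2 with h5 | ⟨h5, -⟩
      · rwa [h1, h2] at h5
      · rw [h1, h2] at h5
        exact absurd h5.symm htm)
  have hlow : (C.card : ℝ) * w ≤ ∑ x ∈ C, wt K R y z A x := by
    rw [← nsmul_eq_mul]
    apply Finset.card_nsmul_le_sum
    intro x hx
    obtain ⟨e, he, rfl, -⟩ := hCmem x hx
    exact hwt e he
  have h1 : (T.card : ℝ) ≤ ((K : ℝ) + 3 * R * y) ^ h / w := by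
    rw [le_div_iff₀ hw, ← hCcard]
    exact hlow.trans hsum
  have h2 : (F.card : ℝ) ≤ L * T.card := by exact_mod_cast hcard
  exact h2.trans (mul_le_mul_of_nonneg_left h1 (Nat.cast_nonneg _))

theorem entry_triv {K R h L Q : ℕ} {z : ℝ} (h1 : Par K R 1 z) {A : List ℕ → ℕ}
    (hA : ∀ l, A l < R) (E : Finset (List (ℕ × ℕ) × ℕ × ℕ))
    (hE : ∀ e ∈ E, e.1.length = h ∧ Val K R A e.1 ∧ e.2.1 < L ∧ e.2.2 < Q)
    (hch : ∀ e ∈ E, ∀ e' ∈ E, e ≠ e' → Before K R Q e e' ∨ Before K R Q e' e) :
    (E.card : ℝ) ≤ L * ((K : ℝ) + 3 * R) ^ h := by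
  have h2 := entry_part h1 hA E hE hch (w := 1) one_pos
    (fun e he => (pot_bd h1 hA (hE e he).2.1).1)
  rwa [mul_one, div_one] at h2

open Classical in
theorem entry_bd {K R h L Q : ℕ} {z : ℝ} (h1 : Par K R 1 z) (h2 : Par K R 2 1)
    {A : List ℕ → ℕ} (hA : ∀ l, A l < R) (b u : ℕ) (E : Finset (List (ℕ × ℕ) × ℕ × ℕ))
    (hE : ∀ e ∈ E, e.1.length = h ∧ Val K R A e.1 ∧ e.2.1 < L ∧ e.2.2 < Q)
    (hch : ∀ e ∈ E, ∀ e' ∈ E, e ≠ e' → Before K R Q e e' ∨ Before K R Q e' e)
    (X : List (ℕ × ℕ) → ℕ → Prop)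
    (hX : ∀ e ∈ E, ∀ e' ∈ E, e.1 = e'.1 → ¬ X e.1 e.2.1 → ¬ X e'.1 e'.2.1 → e.2.1 < e'.2.1 →
      e'.2.2 < e.2.2) :
    (E.card : ℝ) ≤ L * (((K : ℝ) + 3 * R) ^ h / z ^ b + ((K : ℝ) + 6 * R) ^ h / 2 ^ u)
      + ((K : ℝ) + 6 * R) ^ h
      + (E.filter fun e => X e.1 e.2.1 ∧ bad K R A e.1 < b ∧ ph K R e.1 < u).card := by
  have hz : (1 : ℝ) ≤ z := h1.hz1
  -- the four parts
  set F1 := E.filter fun e => b ≤ bad K R A e.1 with hF1
  set F2 := E.filter fun e => u ≤ ph K R e.1 with hF2
  set F3 := E.filter fun e => ¬ X e.1 e.2.1 with hF3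
  set F4 := E.filter fun e => X e.1 e.2.1 ∧ bad K R A e.1 < b ∧ ph K R e.1 < u with hF4
  have hsub : E ⊆ F1 ∪ F2 ∪ F3 ∪ F4 := by
    intro e he
    simp only [Finset.mem_union, hF1, hF2, hF3, hF4, Finset.mem_filter]
    by_cases hb : b ≤ bad K R A e.1
    · exact Or.inl (Or.inl (Or.inl ⟨he, hb⟩))
    · by_cases hu : u ≤ ph K R e.1
      · exact Or.inl (Or.inl (Or.inr ⟨he, hu⟩))
      · by_cases hx : X e.1 e.2.1
        · exact Or.inr ⟨he, hx, not_le.1 hb, not_le.1 hu⟩
        · exact Or.inl (Or.inr ⟨he, hx⟩)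
  have hcard : E.card ≤ F1.card + F2.card + F3.card + F4.card := by
    refine (Finset.card_le_card hsub).trans ?_
    refine (Finset.card_union_le _ _).trans (Nat.add_le_add_right ?_ _)
    refine (Finset.card_union_le _ _).trans (Nat.add_le_add_right ?_ _)
    exact Finset.card_union_le _ _
  have hcard' : (E.card : ℝ) ≤ F1.card + F2.card + F3.card + F4.card := by exact_mod_cast hcard
  have hc1 : (F1.card : ℝ) ≤ L * (((K : ℝ) + 3 * R) ^ h / z ^ b) := by
    have h3 := entry_part h1 hA F1 (fun e he => hE e (Finset.mem_filter.1 he).1)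
      (fun e he e' he' => hch e (Finset.mem_filter.1 he).1 e' (Finset.mem_filter.1 he').1)
      (w := z ^ b) (by positivity) (fun e he => by
        rw [wt_z]
        exact pow_le_pow_right₀ hz (Finset.mem_filter.1 he).2)
    rwa [mul_one] at h3
  have hc2 : (F2.card : ℝ) ≤ L * (((K : ℝ) + 6 * R) ^ h / 2 ^ u) := by
    have h3 := entry_part h2 hA F2 (fun e he => hE e (Finset.mem_filter.1 he).1)
      (fun e he e' he' => hch e (Finset.mem_filter.1 he).1 e' (Finset.mem_filter.1 he').1)
      (w := 2 ^ u) (by positivity) (fun e he => by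
        rw [wt_y]
        exact pow_le_pow_right₀ one_le_two (Finset.mem_filter.1 he).2)
    have h4 : (K : ℝ) + 3 * R * 2 = K + 6 * R := by ring
    rwa [h4] at h3
  have hc3 : (F3.card : ℝ) ≤ ((K : ℝ) + 6 * R) ^ h := by
    have hinj : (F3.image fun e => e.1).card = F3.card := by
      apply Finset.card_image_of_injOn
      intro e he e' he' hee
      have he1 := Finset.mem_filter.1 (Finset.mem_coe.1 he)
      have he2 := Finset.mem_filter.1 (Finset.mem_coe.1 he')
      have hee' : e.1 = e'.1 := hee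
      by_contra hne
      rcases hch e he1.1 e' he2.1 hne with hb | hb
      · rcases hb with ⟨hb1, hb2⟩
        rw [hee'] at hb1 hb2
        rcases hb2 with h3 | ⟨-, h3⟩
        · exact entry_tlt_irrefl _ h3
        · have h4 := hX e he1.1 e' he2.1 hee' he1.2 he2.2 h3
          omega
      · rcases hb with ⟨hb1, hb2⟩
        rw [← hee'] at hb1 hb2
        rcases hb2 with h3 | ⟨-, h3⟩
        · exact entry_tlt_irrefl _ h3
        · have h4 := hX e' he2.1 e he1.1 hee'.symm he2.2 he1.2 h3
          omega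
    have h3 := chain_card (K := K) (R := R) h (F3.image fun e => e.1) (by
      intro x hx
      obtain ⟨e, he, rfl⟩ := Finset.mem_image.1 hx
      have he1 := (Finset.mem_filter.1 he).1
      exact ⟨(hE e he1).1, Val.lt hA (hE e he1).2.1⟩) (by
      intro x hx x' hx' hlt
      obtain ⟨e, he, rfl⟩ := Finset.mem_image.1 hx
      obtain ⟨e', he', rfl⟩ := Finset.mem_image.1 hx'
      have he1 := (Finset.mem_filter.1 he).1
      have he2 := (Finset.mem_filter.1 he').1
      have hne : e ≠ e' := by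
        rintro rfl
        exact lt_irrefl _ hlt
      rcases hch e he1 e' he2 hne with hb | hb
      · rcases hb.2 with h5 | ⟨h5, -⟩
        · exact entry_tlt_asymm _ _ h5
        · rw [h5]
          exact entry_tlt_irrefl _
      · have h4 := entry_code_le (hE e he1).2.2.2 hb
        exact absurd h4 (not_le.2 hlt))
    rw [hinj] at h3
    exact_mod_cast h3
  have h3 : (L : ℝ) * (((K : ℝ) + 3 * R) ^ h / z ^ b + ((K : ℝ) + 6 * R) ^ h / 2 ^ u)
      = L * (((K : ℝ) + 3 * R) ^ h / z ^ b) + L * (((K : ℝ) + 6 * R) ^ h / 2 ^ u) := by ring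
  rw [h3]
  linarith

end H40.OS
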