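import Pool.Agent.H40.LS.Exp

/-!
# The expected number of low elements of a set which does not depend on the hidden rows

This is `exp_cnt` of `LS/Exp.lean` for a general set `S ω` instead of `S (str K R (ext ω) pre)`; the
only property of this set used there is `S (mix K τ ω a) = S ω`.
-/

set_option autoImplicit false

namespace H40.OS

open H40.LS

theorem exp_cntG {K R h s : ℕ} (hR : 1 ≤ R) (b u : ℕ) {τ : List ℕ}
    (hτ : τ ∈ times (K + 4 * R) h) (S : (dom (K + 4 * R) h → Fin R) → Finset (ℕ × ℕ))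
    (hS : ∀ ω, (S ω).card ≤ s) (hinv : ∀ ω a, S (mix K τ ω a) = S ω) :
    (∑ ω : dom (K + 4 * R) h → Fin R, cnt K R b u (S ω) (ext ω) τ) * R ^ h
      ≤ s * (2 ^ h * R ^ (b + u)) * R ^ Fintype.card (dom (K + 4 * R) h) := by
  classical
  set N := R ^ Fintype.card (dom (K + 4 * R) h) with hN
  have hN0 : 0 < N := by positivity
  have hcard : Fintype.card (dom (K + 4 * R) h → Fin R) = N := by
    rw [Fintype.card_fun, Fintype.card_fin]
  let c : (dom (K + 4 * R) h → Fin R) → (dom (K + 4 * R) h → Fin R) → ℕ := fun ω a =>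
    cnt K R b u (S ω) (ext a) τ
  have h1 : ∀ ω a, c (mix K τ ω a) (mix K τ ω a) = c ω a := by
    intro ω a
    change cnt K R b u (S (mix K τ ω a)) (ext (mix K τ ω a)) τ
      = cnt K R b u (S ω) (ext a) τ
    rw [hinv ω a]
    unfold cnt
    rw [low_agree b u τ (ext (mix K τ ω a)) (ext a) (fun l hl => ext_mix_true ω a hl)]
  have h2 : N * ∑ ω, c ω ω = ∑ p : (dom (K + 4 * R) h → Fin R) × (dom (K + 4 * R) h → Fin R),
      c p.1 p.1 := by
    rw [Fintype.sum_prod_type, Finset.mul_sum]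
    apply Finset.sum_congr rfl
    intro ω _
    dsimp only
    rw [Finset.sum_const, Finset.card_univ, hcard, smul_eq_mul]
  have h3 : ∑ p : (dom (K + 4 * R) h → Fin R) × (dom (K + 4 * R) h → Fin R), c p.1 p.1
      = ∑ p : (dom (K + 4 * R) h → Fin R) × (dom (K + 4 * R) h → Fin R), c p.1 p.2 := by
    rw [← Equiv.sum_comp (mix_invol (K := K) τ).toPerm]
    apply Finset.sum_congr rfl
    rintro ⟨ω, a⟩ -
    exact h1 ω a
  have h4 : ∀ ω, (∑ a, c ω a) * R ^ h ≤ s * (2 ^ h * R ^ (b + u) * N) := by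
    intro ω
    have h5 : ∑ a, c ω a = ∑ p ∈ S ω,
        (Finset.univ.filter fun a : dom (K + 4 * R) h → Fin R =>
          p.1 ∈ low K R b u (ext a) τ).card := by
      change ∑ a, cnt K R b u (S ω) (ext a) τ = _
      unfold cnt
      simp only [Finset.card_filter]
      rw [Finset.sum_comm]
    rw [h5, Finset.sum_mul]
    refine (Finset.sum_le_sum fun p _ => low_count hR b u hτ p.1).trans ?_
    rw [Finset.sum_const, smul_eq_mul]
    exact Nat.mul_le_mul_right _ (hS _)
  have h6 : N * ((∑ ω, c ω ω) * R ^ h) ≤ N * (s * (2 ^ h * R ^ (b + u)) * N) := by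
    calc N * ((∑ ω, c ω ω) * R ^ h) = (N * ∑ ω, c ω ω) * R ^ h := by ring
      _ = ∑ ω, (∑ a, c ω a) * R ^ h := by
        rw [h2, h3, Fintype.sum_prod_type, Finset.sum_mul]
      _ ≤ ∑ ω : dom (K + 4 * R) h → Fin R, s * (2 ^ h * R ^ (b + u) * N) :=
        Finset.sum_le_sum fun ω _ => h4 ω
      _ = _ := by
        rw [Finset.sum_const, Finset.card_univ, hcard, smul_eq_mul]
        ring
  exact Nat.le_of_mul_le_mul_left h6 hN0

end H40.OS
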