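import Pool.Agent.H40.OS.Defs

/-!
# The indices of the blocks

`k = (c * nT + a) * L + j` with `c = cop k`, `a = tic k`, `j = sub k`.  For `tau_lt` use
`times_sorted` and `List.pairwise_iff_getElem`; for `sum_idx` prove first
`∑ k ∈ range (m * P), G k = ∑ c ∈ range m, ∑ i ∈ range P, G (c * P + i)` (`Finset.sum_range_add` or
`Finset.prod_range_add`), and use it twice.
-/

set_option autoImplicit false

namespace H40.OS

open H40.LS

namespace Prm

variable (p : Prm)

theorem length_times' : (times (p.K + 4 * p.R) p.h).length = p.nT := length_times _ _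

private theorem P_pos {m k : ℕ} (hk : k < m * p.P) : 0 < p.P := by
  rcases Nat.eq_zero_or_pos p.P with h | h
  · rw [h, Nat.mul_zero] at hk
    omega
  · exact h

private theorem L_pos (h : 0 < p.P) : 0 < p.L := by
  rcases Nat.eq_zero_or_pos p.L with h' | h'
  · unfold P at h
    rw [h', Nat.mul_zero] at h
    omega
  · exact h'

theorem cop_lt {m k : ℕ} (hk : k < m * p.P) : p.cop k < m := by
  unfold cop
  apply Nat.div_lt_of_lt_mul
  rwa [Nat.mul_comm]

theorem tic_lt {m k : ℕ} (hk : k < m * p.P) : p.tic k < p.nT := by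
  have h := p.P_pos hk
  unfold tic
  apply Nat.div_lt_of_lt_mul
  have h1 : k % p.P < p.P := Nat.mod_lt _ h
  have h2 : p.P = p.L * p.nT := by
    unfold P
    exact Nat.mul_comm _ _
  rwa [← h2]

theorem sub_lt {m k : ℕ} (hk : k < m * p.P) : p.sub k < p.L := by
  unfold sub
  exact Nat.mod_lt _ (p.L_pos (p.P_pos hk))

theorem cop_add {c i : ℕ} (hi : i < p.P) : p.cop (c * p.P + i) = c := by
  unfold cop
  rw [Nat.mul_comm, Nat.mul_add_div (lt_of_le_of_lt (Nat.zero_le _) hi), Nat.div_eq_of_lt hi,
    Nat.add_zero]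

theorem tic_add {c i : ℕ} (hi : i < p.P) : p.tic (c * p.P + i) = i / p.L := by
  unfold tic
  rw [Nat.mul_comm c, Nat.mul_add_mod_self_left, Nat.mod_eq_of_lt hi]

theorem sub_add {c i : ℕ} (hi : i < p.P) : p.sub (c * p.P + i) = i % p.L := by
  unfold sub
  rw [Nat.mul_comm c, Nat.mul_add_mod_self_left, Nat.mod_eq_of_lt hi]

theorem tau_mem {m k : ℕ} (hk : k < m * p.P) : p.tau k ∈ times (p.K + 4 * p.R) p.h := by
  have h : p.tic k < (times (p.K + 4 * p.R) p.h).length := by
    rw [p.length_times']
    exact p.tic_lt hk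
  unfold tau
  rw [List.getD_eq_getElem _ _ h]
  exact List.getElem_mem _

private theorem tau_of {a b : ℕ} (hab : a < b) (hb : b < p.nT) :
    tlt ((times (p.K + 4 * p.R) p.h).getD a []) ((times (p.K + 4 * p.R) p.h).getD b []) := by
  have h : b < (times (p.K + 4 * p.R) p.h).length := by
    rw [p.length_times']
    exact hb
  rw [List.getD_eq_getElem _ _ (lt_trans hab h), List.getD_eq_getElem _ _ h]
  exact List.pairwise_iff_getElem.1 (times_sorted (p.K + 4 * p.R) p.h) a b (lt_trans hab h) h hab

private theorem tlt_irrefl : ∀ τ : List ℕ, ¬ tlt τ τ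
  | [], h => h
  | t :: τ, h => by
    unfold tlt at h
    rcases h with h | ⟨-, h⟩
    · exact lt_irrefl _ h
    · exact tlt_irrefl τ h

theorem tau_lt {m k k' : ℕ} (hk : k < k') (hk' : k' < m * p.P) :
    p.cop k < p.cop k' ∨ (p.cop k = p.cop k' ∧ (tlt (p.tau k) (p.tau k') ∨
      (p.tic k = p.tic k' ∧ p.sub k < p.sub k'))) := by
  have hP := p.P_pos hk'
  have hle : p.cop k ≤ p.cop k' := Nat.div_le_div_right (le_of_lt hk)
  rcases lt_or_eq_of_le hle with h | h
  · exact Or.inl h
  · right
    refine ⟨h, ?_⟩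
    have h1 : k % p.P < k' % p.P := by
      have e1 := Nat.div_add_mod k p.P
      have e2 := Nat.div_add_mod k' p.P
      unfold cop at h
      rw [h] at e1
      omega
    have hle2 : p.tic k ≤ p.tic k' := Nat.div_le_div_right (le_of_lt h1)
    rcases lt_or_eq_of_le hle2 with h2 | h2
    · left
      exact p.tau_of h2 (p.tic_lt hk')
    · right
      refine ⟨h2, ?_⟩
      have e1 := Nat.div_add_mod (k % p.P) p.L
      have e2 := Nat.div_add_mod (k' % p.P) p.L
      unfold tic at h2
      unfold sub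
      rw [h2] at e1
      omega

/-- Blocks of the same copy with the same time and substep are equal. -/
theorem idx_inj {m k k' : ℕ} (hk : k < m * p.P) (hk' : k' < m * p.P) (hc : p.cop k = p.cop k')
    (ht : p.tau k = p.tau k') (hs : p.sub k = p.sub k') : k = k' := by
  have htic : p.tic k = p.tic k' := by
    rcases lt_trichotomy (p.tic k) (p.tic k') with h | h | h
    · exfalso
      have h1 := p.tau_of h (p.tic_lt hk')
      change tlt (p.tau k) (p.tau k') at h1
      rw [ht] at h1
      exact tlt_irrefl _ h1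
    · exact h
    · exfalso
      have h1 := p.tau_of h (p.tic_lt hk)
      change tlt (p.tau k') (p.tau k) at h1
      rw [ht] at h1
      exact tlt_irrefl _ h1
  have h1 : k % p.P = k' % p.P := by
    have e1 := Nat.div_add_mod (k % p.P) p.L
    have e2 := Nat.div_add_mod (k' % p.P) p.L
    unfold tic at htic
    unfold sub at hs
    rw [htic, hs] at e1
    omega
  have e1 := Nat.div_add_mod k p.P
  have e2 := Nat.div_add_mod k' p.P
  unfold cop at hc
  rw [hc, h1] at e1
  omega

private theorem sum_blocks {M : Type} [AddCommMonoid M] (q m : ℕ) (G : ℕ → M) :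
    ∑ k ∈ Finset.range (m * q), G k
      = ∑ c ∈ Finset.range m, ∑ i ∈ Finset.range q, G (c * q + i) := by
  induction m with
  | zero => simp
  | succ m ih =>
    rw [Finset.sum_range_succ, ← ih, Nat.succ_mul, Finset.sum_range_add]

theorem sum_idx {M : Type} [AddCommMonoid M] (m : ℕ) (F : ℕ → ℕ → ℕ → M) :
    ∑ k ∈ Finset.range (m * p.P), F (p.cop k) (p.tic k) (p.sub k)
      = ∑ c ∈ Finset.range m, ∑ a ∈ Finset.range p.nT, ∑ j ∈ Finset.range p.L, F c a j := by
  rw [sum_blocks]
  refine Finset.sum_congr rfl fun c _ => ?_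
  have h1 : ∀ i ∈ Finset.range p.P, F (p.cop (c * p.P + i)) (p.tic (c * p.P + i))
      (p.sub (c * p.P + i)) = F c (i / p.L) (i % p.L) := by
    intro i hi
    have hi' := Finset.mem_range.1 hi
    rw [p.cop_add hi', p.tic_add hi', p.sub_add hi']
  rw [Finset.sum_congr rfl h1]
  have h2 : p.P = p.nT * p.L := rfl
  rw [h2, sum_blocks]
  refine Finset.sum_congr rfl fun a _ => ?_
  refine Finset.sum_congr rfl fun j hj => ?_
  have hj' := Finset.mem_range.1 hj
  rw [Nat.mul_comm a, Nat.mul_add_div (lt_of_le_of_lt (Nat.zero_le _) hj'),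
    Nat.div_eq_of_lt hj', Nat.add_zero, Nat.mul_add_mod_self_left, Nat.mod_eq_of_lt hj']

end Prm

end H40.OS
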