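import Pool.Agent.H40.OS.Tag

/-!
# The longest increasing subsequence of the fooling stream

An increasing subsequence of `strm ++ replicate r 1` has at most one element in the second part
(`List.sublist_append_iff`).  For the first part take `E` of `exists_ents` and use `entry_triv`,
`entry_bd` for every copy `c`, with
`X x j := ∃ k < m * P, cop k = c ∧ tau k = tm x ∧ sub k = j ∧ (val x, 1) ∈ exk k`
(`k` is determined by `c`, `tm x`, `j`: `idx_inj`).

`hX`: let `e`, `e'` have the same cell `x`, in blocks `k`, `k'` (same copy and time, so the same list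
of cells, without duplicates by `tickAt_sorted`), at the index `n < N` (`length_cells`).  If they are
not exceptional then the offsets are `(u n - j).val = (u n).val - j` and `(u n).val - j'` by `Typ`, the
definition of `exk`, `off`, `down` and `NW` (`ZMod.val_sub`).

The elements counted in the last summand of `entry_bd` are mapped injectively to pairs
`(k, (val x, 1))` with `(val x, 1) ∈ exk k` in `low`, so their number is at most `noise c`.
-/

set_option autoImplicit false

namespace H40.OS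

open H40.LS

namespace Prm

variable (p : Prm)

private theorem lfl_replicate {t : List ℕ} {r : ℕ} (ht : t.Sublist (List.replicate r 1))
    (hp : t.Pairwise (· < ·)) : t.length ≤ 1 := by
  obtain ⟨k, -, rfl⟩ := List.sublist_replicate_iff.1 ht
  rw [List.pairwise_replicate] at hp
  rw [List.length_replicate]
  rcases hp with h | h
  · exact h
  · exact absurd h (lt_irrefl _)

private theorem lfl_lis {S : List ℕ} {r : ℕ} {B : ℝ}
    (hB : ∀ t : List ℕ, t.Sublist S → t.Pairwise (· < ·) → (t.length : ℝ) ≤ B) :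
    (LIS (S ++ List.replicate r 1) : ℝ) ≤ 1 + B := by
  have hbdd : BddAbove {k | ∃ t : List ℕ, t.Sublist (S ++ List.replicate r 1) ∧
      t.Pairwise (· < ·) ∧ t.length = k} := by
    refine ⟨(S ++ List.replicate r 1).length, ?_⟩
    rintro k ⟨t, ht, -, rfl⟩
    exact ht.length_le
  have hne : {k | ∃ t : List ℕ, t.Sublist (S ++ List.replicate r 1) ∧
      t.Pairwise (· < ·) ∧ t.length = k}.Nonempty :=
    ⟨0, [], List.nil_sublist _, List.Pairwise.nil, rfl⟩
  obtain ⟨t, ht, hp, hl⟩ := Nat.sSup_mem hne hbdd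
  unfold LIS
  rw [← hl]
  obtain ⟨t1, t2, rfl, h1, h2⟩ := List.sublist_append_iff.1 ht
  rw [List.pairwise_append] at hp
  have h3 := hB t1 h1 hp.1
  have h4 := lfl_replicate h2 hp.2.1
  rw [List.length_append]
  push_cast
  have h5 : (t2.length : ℝ) ≤ 1 := by exact_mod_cast h4
  linarith

theorem lfl_cells {Af : ℕ → List ℕ → ℕ} (hA : ∀ c l, Af c l < p.R) {m k : ℕ}
    (hk : k < m * p.P) {x : List (ℕ × ℕ)} (hx : x ∈ p.cells Af k) :
    tm x = p.tau k ∧ x.length = p.h ∧ Val p.K p.R (Af (p.cop k)) x ∧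
      ∀ e ∈ x, e.1 < 2 * p.R ∧ e.2 < p.K + 4 * p.R := by
  obtain ⟨h1, h2⟩ := mem_tickAt hx
  obtain ⟨h3, h4⟩ := mem_times.1 (p.tau_mem hk)
  have h5 := h2 h4
  exact ⟨h1, by rw [← tm_length, h1, h3], h5, Val.lt (hA _) h5⟩

theorem lfl_nodup {Af : ℕ → List ℕ → ℕ} (hA : ∀ c l, Af c l < p.R) {m k : ℕ}
    (hk : k < m * p.P) : (p.cells Af k).Nodup := by
  obtain ⟨h3, h4⟩ := mem_times.1 (p.tau_mem hk)
  have h := tickAt_sorted (K := p.K) (hA (p.cop k)) h4
  refine h.imp ?_
  intro a b hab hne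
  rw [hne] at hab
  exact lt_irrefl _ hab

theorem lfl_tlt_irrefl : ∀ τ : List ℕ, ¬ tlt τ τ
  | [] => fun h => h
  | t :: τ => by
    rintro (h | ⟨-, h⟩)
    · exact lt_irrefl _ h
    · exact lfl_tlt_irrefl τ h

theorem lfl_tic {m k k' : ℕ} (hk : k < m * p.P) (hk' : k' < m * p.P) (ht : p.tau k = p.tau k') :
    p.tic k = p.tic k' := by
  have h1 := p.tic_lt hk
  have h2 := p.tic_lt hk'
  have hl := p.length_times'
  have hnd : (times (p.K + 4 * p.R) p.h).Nodup := by
    refine (times_sorted (p.K + 4 * p.R) p.h).imp ?_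
    intro a b hab hne
    rw [hne] at hab
    exact lfl_tlt_irrefl _ hab
  unfold tau at ht
  rw [List.getD_eq_getElem _ _ (by rw [hl]; exact h1),
    List.getD_eq_getElem _ _ (by rw [hl]; exact h2)] at ht
  exact (List.Nodup.getElem_inj_iff hnd).1 ht

theorem lfl_off [NeZero p.Q] {σ : Type} (step : ℕ → σ → ℕ → σ) {Af : ℕ → List ℕ → ℕ}
    (u : ℕ → ℕ → Fin p.N → ZMod p.Q) (D m : ℕ) (hT : p.Typ step D m Af u)
    (hNW : p.NW m u) (q0 : σ) {k n : ℕ} (hk : k < m * p.P) (hn : n < (p.cells Af k).length)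
    (hnN : n < p.N)
    (hX : (val p.K p.R (p.cells Af k)[n], 1) ∉ p.exk step D q0 Af u k) :
    off (p.fl step q0 Af u k) n = (u (p.cop k) (p.tic k) ⟨n, hnN⟩).val - p.sub k := by
  have h1 : hammingDist (p.down u k) (p.fl step q0 Af u k) ≤ D := hT k hk _
  have h2 : p.down u k ⟨n, hnN⟩ = p.fl step q0 Af u k ⟨n, hnN⟩ := by
    by_contra hne
    apply hX
    unfold exk
    rw [if_pos h1, Finset.mem_image]
    refine ⟨⟨n, hnN⟩, Finset.mem_filter.2 ⟨Finset.mem_univ _, hne⟩, ?_⟩
    have h3 : n < ((p.cells Af k).map (val p.K p.R)).length := by rw [List.length_map]; exact hn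
    rw [List.getD_eq_getElem _ _ h3, List.getElem_map]
  unfold off
  rw [dif_pos hnN, ← h2]
  unfold down
  have hs := p.sub_lt hk
  obtain ⟨h4, h5⟩ := hNW k hk ⟨n, hnN⟩
  have h6 : ((p.sub k : ℕ) : ZMod p.Q).val = p.sub k := by
    apply ZMod.val_natCast_of_lt
    have := ZMod.val_lt (u (p.cop k) (p.tic k) ⟨n, hnN⟩)
    omega
  rw [ZMod.val_sub (by rw [h6]; omega), h6]

theorem lfl_off_lt [NeZero p.Q] (v : Fin p.N → ZMod p.Q) (n : ℕ) : off v n < p.Q := by
  unfold off
  split_ifs
  · exact ZMod.val_lt _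
  · exact Nat.pos_of_ne_zero (NeZero.ne _)

theorem lfl_copy [NeZero p.Q] {σ : Type} (step : ℕ → σ → ℕ → σ) {z : ℝ} (h1 : Par p.K p.R 1 z)
    (h2 : Par p.K p.R 2 1) {Af : ℕ → List ℕ → ℕ} (hA : ∀ c l, Af c l < p.R)
    (u : ℕ → ℕ → Fin p.N → ZMod p.Q) (b ub D m : ℕ) (hT : p.Typ step D m Af u)
    (hNW : p.NW m u) (q0 : σ) (c : ℕ) (E : Finset (List (ℕ × ℕ) × ℕ × ℕ))
    (hE : ∀ e ∈ E, ∃ k < m * p.P, p.cop k = c ∧ ∃ n, ∃ hn : n < (p.cells Af k).length,
        e = ((p.cells Af k)[n], p.sub k, off (p.fl step q0 Af u k) n))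
    (hch : ∀ e ∈ E, ∀ e' ∈ E, e ≠ e' →
        Before p.K p.R p.Q e e' ∨ Before p.K p.R p.Q e' e) :
    (E.card : ℝ) ≤ p.cb step z b ub D q0 Af u c := by
  classical
  have hE1 : ∀ e ∈ E, e.1.length = p.h ∧ Val p.K p.R (Af c) e.1 ∧ e.2.1 < p.L ∧ e.2.2 < p.Q := by
    intro e he
    obtain ⟨k, hk, rfl, n, hn, rfl⟩ := hE e he
    obtain ⟨h3, h4, h5, -⟩ := p.lfl_cells hA hk (List.getElem_mem hn)
    exact ⟨h4, h5, p.sub_lt hk, p.lfl_off_lt _ _⟩
  set X : List (ℕ × ℕ) → ℕ → Prop := fun x j => ∃ k < m * p.P, p.cop k = c ∧ p.tau k = tm x ∧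
    p.sub k = j ∧ (val p.K p.R x, 1) ∈ p.exk step D q0 Af u k with hXdef
  have hX : ∀ e ∈ E, ∀ e' ∈ E, e.1 = e'.1 → ¬ X e.1 e.2.1 → ¬ X e'.1 e'.2.1 → e.2.1 < e'.2.1 →
      e'.2.2 < e.2.2 := by
    intro e he e' he' hee hnX hnX' hlt
    obtain ⟨k, hk, hkc, n, hn, rfl⟩ := hE e he
    obtain ⟨k', hk', hkc', n', hn', rfl⟩ := hE e' he'
    simp only at hee hnX hnX' hlt ⊢
    have h3 := p.lfl_cells hA hk (List.getElem_mem hn)
    have h4 := p.lfl_cells hA hk' (List.getElem_mem hn')
    have hτ : p.tau k = p.tau k' := by rw [← h3.1, ← h4.1, hee]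
    have hcells : p.cells Af k = p.cells Af k' := by
      unfold cells
      rw [hτ, hkc, hkc']
    have hnn : n = n' := by
      have hn2 : n < (p.cells Af k').length := by rw [← hcells]; exact hn
      have h5 : (p.cells Af k')[n] = (p.cells Af k')[n'] := by
        rw [← hee]
        simp only [hcells]
      exact (List.Nodup.getElem_inj_iff (p.lfl_nodup hA hk')).1 h5
    subst hnn
    have hnN : n < p.N := lt_of_lt_of_le hn (p.length_cells h1.hR Af hk)
    have htic := p.lfl_tic hk hk' hτ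
    have h6 := p.lfl_off step u D m hT hNW q0 hk hn hnN (fun hmem =>
      hnX ⟨k, hk, hkc, h3.1.symm, rfl, hmem⟩)
    have h7 := p.lfl_off step u D m hT hNW q0 hk' hn' hnN (fun hmem =>
      hnX' ⟨k', hk', hkc', h4.1.symm, rfl, hmem⟩)
    rw [h6, h7, ← htic, hkc, hkc']
    have h8 := (hNW k hk ⟨n, hnN⟩).1
    rw [hkc] at h8
    have h9 := p.sub_lt hk'
    omega
  have hbd := entry_bd h1 h2 (hA c) b ub E hE1 hch X hX
  have htr := entry_triv h1 (hA c) E hE1 hch
  have hnoise : (E.filter fun e => X e.1 e.2.1 ∧ bad p.K p.R (Af c) e.1 < b ∧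
      ph p.K p.R e.1 < ub).card ≤ p.noise step b ub D q0 Af u c := by
    choose! kf hkf1 hkf2 nf hnf hkf3 using hE
    unfold noise cnt
    rw [← Finset.card_sigma]
    refine Finset.card_le_card_of_injOn
      (fun e => ⟨kf e % p.P, (val p.K p.R e.1, 1)⟩) ?_ ?_
    · intro e he
      rw [Finset.mem_coe, Finset.mem_filter] at he
      obtain ⟨heE, hXe, hbad, hph⟩ := he
      obtain ⟨k', hk', hkc', hτ', hs', hmem⟩ := hXe
      have hk := hkf1 e heE
      have hc := hkf2 e heE
      have hP : 0 < p.P := by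
        rcases Nat.eq_zero_or_pos p.P with h | h
        · rw [h, Nat.mul_zero] at hk; omega
        · exact h
      have hcells := p.lfl_cells hA hk (List.getElem_mem (hnf e heE))
      have he1 : e.1 = (p.cells Af (kf e))[nf e]'(hnf e heE) := by
        conv_lhs => rw [hkf3 e heE]
      have he2 : e.2.1 = p.sub (kf e) := by
        conv_lhs => rw [hkf3 e heE]
      have hkk : kf e = k' := by
        apply p.idx_inj hk hk' (by rw [hc, hkc'])
        · rw [← hcells.1, ← he1, hτ']
        · rw [← he2, hs']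
      have hkP : c * p.P + kf e % p.P = kf e := by
        rw [← hc]
        unfold cop
        exact Nat.div_add_mod' _ _
      rw [Finset.mem_coe, Finset.mem_sigma]
      refine ⟨Finset.mem_range.2 (Nat.mod_lt _ hP), ?_⟩
      simp only
      rw [hkP, Finset.mem_filter]
      refine ⟨by rw [hkk]; exact hmem, e.1, ?_, ?_, hbad, hph, rfl⟩
      · rw [he1, hcells.1]
      · intro f hf
        rw [he1] at hf
        exact (hcells.2.2.2 f hf).1
    · intro e he e' he' hee
      rw [Finset.mem_coe, Finset.mem_filter] at he he'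
      have heE := he.1
      have heE' := he'.1
      have hk := hkf1 e heE
      have hk' := hkf1 e' heE'
      have hc := hkf2 e heE
      have hc' := hkf2 e' heE'
      have hs := Sigma.mk.inj_iff.1 hee
      have hmod : kf e % p.P = kf e' % p.P := hs.1
      have hval : val p.K p.R e.1 = val p.K p.R e'.1 := by
        have h5 := eq_of_heq hs.2
        exact (Prod.mk.inj h5).1
      have hkk : kf e = kf e' := by
        have h5 := Nat.div_add_mod' (kf e) p.P
        have h6 := Nat.div_add_mod' (kf e') p.P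
        unfold cop at hc hc'
        rw [hc] at h5
        rw [hc'] at h6
        rw [← h5, ← h6, hmod]
      have hcells := p.lfl_cells hA hk (List.getElem_mem (hnf e heE))
      have hcells' := p.lfl_cells hA hk' (List.getElem_mem (hnf e' heE'))
      have he1 : e.1 = (p.cells Af (kf e))[nf e]'(hnf e heE) := by
        conv_lhs => rw [hkf3 e heE]
      have he1' : e'.1 = (p.cells Af (kf e'))[nf e']'(hnf e' heE') := by
        conv_lhs => rw [hkf3 e' heE']
      have hx : e.1 = e'.1 := by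
        apply code_inj (K := p.K) (R := p.R)
        · rw [he1]; exact hcells.2.2.2
        · rw [he1']; exact hcells'.2.2.2
        · rw [(hE1 e heE).1, (hE1 e' heE').1]
        · unfold val at hval
          omega
      have hnn : nf e = nf e' := by
        have h5 : (p.cells Af (kf e))[nf e]'(hnf e heE) =
            (p.cells Af (kf e))[nf e']'(by rw [hkk]; exact hnf e' heE') := by
          rw [← he1, hx, he1']
          simp only [hkk]
        exact (List.Nodup.getElem_inj_iff (p.lfl_nodup hA hk)).1 h5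
      rw [hkf3 e heE, hkf3 e' heE']
      simp only [hkk, hnn]
  unfold cb
  apply le_min htr
  refine hbd.trans ?_
  have h3 : ((E.filter fun e => X e.1 e.2.1 ∧ bad p.K p.R (Af c) e.1 < b ∧
      ph p.K p.R e.1 < ub).card : ℝ) ≤ p.noise step b ub D q0 Af u c := by exact_mod_cast hnoise
  refine add_le_add le_rfl (le_trans (le_of_eq ?_) h3)
  congr

theorem lis_fl [NeZero p.Q] {σ : Type} (step : ℕ → σ → ℕ → σ) {z : ℝ} (h1 : Par p.K p.R 1 z)
    (h2 : Par p.K p.R 2 1) {Af : ℕ → List ℕ → ℕ} (hA : ∀ c l, Af c l < p.R)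
    (u : ℕ → ℕ → Fin p.N → ZMod p.Q) (b ub D m : ℕ) (hT : p.Typ step D m Af u)
    (hNW : p.NW m u) (q0 : σ) (r : ℕ) :
    (LIS (p.strm Af (p.fl step q0 Af u) (m * p.P) ++ List.replicate r 1) : ℝ)
      ≤ 1 + ∑ c ∈ Finset.range m, p.cb step z b ub D q0 Af u c := by
  apply lfl_lis
  intro t ht hp
  obtain ⟨E, hE1, hE2, hE3⟩ := p.exists_ents hA (p.fl step q0 Af u) m t ht hp
  rw [hE1]
  push_cast
  refine Finset.sum_le_sum fun c hc => ?_
  have hcm := Finset.mem_range.1 hc
  exact p.lfl_copy step h1 h2 hA u b ub D m hT hNW q0 c (E c) (hE2 c hcm) (hE3 c hcm)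

end Prm

end H40.OS
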