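import Pool.Agent.H40.OS.NumA

/-!
# The size of the parameters, analytic part
-/

set_option autoImplicit false

open Filter Asymptotics

namespace H40.OS

open H40.LS

theorem asy {a b : ℝ} (hab : a < b) (hb : 0 < b) (C : ℝ) {c : ℝ} (hc : 0 < c) :
    ∀ᶠ x : ℝ in atTop, C * (x ^ a * Real.log x + Real.log x + 1) ≤ c * x ^ b := by
  have h1 : (fun x : ℝ => x ^ a * Real.log x) =o[atTop] fun x => x ^ b := by
    have h2 := (isBigO_refl (fun x : ℝ => x ^ a) atTop).mul_isLittleO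
      (isLittleO_log_rpow_atTop (show 0 < b - a by linarith))
    refine h2.congr' (Eventually.of_forall fun x => rfl) ?_
    filter_upwards [eventually_gt_atTop 0] with x hx
    rw [← Real.rpow_add hx]
    congr 1
    ring
  have h2 : (fun x : ℝ => Real.log x) =o[atTop] fun x => x ^ b := isLittleO_log_rpow_atTop hb
  have h3 : (fun _ : ℝ => (1 : ℝ)) =o[atTop] fun x => x ^ b := by
    rw [isLittleO_const_left]
    right
    exact tendsto_norm_atTop_atTop.comp (tendsto_rpow_atTop hb)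
  have h4 := (((h1.add h2).add h3).const_mul_left C).bound hc
  filter_upwards [h4, eventually_ge_atTop 0] with x hx hx0
  rw [Real.norm_of_nonneg (Real.rpow_nonneg hx0 b)] at hx
  exact (le_abs_self _).trans hx

/-- The growth rate of the length. -/
def G2 (q : ℕ) : ℕ := 2 ^ q * Gr q

theorem log_G2 {q : ℕ} (hq : 1 ≤ q) :
    Real.log (G2 q) ≤ (2 * q + 1) * Real.log (Rq q) := by
  have h1 : (G2 q : ℝ) = ((2 * (9 * q + 4)) * (Rq q : ℝ) ^ 2) ^ q := by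
    unfold G2 Gr
    push_cast
    rw [← mul_pow]
    congr 1
    ring
  have hR : (0 : ℝ) < Rq q := by exact_mod_cast Rq_pos q
  have h2 : (2 * (9 * (q : ℝ) + 4)) ^ q ≤ Rq q := by
    have : (2 * (9 * q + 4)) ^ q ≤ Rq q := by
      unfold Rq
      rw [mul_pow]
      apply Nat.mul_le_mul_right
      calc 2 ^ q ≤ 4 ^ q := Nat.pow_le_pow_left (by norm_num) q
        _ ≤ 4 ^ (q + 1) := Nat.pow_le_pow_right (by norm_num) (Nat.le_succ q)
    exact_mod_cast this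
  rw [h1, mul_pow, Real.log_mul (by positivity) (by positivity), ← pow_mul,
    Real.log_pow (Rq q : ℝ) (2 * q)]
  have h3 : Real.log ((2 * (9 * (q : ℝ) + 4)) ^ q) ≤ Real.log (Rq q) :=
    Real.log_le_log (by positivity) h2
  push_cast
  linarith

theorem G2_gt {q : ℕ} (hq : 1 ≤ q) : 1 < G2 q := by
  unfold G2
  have h1 : 2 ^ 1 ≤ 2 ^ q := Nat.pow_le_pow_right (by norm_num) hq
  have h2 := two_pow_le q
  nlinarith

/-- Powers with the exponent `g + 1` in terms of `n < G ^ (g + 1)`. -/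
theorem pow_log {G n y : ℝ} {g : ℕ} (hG : 1 < G) (hn : 1 ≤ n) (hng : n ≤ G ^ (g + 1)) (hy : 0 < y) :
    (1 ≤ y → n ^ (Real.log y / Real.log G) ≤ y ^ (g + 1)) ∧
    (y ≤ 1 → y ^ (g + 1) ≤ n ^ (Real.log y / Real.log G)) := by
  have hlG : 0 < Real.log G := Real.log_pos hG
  have hln : Real.log n ≤ (g + 1 : ℕ) * Real.log G := by
    rw [← Real.log_pow]
    exact Real.log_le_log (by linarith) hng
  have h1 : Real.log n / Real.log G ≤ (g + 1 : ℕ) := by
    rwa [div_le_iff₀ hlG]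
  have h2 : n ^ (Real.log y / Real.log G) = Real.exp (Real.log n / Real.log G * Real.log y) := by
    rw [Real.rpow_def_of_pos (by linarith)]
    congr 1
    ring
  have h3 : y ^ (g + 1) = Real.exp ((g + 1 : ℕ) * Real.log y) := by
    rw [Real.exp_nat_mul, Real.exp_log hy]
  rw [h2, h3]
  constructor
  · intro hy1
    exact Real.exp_le_exp.2 (mul_le_mul_of_nonneg_right h1 (Real.log_nonneg hy1))
  · intro hy1
    exact Real.exp_le_exp.2 (mul_le_mul_of_nonpos_right h1 (Real.log_nonpos hy.le hy1))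

theorem numB (δ : ℝ) (hδ : 0 < δ) : ∃ q : ℕ, 7 ≤ q ∧ ∃ γ : ℝ, 0 < γ ∧ γ ≤ 1 / 2 ∧ ∃ n₀ : ℕ,
    ∀ n : ℕ, n₀ ≤ n → ∃ g : ℕ, 1 ≤ n ∧ G2 q ^ g ≤ n ∧
      (n : ℝ) ^ γ * (5 * xq q ^ g) ≤ (n : ℝ) ^ (-γ) / 4 ∧
      2 / (n : ℝ) ≤ (n : ℝ) ^ (-γ) / 4 ∧
      (∀ s : ℕ, (s : ℝ) ≤ (n : ℝ) ^ (1 / 2 - δ) →
        (n : ℝ) * 4 ^ s * Real.exp (-((Rq q : ℝ) ^ ((q - 6) * g) / 2)) ≤ (n : ℝ) ^ (-γ) / 4) ∧
      (∀ W : ℕ, (W : ℝ) * (Rq q : ℝ) ^ (3 * g) ≤ n →
        ((n : ℝ) ^ 3) ^ W * Real.exp (-(n : ℝ) ^ (1 - γ)) ≤ (n : ℝ) ^ (-γ) / 4) := by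
  -- reduce to `δ ≤ 1 / 2`
  wlog hδ2 : δ ≤ 1 / 2 generalizing δ
  · obtain ⟨q, hq, γ, hγ, hγ2, n₀, h⟩ := this (1 / 2) (by norm_num) le_rfl
    refine ⟨q, hq, γ, hγ, hγ2, n₀, fun n hn => ?_⟩
    obtain ⟨g, h1, h2, h3, h4, h5, h6⟩ := h n hn
    refine ⟨g, h1, h2, h3, h4, fun s hs => h5 s (hs.trans ?_), h6⟩
    apply Real.rpow_le_rpow_of_exponent_le (by exact_mod_cast h1)
    linarith
  obtain ⟨q1, hq1⟩ := exists_nat_ge (7 / δ)
  set q := max 7 q1 with hqdef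
  have hq : 7 ≤ q := le_max_left _ _
  have hqδ : 7 ≤ δ * q := by
    have h1 : 7 / δ ≤ q := hq1.trans (by exact_mod_cast le_max_right _ _)
    rw [div_le_iff₀ hδ] at h1
    linarith
  have hG1 : (1 : ℝ) < G2 q := by exact_mod_cast G2_gt (show 1 ≤ q by omega)
  have hlG : 0 < Real.log (G2 q) := Real.log_pos hG1
  have hR4 : 4 ≤ Rq q := by
    unfold Rq
    calc 4 = 4 * 1 := rfl
      _ ≤ 4 ^ (q + 1) * (9 * q + 4) ^ q := by
        apply Nat.mul_le_mul _ (Nat.one_le_pow _ _ (by positivity))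
        calc 4 = 4 ^ 1 := rfl
          _ ≤ _ := Nat.pow_le_pow_right (by norm_num) (by omega)
  have hR : (4 : ℝ) ≤ Rq q := by exact_mod_cast hR4
  have hlR : 0 < Real.log (Rq q) := Real.log_pos (by linarith)
  set ρ := Real.log (Rq q) / Real.log (G2 q) with hρ
  have hρ0 : 0 < ρ := div_pos hlR hlG
  have hρ6 : 1 / 2 - δ / 2 ≤ (q - 6 : ℝ) * ρ := by
    rw [hρ, mul_div_assoc', le_div_iff₀ hlG]
    have h1 := log_G2 (show 1 ≤ q by omega)
    have h2 : (1 / 2 - δ / 2) * Real.log (G2 q)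
        ≤ (1 / 2 - δ / 2) * ((2 * q + 1) * Real.log (Rq q)) :=
      mul_le_mul_of_nonneg_left h1 (by linarith)
    refine h2.trans ?_
    rw [← mul_assoc]
    apply mul_le_mul_of_nonneg_right _ hlR.le
    nlinarith
  have hx1 : xq q < 1 := xq_lt
  have hx0 : 0 < xq q := lt_of_lt_of_le (by norm_num) (xq_ge q)
  have hlx : Real.log (xq q) < 0 := Real.log_neg hx0 hx1
  set c1 := -(Real.log (xq q) / Real.log (G2 q)) with hc1
  have hc10 : 0 < c1 := by
    rw [hc1, neg_pos]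
    exact div_neg_of_neg_of_pos hlx hlG
  set γ := min (1 / 2) (min (c1 / 4) ρ) with hγ
  have hγ0 : 0 < γ := by
    rw [hγ]
    positivity
  have hγ1 : γ ≤ 1 / 2 := min_le_left _ _
  have hγ2 : γ ≤ c1 / 4 := (min_le_right _ _).trans (min_le_left _ _)
  have hγ3 : γ ≤ ρ := (min_le_right _ _).trans (min_le_right _ _)
  -- the asymptotic statements
  have e1 : ∀ᶠ x : ℝ in atTop, 20 / xq q * x ^ (2 * γ - c1) ≤ 1 := by
    have h1 : Tendsto (fun x : ℝ => 20 / xq q * x ^ (2 * γ - c1)) atTop (nhds (20 / xq q * 0)) := by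
      apply Tendsto.const_mul
      have h2 := tendsto_rpow_neg_atTop (show 0 < c1 - 2 * γ by linarith)
      refine h2.congr (fun x => ?_)
      congr 1
      ring
    rw [mul_zero] at h1
    exact (h1.eventually_lt_const (by norm_num)).mono fun x hx => hx.le
  have e2 : ∀ᶠ x : ℝ in atTop, 8 ≤ x ^ (1 - γ) :=
    (tendsto_rpow_atTop (show 0 < 1 - γ by linarith)).eventually_ge_atTop 8
  have hRp : (0 : ℝ) < (Rq q : ℝ) ^ (q - 6) := by positivity
  have e3 := asy (show 1 / 2 - δ < 1 / 2 - δ / 2 by linarith) (by linarith) 3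
    (show 0 < 1 / (2 * (Rq q : ℝ) ^ (q - 6)) by positivity)
  have e4 := asy (show 1 - 3 * ρ < 1 - γ by linarith) (by linarith) (3 * (Rq q : ℝ) ^ 3)
    (show (0 : ℝ) < 1 by norm_num)
  obtain ⟨x0, hx0'⟩ := eventually_atTop.1 (e1.and (e2.and (e3.and e4)))
  refine ⟨q, hq, γ, hγ0, hγ1, max ⌈x0⌉₊ 3, fun n hn => ?_⟩
  have hn3 : 3 ≤ n := (le_max_right _ _).trans hn
  have hnx : x0 ≤ n := (Nat.le_ceil x0).trans (by exact_mod_cast (le_max_left _ _).trans hn)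
  obtain ⟨f1, f2, f3, f4⟩ := hx0' n hnx
  have hn3' : (3 : ℝ) ≤ n := by exact_mod_cast hn3
  have hn1 : (1 : ℝ) ≤ n := by linarith
  have hn0 : (0 : ℝ) < n := by linarith
  have hlog1 : 1 ≤ Real.log n := by
    rw [Real.le_log_iff_exp_le hn0]
    have := Real.exp_one_lt_d9
    linarith
  have hlog4 : Real.log 4 ≤ 2 := by
    have h1 : Real.log 4 = 2 * Real.log 2 := by
      rw [show (4 : ℝ) = 2 ^ 2 by norm_num, Real.log_pow]
      norm_num
    have := Real.log_two_lt_d9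
    linarith
  have hlog40 : 0 ≤ Real.log 4 := Real.log_nonneg (by norm_num)
  set g := Nat.log (G2 q) n with hg
  have hng1 : G2 q ^ g ≤ n := Nat.pow_log_le_self _ (by omega)
  have hng2 : n < G2 q ^ (g + 1) := Nat.lt_pow_succ_log_self (G2_gt (by omega)) n
  have hng3 : (n : ℝ) ≤ (G2 q : ℝ) ^ (g + 1) := by exact_mod_cast hng2.le
  have hYpos : (0 : ℝ) < (n : ℝ) ^ (-γ) := Real.rpow_pos_of_pos hn0 _
  have hYexp : (n : ℝ) ^ (-γ) / 4 = Real.exp (-(γ * Real.log n) - Real.log 4) := by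
    rw [Real.exp_sub, Real.exp_log (by norm_num), Real.rpow_def_of_pos hn0]
    congr 2
    ring
  have hγlog : γ * Real.log n ≤ Real.log n := by nlinarith
  have hγlog0 : 0 ≤ γ * Real.log n := by positivity
  refine ⟨g, by omega, hng1, ?_, ?_, ?_, ?_⟩
  · have h1 := (pow_log hG1 hn1 hng3 hx0).2 hx1.le
    have h2 : Real.log (xq q) / Real.log (G2 q) = -c1 := by rw [hc1, neg_neg]
    rw [h2] at h1
    have h3 : xq q ^ g ≤ (n : ℝ) ^ (-c1) / xq q := by
      rw [le_div_iff₀ hx0, ← pow_succ]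
      exact h1
    calc (n : ℝ) ^ γ * (5 * xq q ^ g) ≤ (n : ℝ) ^ γ * (5 * ((n : ℝ) ^ (-c1) / xq q)) := by
          apply mul_le_mul_of_nonneg_left _ (Real.rpow_nonneg hn0.le _)
          linarith
      _ = (20 / xq q * (n : ℝ) ^ (2 * γ - c1)) * ((n : ℝ) ^ (-γ) / 4) := by
          have h4 : (n : ℝ) ^ (2 * γ - c1) * (n : ℝ) ^ (-γ) = (n : ℝ) ^ γ * (n : ℝ) ^ (-c1) := by
            rw [← Real.rpow_add hn0, ← Real.rpow_add hn0]
            congr 1
            ring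
          calc _ = 5 / xq q * ((n : ℝ) ^ γ * (n : ℝ) ^ (-c1)) := by ring
            _ = 5 / xq q * ((n : ℝ) ^ (2 * γ - c1) * (n : ℝ) ^ (-γ)) := by rw [h4]
            _ = _ := by ring
      _ ≤ 1 * ((n : ℝ) ^ (-γ) / 4) := mul_le_mul_of_nonneg_right f1 (by positivity)
      _ = _ := one_mul _
  · have h1 : (n : ℝ) ^ (-γ) = (n : ℝ) ^ (1 - γ) / n := by
      rw [show -γ = (1 - γ) - 1 by ring, Real.rpow_sub hn0 (1 - γ) 1, Real.rpow_one]
    rw [h1, div_div, div_le_div_iff₀ hn0 (by positivity)]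
    nlinarith
  · intro s hs
    have h1 := (pow_log hG1 hn1 hng3 (show (0 : ℝ) < Rq q by linarith)).1 (by linarith)
    have h2 : (n : ℝ) ^ (1 / 2 - δ / 2) ≤ (Rq q : ℝ) ^ ((q - 6) * (g + 1)) := by
      calc (n : ℝ) ^ (1 / 2 - δ / 2) ≤ (n : ℝ) ^ ((q - 6 : ℝ) * ρ) :=
            Real.rpow_le_rpow_of_exponent_le hn1 hρ6
        _ = ((n : ℝ) ^ ρ) ^ (q - 6) := by
            rw [mul_comm, Real.rpow_mul hn0.le, ← Real.rpow_natCast]
            congr 1
            rw [Nat.cast_sub (by omega)]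
            norm_num
        _ ≤ ((Rq q : ℝ) ^ (g + 1)) ^ (q - 6) :=
            pow_le_pow_left₀ (Real.rpow_nonneg hn0.le _) h1 _
        _ = _ := by
            rw [← pow_mul]
            congr 1
            ring
    have h3 : 1 / (2 * (Rq q : ℝ) ^ (q - 6)) * (n : ℝ) ^ (1 / 2 - δ / 2)
        ≤ (Rq q : ℝ) ^ ((q - 6) * g) / 2 := by
      have h4 : (Rq q : ℝ) ^ ((q - 6) * (g + 1)) = (Rq q : ℝ) ^ ((q - 6) * g) *
          (Rq q : ℝ) ^ (q - 6) := by
        rw [← pow_add]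
        congr 1
      rw [h4] at h2
      rw [div_mul_eq_mul_div, one_mul, div_le_div_iff₀ (by positivity) (by norm_num)]
      nlinarith
    have h4 : (4 : ℝ) ^ s = Real.exp (s * Real.log 4) := by
      rw [Real.exp_nat_mul, Real.exp_log (by norm_num)]
    have hp0 : 0 ≤ (n : ℝ) ^ (1 / 2 - δ) := Real.rpow_nonneg hn0.le _
    rw [hYexp, h4]
    nth_rewrite 1 [← Real.exp_log hn0]
    rw [← Real.exp_add, ← Real.exp_add]
    apply Real.exp_le_exp.2
    have h5 : (s : ℝ) * Real.log 4 ≤ 2 * (n : ℝ) ^ (1 / 2 - δ) := by nlinarith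
    have h6 : (n : ℝ) ^ (1 / 2 - δ) ≤ (n : ℝ) ^ (1 / 2 - δ) * Real.log n :=
      le_mul_of_one_le_right hp0 hlog1
    linarith
  · intro W hW
    have h1 := (pow_log hG1 hn1 hng3 (show (0 : ℝ) < Rq q by linarith)).1 (by linarith)
    have h2 : (n : ℝ) ^ (3 * ρ) ≤ (Rq q : ℝ) ^ (3 * g) * (Rq q : ℝ) ^ 3 := by
      calc (n : ℝ) ^ (3 * ρ) = ((n : ℝ) ^ ρ) ^ 3 := by
            rw [mul_comm, Real.rpow_mul hn0.le, ← Real.rpow_natCast]
            norm_num
        _ ≤ ((Rq q : ℝ) ^ (g + 1)) ^ 3 :=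
            pow_le_pow_left₀ (Real.rpow_nonneg hn0.le _) h1 _
        _ = _ := by
            rw [← pow_mul, ← pow_add]
            congr 1
            ring
    have h3 : (W : ℝ) ≤ (Rq q : ℝ) ^ 3 * (n : ℝ) ^ (1 - 3 * ρ) := by
      have h4 : (0 : ℝ) < (n : ℝ) ^ (3 * ρ) := Real.rpow_pos_of_pos hn0 _
      have h5 : (n : ℝ) ^ (1 - 3 * ρ) = n / (n : ℝ) ^ (3 * ρ) := by
        rw [Real.rpow_sub hn0, Real.rpow_one]
      rw [h5, mul_div_assoc', le_div_iff₀ h4]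
      calc (W : ℝ) * (n : ℝ) ^ (3 * ρ) ≤ W * ((Rq q : ℝ) ^ (3 * g) * (Rq q : ℝ) ^ 3) :=
            mul_le_mul_of_nonneg_left h2 (Nat.cast_nonneg _)
        _ = (W * (Rq q : ℝ) ^ (3 * g)) * (Rq q : ℝ) ^ 3 := by ring
        _ ≤ n * (Rq q : ℝ) ^ 3 := mul_le_mul_of_nonneg_right hW (by positivity)
        _ = _ := by ring
    have h4 : ((n : ℝ) ^ 3) ^ W = Real.exp (3 * W * Real.log n) := by
      rw [← pow_mul]
      have h5 : (3 : ℝ) * W * Real.log n = ((3 * W : ℕ) : ℝ) * Real.log n := by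
        push_cast
        ring
      rw [h5, Real.exp_nat_mul, Real.exp_log hn0]
    rw [hYexp, h4, ← Real.exp_add]
    apply Real.exp_le_exp.2
    have h5 : (W : ℝ) * Real.log n ≤ (Rq q : ℝ) ^ 3 * (n : ℝ) ^ (1 - 3 * ρ) * Real.log n :=
      mul_le_mul_of_nonneg_right h3 (by linarith)
    have h6 : (1 : ℝ) ≤ (Rq q : ℝ) ^ 3 := one_le_pow₀ (by linarith)
    have h7 : Real.log n + 1 ≤ (Rq q : ℝ) ^ 3 * (Real.log n + 1) :=
      le_mul_of_one_le_left (by linarith) h6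
    rw [one_mul] at f4
    nlinarith

end H40.OS
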