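import Pool.Agent.H40.OS.One
import Pool.Agent.H40.OS.NumB

/-!
# One pass: the main theorem
-/

set_option autoImplicit false

open MeasureTheory

namespace H40.OS

open H40.LS

/-- The parameters for one pass. -/
def prm (q g n : ℕ) : Prm := ⟨Kq q, Rq q, q * g, 2 ^ (q * g), n ^ 2⟩

theorem prm_PN (q g n : ℕ) : (prm q g n).P * (prm q g n).N = G2 q ^ g := by
  change ((Kq q + 4 * Rq q) ^ (q * g) * 2 ^ (q * g)) * Rq q ^ (q * g) = _
  unfold G2 Gr Kq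
  rw [← mul_pow, ← mul_pow, ← mul_pow, pow_mul]
  congr 2
  ring

theorem prm_wid (q g n : ℕ) : wid (prm q g n).K (prm q g n).R (prm q g n).h = G2 q ^ g := by
  change (2 * Rq q * (Kq q + 4 * Rq q)) ^ (q * g) = _
  unfold G2 Gr Kq
  rw [← mul_pow, pow_mul]
  congr 2
  ring

theorem main1 (δ : ℝ) (hδ : 0 < δ) : ∃ γ : ℝ, 0 < γ ∧ ∃ n₀ : ℕ, ∀ n : ℕ, n₀ ≤ n → ∀ s : ℕ,
    (s : ℝ) ≤ (n : ℝ) ^ (1 / 2 - δ) → ∀ (Ω : Type) [MeasurableSpace Ω] (μ : Measure Ω)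
    [IsProbabilityMeasure μ] (𝒜 : Ω → Alg 1 s), (∀ l, Measurable fun ω => (𝒜 ω).out l) →
    (∀ l : List ℕ, l.length = n → (∀ x ∈ l, 1 ≤ x ∧ x ≤ n ^ 4) →
      μ.real {ω | (LIS l : ℝ) < (𝒜 ω).out l} ≤ Real.exp (-(n : ℝ) ^ (1 - γ))) →
    ∃ l : List ℕ, l.length = n ∧ (∀ x ∈ l, 1 ≤ x ∧ x ≤ n ^ 4) ∧
      μ.real {ω | (LIS l : ℝ) ≤ (n : ℝ) ^ γ * (𝒜 ω).out l} ≤ (n : ℝ) ^ (-γ) := by
  obtain ⟨q, hq, γ, hγ, hγ2, n₀, hnum⟩ := numB δ hδ
  refine ⟨γ, hγ, max n₀ 2, ?_⟩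
  intro n hn s hs Ω _ μ _ 𝒜 hmeas hone
  obtain ⟨g, hn1, hGn, c1, c2, c3, c4⟩ := hnum n ((le_max_left _ _).trans hn)
  have hn2 : 2 ≤ n := (le_max_right _ _).trans hn
  have hn0 : (0 : ℝ) < n := by
    have : 0 < n := by omega
    exact_mod_cast this
  have hn1' : (1 : ℝ) ≤ n := by exact_mod_cast hn1
  set p : Prm := prm q g n with hp
  haveI : NeZero p.Q := ⟨by
    change n ^ 2 ≠ 0
    positivity⟩
  have hR : 1 ≤ p.R := Rq_pos q
  have h1 : Par p.K p.R 1 (zq q) := parz (by omega)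
  have h2 : Par p.K p.R 2 1 := par1 (by omega)
  have hL : 1 ≤ p.L := Nat.one_le_pow _ _ (by norm_num)
  have hPN : p.P * p.N = G2 q ^ g := prm_PN q g n
  have hPN' : p.P * p.N ≤ n := hPN.le.trans hGn
  have hN1 : 1 ≤ p.N := Nat.one_le_pow _ _ hR
  have hP1 : 1 ≤ p.P := by
    change 1 ≤ (Kq q + 4 * Rq q) ^ (q * g) * 2 ^ (q * g)
    have : 1 ≤ Rq q := Rq_pos q
    exact Nat.mul_pos (pow_pos (by omega) _) (by positivity)
  have hPn : p.P ≤ n := (Nat.le_mul_of_pos_right _ hN1).trans hPN'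
  have hNn : p.N ≤ n := (Nat.le_mul_of_pos_left _ hP1).trans hPN'
  let a0 : p.Sm := (fun _ => ⟨0, hR⟩, fun _ _ => 0)
  set D : ℕ := Rq q ^ ((q - 3) * g) with hD
  let r : (Fin 1 → p.Sm) → ℕ := fun A => n - p.posn (p.hid (toF a0 A)) (1 * p.P)
  set Y : ℝ := (n : ℝ) ^ γ with hY
  have hY0 : 0 ≤ Y := Real.rpow_nonneg hn0.le _
  have hhid : ∀ (A : Fin 1 → p.Sm) c l, p.hid (toF a0 A) c l < p.R :=
    fun A c l => ext_lt hR _ l
  -- length and values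
  have hlen : ∀ (A : Fin 1 → p.Sm) (f : ℕ → Fin p.N → ZMod p.Q),
      (p.strm (p.hid (toF a0 A)) f (1 * p.P) ++ List.replicate (r A) 1).length = n := by
    intro A f
    rw [List.length_append, List.length_replicate, p.length_strm]
    change _ + (n - _) = n
    have h3 := p.length_strm_le hR (p.hid (toF a0 A)) f 1
    rw [p.length_strm] at h3
    omega
  have hval : ∀ (A : Fin 1 → p.Sm) (f : ℕ → Fin p.N → ZMod p.Q),
      ∀ x ∈ p.strm (p.hid (toF a0 A)) f (1 * p.P) ++ List.replicate (r A) 1,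
        1 ≤ x ∧ x ≤ n ^ 4 := by
    intro A f x hx
    rcases List.mem_append.1 hx with h3 | h3
    · obtain ⟨h4, h5⟩ := p.strm_val (hhid A) f 1 x h3
      refine ⟨h4, h5.trans ?_⟩
      have h6 : wid p.K p.R p.h ≤ n := (prm_wid q g n).le.trans hGn
      change (1 * wid p.K p.R p.h + 1) * n ^ 2 ≤ n ^ 4
      calc (1 * wid p.K p.R p.h + 1) * n ^ 2 ≤ (n * n) * n ^ 2 := by
            apply Nat.mul_le_mul_right
            nlinarith
        _ = n ^ 4 := by ring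
    · rw [List.eq_of_mem_replicate h3]
      exact ⟨le_refl _, Nat.one_le_pow _ _ (by omega)⟩
  -- measurability
  have hOm : ∀ (A : Fin 1 → p.Sm) (f : Fin (1 * p.P) → Fin p.N → ZMod p.Q),
      MeasurableSet {ω | (LIS (p.fst a0 A (r A) f) : ℝ) < (𝒜 ω).out (p.fst a0 A (r A) f)} := by
    intro A f
    exact measurableSet_lt measurable_const (hmeas _)
  have hOv : ∀ A : Fin 1 → p.Sm, {ω | p.Over a0 D r (𝒜 ω).out A} = ⋃ f ∈ p.Fam a0 D A,
      {ω | (LIS (p.fst a0 A (r A) f) : ℝ) < (𝒜 ω).out (p.fst a0 A (r A) f)} := by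
    intro A
    ext ω
    simp only [Set.mem_setOf_eq, Set.mem_iUnion, exists_prop]
    rfl
  have hOvm : ∀ A : Fin 1 → p.Sm, MeasurableSet {ω | p.Over a0 D r (𝒜 ω).out A} := by
    intro A
    rw [hOv A]
    exact Finset.measurableSet_biUnion _ fun f _ => hOm A f
  have hSm : ∀ A : Fin 1 → p.Sm,
      MeasurableSet {ω | (LIS (p.tst a0 A (r A)) : ℝ) ≤ Y * (𝒜 ω).out (p.tst a0 A (r A))} := by
    intro A
    exact measurableSet_le measurable_const ((hmeas _).const_mul _)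
  -- the probability of an overestimate
  have hOvp : ∀ A : Fin 1 → p.Sm, μ.real {ω | p.Over a0 D r (𝒜 ω).out A}
      ≤ (n : ℝ) ^ (-γ) / 4 := by
    intro A
    rw [hOv A]
    refine (measureReal_biUnion_finset_le _ _).trans ?_
    have h3 : ∀ f ∈ p.Fam a0 D A,
        μ.real {ω | (LIS (p.fst a0 A (r A) f) : ℝ) < (𝒜 ω).out (p.fst a0 A (r A) f)}
        ≤ Real.exp (-(n : ℝ) ^ (1 - γ)) := by
      intro f _
      exact hone _ (hlen A _) (hval A _)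
    refine (Finset.sum_le_sum h3).trans ?_
    rw [Finset.sum_const, nsmul_eq_mul]
    have h4 := p.card_Fam hR a0 D A
    have h5 : ((p.Fam a0 D A).card : ℝ) ≤ ((n : ℝ) ^ 3) ^ (D * (1 * p.P)) := by
      rw [← pow_mul] at h4
      have h6 : (p.N * p.Q) ^ (D * (1 * p.P)) ≤ (n ^ 3) ^ (D * (1 * p.P)) := by
        apply Nat.pow_le_pow_left
        calc p.N * p.Q ≤ n * n ^ 2 := Nat.mul_le_mul hNn le_rfl
          _ = n ^ 3 := by ring
      exact_mod_cast h4.trans h6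
    refine (mul_le_mul_of_nonneg_right h5 (Real.exp_pos _).le).trans ?_
    apply c4
    have h7 : D * (1 * p.P) * Rq q ^ (3 * g) = G2 q ^ g := by
      rw [← hPN, hD, one_mul]
      have h8 : Rq q ^ ((q - 3) * g) * Rq q ^ (3 * g) = p.N := by
        rw [← pow_add, ← add_mul]
        change _ = Rq q ^ (q * g)
        congr 2
        omega
      rw [← h8]
      ring
    exact_mod_cast h7.le.trans hGn
  -- averaging
  set M0 : ℝ := p.L * ((p.K : ℝ) + 3 * p.R) ^ p.h with hM0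
  set B : ℝ := p.P * 4 ^ s * Real.exp (-(D : ℝ) ^ 2 / (2 * p.N))
        + p.nT * p.N * (2 * p.L / p.Q)
        + Y / M0 * (1 +
          (p.L * (((p.K : ℝ) + 3 * p.R) ^ p.h / zq q ^ g + ((p.K : ℝ) + 6 * p.R) ^ p.h / 2 ^ g)
            + ((p.K : ℝ) + 6 * p.R) ^ p.h)
          + p.P * (D * (2 ^ p.h * (p.R : ℝ) ^ (g + g))) / (p.R : ℝ) ^ p.h) with hB
  have hne : Nonempty (Fin 1 → p.Sm) := ⟨fun _ => a0⟩
  obtain ⟨A, hA⟩ := avg μ (fun A : Fin 1 → p.Sm => {ω |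
    (LIS (p.tst a0 A (r A)) : ℝ) ≤ Y * (𝒜 ω).out (p.tst a0 A (r A)) ∧
      ¬ p.Over a0 D r (𝒜 ω).out A}) (fun A => (hSm A).inter (hOvm A).compl) B (by
    intro ω
    have h3 := p.det_one (𝒜 ω) h1 h2 hL g g D a0 r hY0
    rw [Fintype.card_fun, Fintype.card_fin, pow_one]
    exact h3)
  refine ⟨p.tst a0 A (r A), hlen A _, hval A _, ?_⟩
  have h3 : μ.real {ω | (LIS (p.tst a0 A (r A)) : ℝ) ≤ Y * (𝒜 ω).out (p.tst a0 A (r A))}
      ≤ B + (n : ℝ) ^ (-γ) / 4 := by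
    refine le_trans ?_ (add_le_add hA (hOvp A))
    refine le_trans (measureReal_mono ?_) (measureReal_union_le _ _)
    intro ω hω
    by_cases h4 : p.Over a0 D r (𝒜 ω).out A
    · exact Or.inr h4
    · exact Or.inl ⟨hω, h4⟩
  refine h3.trans ?_
  -- numbers
  obtain ⟨d1, d2, d3⟩ := numA (q := q) (g := g) (by omega)
  have hRr : (0 : ℝ) < Rq q := by exact_mod_cast Rq_pos q
  have hx := xq_ge q
  have hM0' : M0 = 2 ^ (q * g) * ((Kq q : ℝ) + 3 * Rq q) ^ (q * g) := by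
    rw [hM0]
    change ((2 ^ (q * g) : ℕ) : ℝ) * _ = _
    push_cast
    rfl
  have hM0pos : 0 < M0 := by
    rw [hM0']
    positivity
  have b1 : p.P * 4 ^ s * Real.exp (-(D : ℝ) ^ 2 / (2 * p.N)) ≤ (n : ℝ) ^ (-γ) / 4 := by
    refine le_trans ?_ (c3 s hs)
    have h4 : -(D : ℝ) ^ 2 / (2 * p.N) = -((Rq q : ℝ) ^ ((q - 6) * g) / 2) := by
      change -(((Rq q ^ ((q - 3) * g) : ℕ) : ℝ)) ^ 2 / (2 * ((Rq q ^ (q * g) : ℕ) : ℝ)) = _
      push_cast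
      have h5 : ((Rq q : ℝ) ^ ((q - 3) * g)) ^ 2
          = (Rq q : ℝ) ^ ((q - 6) * g) * (Rq q : ℝ) ^ (q * g) := by
        rw [← pow_mul, ← pow_add, ← add_mul, mul_assoc, mul_comm g 2, ← mul_assoc]
        congr 2
        omega
      rw [h5]
      field_simp
    rw [h4]
    apply mul_le_mul_of_nonneg_right _ (Real.exp_pos _).le
    apply mul_le_mul_of_nonneg_right _ (by positivity)
    exact_mod_cast hPn
  have b2 : p.nT * p.N * (2 * p.L / p.Q) ≤ (n : ℝ) ^ (-γ) / 4 := by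
    refine le_trans ?_ c2
    have h4 : (p.nT : ℝ) * p.N * (2 * p.L / p.Q) = 2 * ((p.P * p.N : ℕ) : ℝ) / p.Q := by
      change (p.nT : ℝ) * p.N * (2 * p.L / p.Q) = 2 * ((p.nT * p.L * p.N : ℕ) : ℝ) / p.Q
      push_cast
      ring
    have h5 : ((p.Q : ℕ) : ℝ) = (n : ℝ) ^ 2 := by
      change ((n ^ 2 : ℕ) : ℝ) = _
      push_cast
      rfl
    rw [h4, h5, div_le_div_iff₀ (by positivity) hn0]
    have h6 : ((p.P * p.N : ℕ) : ℝ) ≤ n := by exact_mod_cast hPN'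
    nlinarith
  have b3 : Y / M0 * (1 +
          (p.L * (((p.K : ℝ) + 3 * p.R) ^ p.h / zq q ^ g + ((p.K : ℝ) + 6 * p.R) ^ p.h / 2 ^ g)
            + ((p.K : ℝ) + 6 * p.R) ^ p.h)
          + p.P * (D * (2 ^ p.h * (p.R : ℝ) ^ (g + g))) / (p.R : ℝ) ^ p.h)
      ≤ (n : ℝ) ^ (-γ) / 4 := by
    refine le_trans ?_ c1
    have h4 : (1 + (p.L * (((p.K : ℝ) + 3 * p.R) ^ p.h / zq q ^ g
          + ((p.K : ℝ) + 6 * p.R) ^ p.h / 2 ^ g) + ((p.K : ℝ) + 6 * p.R) ^ p.h)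
          + p.P * (D * (2 ^ p.h * (p.R : ℝ) ^ (g + g))) / (p.R : ℝ) ^ p.h)
          ≤ 5 * xq q ^ g * M0 := by
      rw [hM0']
      have e1 : (p.L : ℝ) = 2 ^ (q * g) := by
        change ((2 ^ (q * g) : ℕ) : ℝ) = _
        push_cast
        rfl
      have e2 : (p.P : ℝ) = ((Kq q : ℝ) + 4 * Rq q) ^ (q * g) * 2 ^ (q * g) := by
        change (((Kq q + 4 * Rq q) ^ (q * g) * 2 ^ (q * g) : ℕ) : ℝ) = _
        push_cast
        rfl
      have e3 : (D : ℝ) = (Rq q : ℝ) ^ ((q - 3) * g) := by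
        rw [hD]
        push_cast
        rfl
      rw [e1, e2, e3]
      change (1 + (2 ^ (q * g) * (((Kq q : ℝ) + 3 * Rq q) ^ (q * g) / zq q ^ g
        + ((Kq q : ℝ) + 6 * Rq q) ^ (q * g) / 2 ^ g) + ((Kq q : ℝ) + 6 * Rq q) ^ (q * g))
        + ((Kq q : ℝ) + 4 * Rq q) ^ (q * g) * 2 ^ (q * g) *
        ((Rq q : ℝ) ^ ((q - 3) * g) * (2 ^ (q * g) * (Rq q : ℝ) ^ (g + g)))
        / (Rq q : ℝ) ^ (q * g)) ≤ _
      have e4 : (1 / 4 : ℝ) ^ g * (2 ^ (q * g) * ((Kq q : ℝ) + 3 * Rq q) ^ (q * g))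
          ≤ xq q ^ g * (2 ^ (q * g) * ((Kq q : ℝ) + 3 * Rq q) ^ (q * g)) := by
        apply mul_le_mul_of_nonneg_right _ (by positivity)
        exact pow_le_pow_left₀ (by norm_num) (by linarith) g
      linarith
    rw [div_mul_eq_mul_div, div_le_iff₀ hM0pos]
    calc Y * _ ≤ Y * (5 * xq q ^ g * M0) := mul_le_mul_of_nonneg_left h4 hY0
      _ = _ := by ring
  rw [hB]
  linarith

end H40.OS
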