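import Pool.Agent.H40.OS.NumB

/-!
# The size of the parameters for several passes
-/

set_option autoImplicit false

open Filter Asymptotics

namespace H40.OS

open H40.LS

theorem numC (δ : ℝ) (hδ : 0 < δ) : ∃ q : ℕ, 7 ≤ q ∧ ∃ γ : ℝ, 0 < γ ∧ γ ≤ 1 / 2 ∧ ∃ n₀ : ℕ,
    ∀ n : ℕ, n₀ ≤ n → ∃ g : ℕ, 3 ≤ n ∧ G2 q ^ (3 * g) ≤ n ∧
      (∀ S m : ℕ, (S : ℝ) ≤ (n : ℝ) ^ (1 / 3 - δ) → G2 q ^ g ≤ m →
        (n : ℝ) ^ γ * (6 * xq q ^ (2 * g) * m + (S + (Nat.log 2 n + 6))) < m) ∧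
      2 / (n : ℝ) ≤ (n : ℝ) ^ (-γ) / 4 ∧
      (∀ S : ℕ, (S : ℝ) ≤ (n : ℝ) ^ (1 / 3 - δ) →
        (n : ℝ) * 4 ^ S * Real.exp (-((Rq q : ℝ) ^ ((q - 6) * (2 * g)) / 2))
          ≤ (n : ℝ) ^ (-γ) / 4) ∧
      (∀ W : ℕ, (W : ℝ) * (Rq q : ℝ) ^ (3 * (2 * g)) ≤ n →
        ((n : ℝ) ^ 3) ^ W * Real.exp (-(n : ℝ) ^ (1 - γ)) ≤ (n : ℝ) ^ (-γ) / 4) := by
  -- reduce to `δ ≤ 1 / 4`
  wlog hδ2 : δ ≤ 1 / 4 generalizing δ
  · obtain ⟨q, hq, γ, hγ, hγ2, n₀, h⟩ := this (1 / 4) (by norm_num) le_rfl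
    refine ⟨q, hq, γ, hγ, hγ2, n₀, fun n hn => ?_⟩
    obtain ⟨g, h1, h2, h3, h4, h5, h6⟩ := h n hn
    have h7 : (n : ℝ) ^ (1 / 3 - δ) ≤ (n : ℝ) ^ (1 / 3 - 1 / 4 : ℝ) := by
      apply Real.rpow_le_rpow_of_exponent_le
      · have : 1 ≤ n := by omega
        exact_mod_cast this
      · linarith
    exact ⟨g, h1, h2, fun S m hS => h3 S m (hS.trans h7), h4, fun S hS => h5 S (hS.trans h7), h6⟩
  obtain ⟨q1, hq1⟩ := exists_nat_ge (7 / δ)
  set q := max 7 q1 with hqdef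
  have hq : 7 ≤ q := le_max_left _ _
  have hqδ : 7 ≤ δ * q := by
    have h1 : 7 / δ ≤ q := hq1.trans (by exact_mod_cast le_max_right _ _)
    rw [div_le_iff₀ hδ] at h1
    linarith
  have hG1 : (1 : ℝ) < G2 q := by exact_mod_cast G2_gt (show 1 ≤ q by omega)
  have hG3 : (1 : ℝ) < (G2 q : ℝ) ^ 3 := one_lt_pow₀ hG1 (by norm_num)
  have hlG : 0 < Real.log (G2 q) := Real.log_pos hG1
  have hlG3 : Real.log ((G2 q : ℝ) ^ 3) = 3 * Real.log (G2 q) := by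
    rw [Real.log_pow]
    norm_num
  have hR4 : 4 ≤ Rq q := by
    unfold Rq
    calc 4 = 4 * 1 := rfl
      _ ≤ 4 ^ (q + 1) * (9 * q + 4) ^ q := by
        apply Nat.mul_le_mul _ (Nat.one_le_pow _ _ (by positivity))
        calc 4 = 4 ^ 1 := rfl
          _ ≤ _ := Nat.pow_le_pow_right (by norm_num) (by omega)
  have hR : (4 : ℝ) ≤ Rq q := by exact_mod_cast hR4
  have hR0 : (0 : ℝ) < Rq q := by linarith
  have hlR : 0 < Real.log (Rq q) := Real.log_pos (by linarith)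
  set ρ := Real.log (Rq q) / Real.log (G2 q) with hρ
  have hρ0 : 0 < ρ := div_pos hlR hlG
  have hρ6 : 1 / 2 - δ / 2 ≤ (q - 6 : ℝ) * ρ := by
    rw [hρ, mul_div_assoc', le_div_iff₀ hlG]
    have h1 := log_G2 (show 1 ≤ q by omega)
    have h2 : (1 / 2 - δ / 2) * Real.log (G2 q)
        ≤ (1 / 2 - δ / 2) * ((2 * q + 1) * Real.log (Rq q)) :=
      mul_le_mul_of_nonneg_left h1 (by linarith)
    refine h2.trans ?_
    rw [← mul_assoc]
    apply mul_le_mul_of_nonneg_right _ hlR.le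
    nlinarith
  have hx1 : xq q < 1 := xq_lt
  have hx0 : 0 < xq q := lt_of_lt_of_le (by norm_num) (xq_ge q)
  have hlx : Real.log (xq q) < 0 := Real.log_neg hx0 hx1
  set c1 := -(Real.log (xq q ^ 2) / Real.log ((G2 q : ℝ) ^ 3)) with hc1
  have hc10 : 0 < c1 := by
    rw [hc1, neg_pos, Real.log_pow, hlG3]
    apply div_neg_of_neg_of_pos
    · push_cast
      linarith
    · linarith
  set γ := min (1 / 2) (min (c1 / 4) (min ρ (δ / 4))) with hγ
  have hγ0 : 0 < γ := by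
    rw [hγ]
    positivity
  have hγ1 : γ ≤ 1 / 2 := min_le_left _ _
  have hγ2 : γ ≤ c1 / 4 := (min_le_right _ _).trans (min_le_left _ _)
  have hγ3 : γ ≤ ρ := ((min_le_right _ _).trans (min_le_right _ _)).trans (min_le_left _ _)
  have hγ4 : γ ≤ δ / 4 := ((min_le_right _ _).trans (min_le_right _ _)).trans (min_le_right _ _)
  -- the asymptotic statements
  have e1 : ∀ᶠ x : ℝ in atTop, 24 / xq q ^ 2 * x ^ (γ - c1) ≤ 1 := by
    have h1 : Tendsto (fun x : ℝ => 24 / xq q ^ 2 * x ^ (γ - c1)) atTop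
        (nhds (24 / xq q ^ 2 * 0)) := by
      apply Tendsto.const_mul
      have h2 := tendsto_rpow_neg_atTop (show 0 < c1 - γ by linarith)
      refine h2.congr (fun x => ?_)
      congr 1
      ring
    rw [mul_zero] at h1
    exact (h1.eventually_lt_const (by norm_num)).mono fun x hx => hx.le
  have e2 : ∀ᶠ x : ℝ in atTop, 8 ≤ x ^ (1 - γ) :=
    (tendsto_rpow_atTop (show 0 < 1 - γ by linarith)).eventually_ge_atTop 8
  have e3 := asy (show 1 / 3 - δ < 1 / 3 - δ / 3 by linarith) (by linarith) 3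
    (show 0 < 1 / (2 * (Rq q : ℝ) ^ (2 * (q - 6))) by positivity)
  have e4 := asy (show 1 - 2 * ρ < 1 - γ by linarith) (by linarith) (3 * (Rq q : ℝ) ^ 6)
    (show (0 : ℝ) < 1 by norm_num)
  have e5 := asy (show 1 / 3 - δ < 1 / 3 - γ by linarith) (by linarith) 8
    (show (0 : ℝ) < 1 / (4 * G2 q) by positivity)
  obtain ⟨x0, hx0'⟩ := eventually_atTop.1 (e1.and (e2.and (e3.and (e4.and e5))))
  refine ⟨q, hq, γ, hγ0, hγ1, max ⌈x0⌉₊ 3, fun n hn => ?_⟩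
  have hn3 : 3 ≤ n := (le_max_right _ _).trans hn
  have hnx : x0 ≤ n := (Nat.le_ceil x0).trans (by exact_mod_cast (le_max_left _ _).trans hn)
  obtain ⟨f1, f2, f3, f4, f5⟩ := hx0' n hnx
  have hn3' : (3 : ℝ) ≤ n := by exact_mod_cast hn3
  have hn1 : (1 : ℝ) ≤ n := by linarith
  have hn0 : (0 : ℝ) < n := by linarith
  have hlog1 : 1 ≤ Real.log n := by
    rw [Real.le_log_iff_exp_le hn0]
    have := Real.exp_one_lt_d9
    linarith
  have hlog2 : 1 / 2 ≤ Real.log 2 := by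
    have := Real.log_two_gt_d9
    linarith
  have hlog4 : Real.log 4 ≤ 2 := by
    have h1 : Real.log 4 = 2 * Real.log 2 := by
      rw [show (4 : ℝ) = 2 ^ 2 by norm_num, Real.log_pow]
      norm_num
    have := Real.log_two_lt_d9
    linarith
  have hlog40 : 0 ≤ Real.log 4 := Real.log_nonneg (by norm_num)
  have hG3n : 1 < G2 q ^ 3 := by exact_mod_cast hG3
  set g := Nat.log (G2 q ^ 3) n with hg
  have hng1 : (G2 q ^ 3) ^ g ≤ n := Nat.pow_log_le_self _ (by omega)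
  have hng2 : n < (G2 q ^ 3) ^ (g + 1) := Nat.lt_pow_succ_log_self hG3n n
  have hng3 : (n : ℝ) ≤ ((G2 q : ℝ) ^ 3) ^ (g + 1) := by exact_mod_cast hng2.le
  have hYpos : (0 : ℝ) < (n : ℝ) ^ (-γ) := Real.rpow_pos_of_pos hn0 _
  have hYexp : (n : ℝ) ^ (-γ) / 4 = Real.exp (-(γ * Real.log n) - Real.log 4) := by
    rw [Real.exp_sub, Real.exp_log (by norm_num), Real.rpow_def_of_pos hn0]
    congr 2
    ring
  have hγlog : γ * Real.log n ≤ Real.log n := by nlinarith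
  have hγlog0 : 0 ≤ γ * Real.log n := by positivity
  -- `R ^ (g + 1)` against `n`
  have hRg : (n : ℝ) ^ (ρ / 3) ≤ (Rq q : ℝ) ^ (g + 1) := by
    have h1 := (pow_log hG3 hn1 hng3 hR0).1 (by linarith)
    have h2 : Real.log (Rq q) / Real.log ((G2 q : ℝ) ^ 3) = ρ / 3 := by
      rw [hlG3, hρ]
      field_simp
    rwa [h2] at h1
  refine ⟨g, hn3, by rw [pow_mul]; exact hng1, ?_, ?_, ?_, ?_⟩
  · intro S m hS hm
    have hm' : (G2 q : ℝ) ^ g ≤ m := by exact_mod_cast hm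
    have hmpos : (0 : ℝ) < m := lt_of_lt_of_le (by positivity) hm'
    -- first part
    have h1 := (pow_log hG3 hn1 hng3 (show 0 < xq q ^ 2 by positivity)).2
      (pow_le_one₀ hx0.le hx1.le)
    have h2 : Real.log (xq q ^ 2) / Real.log ((G2 q : ℝ) ^ 3) = -c1 := by rw [hc1, neg_neg]
    rw [h2] at h1
    have h3 : xq q ^ (2 * g) ≤ (n : ℝ) ^ (-c1) / xq q ^ 2 := by
      rw [le_div_iff₀ (by positivity), pow_mul, ← pow_succ]
      exact h1
    have h4 : (n : ℝ) ^ γ * (6 * xq q ^ (2 * g)) ≤ 1 / 4 := by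
      calc (n : ℝ) ^ γ * (6 * xq q ^ (2 * g)) ≤ (n : ℝ) ^ γ * (6 * ((n : ℝ) ^ (-c1) / xq q ^ 2)) := by
            apply mul_le_mul_of_nonneg_left _ (Real.rpow_nonneg hn0.le _)
            linarith
        _ = (24 / xq q ^ 2 * (n : ℝ) ^ (γ - c1)) * (1 / 4) := by
            have h5 : (n : ℝ) ^ (γ - c1) = (n : ℝ) ^ γ * (n : ℝ) ^ (-c1) := by
              rw [← Real.rpow_add hn0]
              congr 1
            rw [h5]
            ring
        _ ≤ 1 * (1 / 4) := mul_le_mul_of_nonneg_right f1 (by norm_num)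
        _ = _ := one_mul _
    -- second part
    have h5 : (n : ℝ) ^ (1 / 3 : ℝ) ≤ (G2 q : ℝ) ^ (g + 1) := by
      calc (n : ℝ) ^ (1 / 3 : ℝ) ≤ (((G2 q : ℝ) ^ 3) ^ (g + 1)) ^ (1 / 3 : ℝ) :=
            Real.rpow_le_rpow hn0.le hng3 (by norm_num)
        _ = _ := by
            rw [← pow_mul, mul_comm, pow_mul, ← Real.rpow_natCast _ 3, ← Real.rpow_mul (by positivity)]
            norm_num
    have h6 : (n : ℝ) ^ (1 / 3 : ℝ) ≤ m * G2 q := by
      calc _ ≤ (G2 q : ℝ) ^ (g + 1) := h5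
        _ = (G2 q : ℝ) ^ g * G2 q := pow_succ _ _
        _ ≤ _ := mul_le_mul_of_nonneg_right hm' (by positivity)
    have h7 : (S : ℝ) + (Nat.log 2 n + 6) ≤
        8 * ((n : ℝ) ^ (1 / 3 - δ) * Real.log n + Real.log n + 1) := by
      have h8 : (Nat.log 2 n : ℝ) ≤ 2 * Real.log n := by
        have h9 : (Nat.log 2 n : ℝ) * Real.log 2 ≤ Real.log n := by
          rw [← Real.log_pow]
          apply Real.log_le_log (by positivity)
          exact_mod_cast Nat.pow_log_le_self 2 (by omega)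
        have h10 : (0 : ℝ) ≤ Nat.log 2 n := Nat.cast_nonneg _
        nlinarith
      have h9 : (n : ℝ) ^ (1 / 3 - δ) ≤ (n : ℝ) ^ (1 / 3 - δ) * Real.log n :=
        le_mul_of_one_le_right (Real.rpow_nonneg hn0.le _) hlog1
      have h10 : 0 ≤ (n : ℝ) ^ (1 / 3 - δ) * Real.log n :=
        mul_nonneg (Real.rpow_nonneg hn0.le _) (by linarith)
      linarith
    have h8 : (n : ℝ) ^ γ * (S + (Nat.log 2 n + 6)) ≤ m / 4 := by
      have h9 : (n : ℝ) ^ γ * (n : ℝ) ^ (1 / 3 - γ) = (n : ℝ) ^ (1 / 3 : ℝ) := by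
        rw [← Real.rpow_add hn0]
        congr 1
        ring
      calc (n : ℝ) ^ γ * (S + (Nat.log 2 n + 6))
          ≤ (n : ℝ) ^ γ * (1 / (4 * G2 q) * (n : ℝ) ^ (1 / 3 - γ)) :=
            mul_le_mul_of_nonneg_left (h7.trans f5) (Real.rpow_nonneg hn0.le _)
        _ = 1 / (4 * G2 q) * (n : ℝ) ^ (1 / 3 : ℝ) := by rw [← h9]; ring
        _ ≤ 1 / (4 * G2 q) * (m * G2 q) := mul_le_mul_of_nonneg_left h6 (by positivity)
        _ = m / 4 := by field_simp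
    have h9 := mul_le_mul_of_nonneg_right h4 hmpos.le
    nlinarith
  · have h1 : (n : ℝ) ^ (-γ) = (n : ℝ) ^ (1 - γ) / n := by
      rw [show -γ = (1 - γ) - 1 by ring, Real.rpow_sub hn0 (1 - γ) 1, Real.rpow_one]
    rw [h1, div_div, div_le_div_iff₀ hn0 (by positivity)]
    nlinarith
  · intro s hs
    have h2 : (n : ℝ) ^ (1 / 3 - δ / 3) ≤ (Rq q : ℝ) ^ ((q - 6) * (2 * (g + 1))) := by
      calc (n : ℝ) ^ (1 / 3 - δ / 3) ≤ (n : ℝ) ^ (ρ / 3 * ((2 * (q - 6) : ℕ) : ℝ)) := by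
            apply Real.rpow_le_rpow_of_exponent_le hn1
            rw [Nat.cast_mul, Nat.cast_sub (by omega)]
            push_cast
            linarith
        _ = ((n : ℝ) ^ (ρ / 3)) ^ (2 * (q - 6)) := by
            rw [Real.rpow_mul hn0.le, Real.rpow_natCast]
        _ ≤ ((Rq q : ℝ) ^ (g + 1)) ^ (2 * (q - 6)) :=
            pow_le_pow_left₀ (Real.rpow_nonneg hn0.le _) hRg _
        _ = _ := by
            rw [← pow_mul]
            congr 1
            ring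
    have h3 : 1 / (2 * (Rq q : ℝ) ^ (2 * (q - 6))) * (n : ℝ) ^ (1 / 3 - δ / 3)
        ≤ (Rq q : ℝ) ^ ((q - 6) * (2 * g)) / 2 := by
      have h4 : (Rq q : ℝ) ^ ((q - 6) * (2 * (g + 1))) = (Rq q : ℝ) ^ ((q - 6) * (2 * g)) *
          (Rq q : ℝ) ^ (2 * (q - 6)) := by
        rw [← pow_add]
        congr 1
        ring
      rw [h4] at h2
      rw [div_mul_eq_mul_div, one_mul, div_le_div_iff₀ (by positivity) (by norm_num)]
      nlinarith
    have h4 : (4 : ℝ) ^ s = Real.exp (s * Real.log 4) := by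
      rw [Real.exp_nat_mul, Real.exp_log (by norm_num)]
    have hp0 : 0 ≤ (n : ℝ) ^ (1 / 3 - δ) := Real.rpow_nonneg hn0.le _
    rw [hYexp, h4]
    nth_rewrite 1 [← Real.exp_log hn0]
    rw [← Real.exp_add, ← Real.exp_add]
    apply Real.exp_le_exp.2
    have h5 : (s : ℝ) * Real.log 4 ≤ 2 * (n : ℝ) ^ (1 / 3 - δ) := by nlinarith
    have h6 : (n : ℝ) ^ (1 / 3 - δ) ≤ (n : ℝ) ^ (1 / 3 - δ) * Real.log n :=
      le_mul_of_one_le_right hp0 hlog1
    linarith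
  · intro W hW
    have h2 : (n : ℝ) ^ (2 * ρ) ≤ (Rq q : ℝ) ^ (3 * (2 * g)) * (Rq q : ℝ) ^ 6 := by
      calc (n : ℝ) ^ (2 * ρ) = ((n : ℝ) ^ (ρ / 3)) ^ 6 := by
            rw [← Real.rpow_natCast, ← Real.rpow_mul hn0.le]
            congr 1
            push_cast
            ring
        _ ≤ ((Rq q : ℝ) ^ (g + 1)) ^ 6 :=
            pow_le_pow_left₀ (Real.rpow_nonneg hn0.le _) hRg _
        _ = _ := by
            rw [← pow_mul, ← pow_add]
            congr 1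
            ring
    have h3 : (W : ℝ) ≤ (Rq q : ℝ) ^ 6 * (n : ℝ) ^ (1 - 2 * ρ) := by
      have h4 : (0 : ℝ) < (n : ℝ) ^ (2 * ρ) := Real.rpow_pos_of_pos hn0 _
      have h5 : (n : ℝ) ^ (1 - 2 * ρ) = n / (n : ℝ) ^ (2 * ρ) := by
        rw [Real.rpow_sub hn0, Real.rpow_one]
      rw [h5, mul_div_assoc', le_div_iff₀ h4]
      calc (W : ℝ) * (n : ℝ) ^ (2 * ρ) ≤ W * ((Rq q : ℝ) ^ (3 * (2 * g)) * (Rq q : ℝ) ^ 6) :=
            mul_le_mul_of_nonneg_left h2 (Nat.cast_nonneg _)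
        _ = (W * (Rq q : ℝ) ^ (3 * (2 * g))) * (Rq q : ℝ) ^ 6 := by ring
        _ ≤ n * (Rq q : ℝ) ^ 6 := mul_le_mul_of_nonneg_right hW (by positivity)
        _ = _ := by ring
    have h4 : ((n : ℝ) ^ 3) ^ W = Real.exp (3 * W * Real.log n) := by
      rw [← pow_mul]
      have h5 : (3 : ℝ) * W * Real.log n = ((3 * W : ℕ) : ℝ) * Real.log n := by
        push_cast
        ring
      rw [h5, Real.exp_nat_mul, Real.exp_log hn0]
    rw [hYexp, h4, ← Real.exp_add]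
    apply Real.exp_le_exp.2
    have h5 : (W : ℝ) * Real.log n ≤ (Rq q : ℝ) ^ 6 * (n : ℝ) ^ (1 - 2 * ρ) * Real.log n :=
      mul_le_mul_of_nonneg_right h3 (by linarith)
    have h6 : (1 : ℝ) ≤ (Rq q : ℝ) ^ 6 := one_le_pow₀ (by linarith)
    have h7 : Real.log n + 1 ≤ (Rq q : ℝ) ^ 6 * (Real.log n + 1) :=
      le_mul_of_one_le_left (by linarith) h6
    rw [one_mul] at f4
    nlinarith

end H40.OS
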