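import Pool.Agent.H40.OS.Multi
import Pool.Agent.H40.OS.NumC
import Pool.Agent.H40.OS.Main1

/-!
# Several passes: the main theorem
-/

set_option autoImplicit false

open MeasureTheory

namespace H40.OS

open H40.LS

theorem main2 (δ : ℝ) (hδ : 0 < δ) : ∃ γ : ℝ, 0 < γ ∧ ∃ n₀ : ℕ, ∀ n : ℕ, n₀ ≤ n →
    ∀ κ s : ℕ, ((κ * s : ℕ) : ℝ) ≤ (n : ℝ) ^ (1 / 3 - δ) →
    ∀ (Ω : Type) [MeasurableSpace Ω] (μ : Measure Ω)
    [IsProbabilityMeasure μ] (𝒜 : Ω → Alg κ s), (∀ l, Measurable fun ω => (𝒜 ω).out l) →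
    (∀ l : List ℕ, l.length = n → (∀ x ∈ l, 1 ≤ x ∧ x ≤ n ^ 4) →
      μ.real {ω | (LIS l : ℝ) < (𝒜 ω).out l} ≤ Real.exp (-(n : ℝ) ^ (1 - γ))) →
    ∃ l : List ℕ, l.length = n ∧ (∀ x ∈ l, 1 ≤ x ∧ x ≤ n ^ 4) ∧
      μ.real {ω | (LIS l : ℝ) ≤ (n : ℝ) ^ γ * (𝒜 ω).out l} ≤ (n : ℝ) ^ (-γ) := by
  obtain ⟨q, hq, γ, hγ, hγ2, n₀, hnum⟩ := numC δ hδ
  refine ⟨γ, hγ, n₀, ?_⟩
  intro n hn κ s hs Ω _ μ _ 𝒜 hmeas hone
  obtain ⟨g, hn3, hGn, c1, c2, c3, c4⟩ := hnum n hn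
  have hn0 : (0 : ℝ) < n := by
    have : 0 < n := by omega
    exact_mod_cast this
  have hn1' : (1 : ℝ) ≤ n := by
    have : 1 ≤ n := by omega
    exact_mod_cast this
  set p : Prm := prm q (2 * g) n with hp
  haveI : NeZero p.Q := ⟨by
    change n ^ 2 ≠ 0
    positivity⟩
  have hR : 1 ≤ p.R := Rq_pos q
  have h1 : Par p.K p.R 1 (zq q) := parz (by omega)
  have h2 : Par p.K p.R 2 1 := par1 (by omega)
  have hL : 1 ≤ p.L := Nat.one_le_pow _ _ (by norm_num)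
  have hG1 : 1 ≤ G2 q := (G2_gt (by omega)).le
  have hPN : p.P * p.N = G2 q ^ (2 * g) := prm_PN q (2 * g) n
  have hN1 : 1 ≤ p.N := Nat.one_le_pow _ _ hR
  have hP1 : 1 ≤ p.P := by
    change 1 ≤ (Kq q + 4 * Rq q) ^ (q * (2 * g)) * 2 ^ (q * (2 * g))
    have : 1 ≤ Rq q := Rq_pos q
    exact Nat.mul_pos (pow_pos (by omega) _) (by positivity)
  -- the number of copies
  set m := n / G2 q ^ (2 * g) with hm
  have hm1 : G2 q ^ g ≤ m := by
    rw [hm, Nat.le_div_iff_mul_le (by positivity), ← pow_add]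
    calc G2 q ^ (g + 2 * g) = G2 q ^ (3 * g) := by
          congr 1
          ring
      _ ≤ n := hGn
  have hmpos : 1 ≤ m := (Nat.one_le_pow _ _ hG1).trans hm1
  have hm2 : m * (p.P * p.N) ≤ n := by
    rw [hPN]
    exact Nat.div_mul_le_self _ _
  have hPNn : p.P * p.N ≤ n := (Nat.le_mul_of_pos_left _ hmpos).trans hm2
  have hNn : p.N ≤ n := (Nat.le_mul_of_pos_left _ hP1).trans hPNn
  let a0 : p.Sm := (fun _ => ⟨0, hR⟩, fun _ _ => 0)
  set D : ℕ := Rq q ^ ((q - 3) * (2 * g)) with hD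
  let r : (Fin m → p.Sm) → ℕ := fun A => n - p.posn (p.hid (toF a0 A)) (m * p.P)
  set Y : ℝ := (n : ℝ) ^ γ with hY
  have hY0 : 0 ≤ Y := Real.rpow_nonneg hn0.le _
  have hhid : ∀ (A : Fin m → p.Sm) c l, p.hid (toF a0 A) c l < p.R :=
    fun A c l => ext_lt hR _ l
  -- length and values
  have hlen : ∀ (A : Fin m → p.Sm) (f : ℕ → Fin p.N → ZMod p.Q),
      (p.strm (p.hid (toF a0 A)) f (m * p.P) ++ List.replicate (r A) 1).length = n := by
    intro A f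
    rw [List.length_append, List.length_replicate, p.length_strm]
    change _ + (n - _) = n
    have h3 := p.length_strm_le hR (p.hid (toF a0 A)) f m
    rw [p.length_strm] at h3
    omega
  have hval : ∀ (A : Fin m → p.Sm) (f : ℕ → Fin p.N → ZMod p.Q),
      ∀ x ∈ p.strm (p.hid (toF a0 A)) f (m * p.P) ++ List.replicate (r A) 1,
        1 ≤ x ∧ x ≤ n ^ 4 := by
    intro A f x hx
    rcases List.mem_append.1 hx with h3 | h3
    · obtain ⟨h4, h5⟩ := p.strm_val (hhid A) f m x h3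
      refine ⟨h4, h5.trans ?_⟩
      have h6 : m * wid p.K p.R p.h ≤ n := by
        have h7 : wid p.K p.R p.h = p.P * p.N := (prm_wid q (2 * g) n).trans hPN.symm
        rw [h7]
        exact hm2
      change (m * wid p.K p.R p.h + 1) * n ^ 2 ≤ n ^ 4
      calc (m * wid p.K p.R p.h + 1) * n ^ 2 ≤ (n * n) * n ^ 2 := by
            apply Nat.mul_le_mul_right
            nlinarith
        _ = n ^ 4 := by ring
    · rw [List.eq_of_mem_replicate h3]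
      exact ⟨le_refl _, Nat.one_le_pow _ _ (by omega)⟩
  -- measurability
  have hOm : ∀ (A : Fin m → p.Sm) (f : Fin (m * p.P) → Fin p.N → ZMod p.Q),
      MeasurableSet {ω | (LIS (p.fst a0 A (r A) f) : ℝ) < (𝒜 ω).out (p.fst a0 A (r A) f)} := by
    intro A f
    exact measurableSet_lt measurable_const (hmeas _)
  have hOv : ∀ A : Fin m → p.Sm, {ω | p.Over a0 D r (𝒜 ω).out A} = ⋃ f ∈ p.Fam a0 D A,
      {ω | (LIS (p.fst a0 A (r A) f) : ℝ) < (𝒜 ω).out (p.fst a0 A (r A) f)} := by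
    intro A
    ext ω
    simp only [Set.mem_setOf_eq, Set.mem_iUnion, exists_prop]
    rfl
  have hOvm : ∀ A : Fin m → p.Sm, MeasurableSet {ω | p.Over a0 D r (𝒜 ω).out A} := by
    intro A
    rw [hOv A]
    exact Finset.measurableSet_biUnion _ fun f _ => hOm A f
  have hSm : ∀ A : Fin m → p.Sm,
      MeasurableSet {ω | (LIS (p.tst a0 A (r A)) : ℝ) ≤ Y * (𝒜 ω).out (p.tst a0 A (r A))} := by
    intro A
    exact measurableSet_le measurable_const ((hmeas _).const_mul _)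
  -- the probability of an overestimate
  have hOvp : ∀ A : Fin m → p.Sm, μ.real {ω | p.Over a0 D r (𝒜 ω).out A}
      ≤ (n : ℝ) ^ (-γ) / 4 := by
    intro A
    rw [hOv A]
    refine (measureReal_biUnion_finset_le _ _).trans ?_
    have h3 : ∀ f ∈ p.Fam a0 D A,
        μ.real {ω | (LIS (p.fst a0 A (r A) f) : ℝ) < (𝒜 ω).out (p.fst a0 A (r A) f)}
        ≤ Real.exp (-(n : ℝ) ^ (1 - γ)) := by
      intro f _
      exact hone _ (hlen A _) (hval A _)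
    refine (Finset.sum_le_sum h3).trans ?_
    rw [Finset.sum_const, nsmul_eq_mul]
    have h4 := p.card_Fam hR a0 D A
    have h5 : ((p.Fam a0 D A).card : ℝ) ≤ ((n : ℝ) ^ 3) ^ (D * (m * p.P)) := by
      rw [← pow_mul] at h4
      have h6 : (p.N * p.Q) ^ (D * (m * p.P)) ≤ (n ^ 3) ^ (D * (m * p.P)) := by
        apply Nat.pow_le_pow_left
        calc p.N * p.Q ≤ n * n ^ 2 := Nat.mul_le_mul hNn le_rfl
          _ = n ^ 3 := by ring
      exact_mod_cast h4.trans h6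
    refine (mul_le_mul_of_nonneg_right h5 (Real.exp_pos _).le).trans ?_
    apply c4
    have h7 : D * (m * p.P) * Rq q ^ (3 * (2 * g)) = m * (p.P * p.N) := by
      have h8 : Rq q ^ ((q - 3) * (2 * g)) * Rq q ^ (3 * (2 * g)) = p.N := by
        rw [← pow_add, ← add_mul]
        change _ = Rq q ^ (q * (2 * g))
        congr 2
        omega
      rw [← h8, hD]
      ring
    exact_mod_cast h7.le.trans hm2
  -- numbers
  obtain ⟨d1, d2, d3⟩ := numA (q := q) (g := 2 * g) (by omega)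
  have hRr : (0 : ℝ) < Rq q := by exact_mod_cast Rq_pos q
  have hx := xq_ge q
  set ξ : ℝ := xq q ^ (2 * g) with hξ
  have hξ0 : 0 < ξ := by
    rw [hξ]
    positivity
  set M0 : ℝ := p.L * ((p.K : ℝ) + 3 * p.R) ^ p.h with hM0
  have hM0' : M0 = 2 ^ (q * (2 * g)) * ((Kq q : ℝ) + 3 * Rq q) ^ (q * (2 * g)) := by
    rw [hM0]
    change ((2 ^ (q * (2 * g)) : ℕ) : ℝ) * _ = _
    push_cast
    rfl
  rw [← hM0'] at d1 d2 d3
  have hM0pos : 0 < M0 := by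
    rw [hM0']
    positivity
  have hGb : p.Gb (zq q) (2 * g) (2 * g) ≤ 3 * ξ * M0 := by
    refine le_trans (le_of_eq ?_) d1
    unfold Prm.Gb
    have e1 : (p.L : ℝ) = 2 ^ (q * (2 * g)) := by
      change ((2 ^ (q * (2 * g)) : ℕ) : ℝ) = _
      push_cast
      rfl
    rw [e1]
    rfl
  have hEn : p.En (2 * g) (2 * g) D ≤ (1 / 4) ^ (2 * g) * M0 := by
    refine le_trans (le_of_eq ?_) d3
    unfold Prm.En
    have e2 : (p.P : ℝ) = ((Kq q : ℝ) + 4 * Rq q) ^ (q * (2 * g)) * 2 ^ (q * (2 * g)) := by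
      change (((Kq q + 4 * Rq q) ^ (q * (2 * g)) * 2 ^ (q * (2 * g)) : ℕ) : ℝ) = _
      push_cast
      rfl
    have e3 : (D : ℝ) = (Rq q : ℝ) ^ ((q - 3) * (2 * g)) := by
      rw [hD]
      push_cast
      rfl
    rw [e2, e3]
    rfl
  have hθ : 0 < ξ * M0 := by positivity
  have hπ : p.En (2 * g) (2 * g) D / (ξ * M0) ≤ ξ := by
    rw [div_le_iff₀ hθ]
    refine hEn.trans ?_
    have h3 : (1 / 4 : ℝ) ^ (2 * g) ≤ ξ * ξ := by
      rw [hξ, ← mul_pow]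
      apply pow_le_pow_left₀ (by norm_num)
      nlinarith
    calc (1 / 4 : ℝ) ^ (2 * g) * M0 ≤ (ξ * ξ) * M0 := mul_le_mul_of_nonneg_right h3 hM0pos.le
      _ = _ := by ring
  have hEn0 : 0 ≤ p.En (2 * g) (2 * g) D := by
    unfold Prm.En
    positivity
  set Z0 : ℕ := κ * s + ⌈2 * ξ * m⌉₊ + (Nat.log 2 n + 4) with hZ0
  have hsm : Y * (1 + m * (p.Gb (zq q) (2 * g) (2 * g) + ξ * M0) + M0 * Z0) < m * M0 := by
    have h3 := c1 (κ * s) m hs hm1
    have h4 : (⌈2 * ξ * m⌉₊ : ℝ) ≤ 2 * ξ * m + 1 := (Nat.ceil_lt_add_one (by positivity)).le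
    have h5 : (1 : ℝ) ≤ M0 := by
      have h6 : ξ ≤ 1 := pow_le_one₀ (by linarith) xq_lt.le
      nlinarith
    have h6 : 1 + m * (p.Gb (zq q) (2 * g) (2 * g) + ξ * M0) + M0 * Z0
        ≤ M0 * (6 * ξ * m + (((κ * s : ℕ) : ℝ) + (Nat.log 2 n + 6))) := by
      have h7 : (m : ℝ) * (p.Gb (zq q) (2 * g) (2 * g) + ξ * M0) ≤ m * (4 * ξ * M0) := by
        apply mul_le_mul_of_nonneg_left _ (Nat.cast_nonneg _)
        linarith
      have h8 : M0 * (Z0 : ℝ) ≤ M0 * (((κ * s : ℕ) : ℝ) + (2 * ξ * m + 1)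
          + (Nat.log 2 n + 4)) := by
        apply mul_le_mul_of_nonneg_left _ hM0pos.le
        rw [hZ0]
        push_cast
        push_cast at h4
        linarith
      nlinarith
    calc Y * (1 + m * (p.Gb (zq q) (2 * g) (2 * g) + ξ * M0) + M0 * Z0)
        ≤ Y * (M0 * (6 * ξ * m + (((κ * s : ℕ) : ℝ) + (Nat.log 2 n + 6)))) :=
          mul_le_mul_of_nonneg_left h6 hY0
      _ = (Y * (6 * ξ * m + (((κ * s : ℕ) : ℝ) + (Nat.log 2 n + 6)))) * M0 := by ring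
      _ < m * M0 := mul_lt_mul_of_pos_right h3 hM0pos
  -- averaging
  set B : ℝ := m * p.P * 4 ^ (κ * s) * Real.exp (-(D : ℝ) ^ 2 / (2 * p.N))
        + m * p.nT * p.N * (2 * p.L / p.Q)
        + 2 ^ (κ * s) * (1 + p.En (2 * g) (2 * g) D / (ξ * M0)) ^ m / 2 ^ Z0 with hB
  have hne : Nonempty (Fin m → p.Sm) := ⟨fun _ => a0⟩
  obtain ⟨A, hA⟩ := avg μ (fun A : Fin m → p.Sm => {ω |
    (LIS (p.tst a0 A (r A)) : ℝ) ≤ Y * (𝒜 ω).out (p.tst a0 A (r A)) ∧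
      ¬ p.Over a0 D r (𝒜 ω).out A}) (fun A => (hSm A).inter (hOvm A).compl) B (by
    intro ω
    have h3 := p.det_multi (𝒜 ω) h1 h2 (2 * g) (2 * g) D a0 m Z0 r hY0 hθ hsm
    rw [Fintype.card_fun, Fintype.card_fin, Nat.cast_pow]
    exact h3)
  refine ⟨p.tst a0 A (r A), hlen A _, hval A _, ?_⟩
  have h3 : μ.real {ω | (LIS (p.tst a0 A (r A)) : ℝ) ≤ Y * (𝒜 ω).out (p.tst a0 A (r A))}
      ≤ B + (n : ℝ) ^ (-γ) / 4 := by
    refine le_trans ?_ (add_le_add hA (hOvp A))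
    refine le_trans (measureReal_mono ?_) (measureReal_union_le _ _)
    intro ω hω
    by_cases h4 : p.Over a0 D r (𝒜 ω).out A
    · exact Or.inr h4
    · exact Or.inl ⟨hω, h4⟩
  refine h3.trans ?_
  have hmP : m * p.P ≤ n := by
    calc m * p.P ≤ m * (p.P * p.N) := Nat.mul_le_mul_left _ (Nat.le_mul_of_pos_right _ hN1)
      _ ≤ n := hm2
  have b1 : m * p.P * 4 ^ (κ * s) * Real.exp (-(D : ℝ) ^ 2 / (2 * p.N))
      ≤ (n : ℝ) ^ (-γ) / 4 := by
    refine le_trans ?_ (c3 (κ * s) hs)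
    have h4 : -(D : ℝ) ^ 2 / (2 * p.N) = -((Rq q : ℝ) ^ ((q - 6) * (2 * g)) / 2) := by
      change -(((Rq q ^ ((q - 3) * (2 * g)) : ℕ) : ℝ)) ^ 2
        / (2 * ((Rq q ^ (q * (2 * g)) : ℕ) : ℝ)) = _
      push_cast
      have h5 : ((Rq q : ℝ) ^ ((q - 3) * (2 * g))) ^ 2
          = (Rq q : ℝ) ^ ((q - 6) * (2 * g)) * (Rq q : ℝ) ^ (q * (2 * g)) := by
        rw [← pow_mul, ← pow_add, ← add_mul, mul_assoc, mul_comm (2 * g) 2, ← mul_assoc]
        congr 2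
        omega
      rw [h5]
      field_simp
    rw [h4]
    apply mul_le_mul_of_nonneg_right _ (Real.exp_pos _).le
    apply mul_le_mul_of_nonneg_right _ (by positivity)
    exact_mod_cast hmP
  have b2 : m * p.nT * p.N * (2 * p.L / p.Q) ≤ (n : ℝ) ^ (-γ) / 4 := by
    refine le_trans ?_ c2
    have h4 : (m : ℝ) * p.nT * p.N * (2 * p.L / p.Q)
        = 2 * ((m * (p.P * p.N) : ℕ) : ℝ) / p.Q := by
      change (m : ℝ) * p.nT * p.N * (2 * p.L / p.Q)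
        = 2 * ((m * (p.nT * p.L * p.N) : ℕ) : ℝ) / p.Q
      push_cast
      ring
    have h5 : ((p.Q : ℕ) : ℝ) = (n : ℝ) ^ 2 := by
      change ((n ^ 2 : ℕ) : ℝ) = _
      push_cast
      rfl
    rw [h4, h5, div_le_div_iff₀ (by positivity) hn0]
    have h6 : ((m * (p.P * p.N) : ℕ) : ℝ) ≤ n := by exact_mod_cast hm2
    nlinarith
  have b3 : 2 ^ (κ * s) * (1 + p.En (2 * g) (2 * g) D / (ξ * M0)) ^ m / 2 ^ Z0
      ≤ (n : ℝ) ^ (-γ) / 4 := by
    refine le_trans ?_ c2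
    have h4 : (1 + p.En (2 * g) (2 * g) D / (ξ * M0)) ^ m ≤ 2 ^ ⌈2 * ξ * m⌉₊ := by
      calc (1 + p.En (2 * g) (2 * g) D / (ξ * M0)) ^ m ≤ (Real.exp ξ) ^ m := by
            apply pow_le_pow_left₀ (by positivity)
            have := Real.add_one_le_exp ξ
            linarith
        _ = Real.exp (m * ξ) := by rw [← Real.exp_nat_mul]
        _ ≤ Real.exp ((⌈2 * ξ * m⌉₊ : ℝ) * Real.log 2) := by
            apply Real.exp_le_exp.2
            have h5 : (1 : ℝ) / 2 ≤ Real.log 2 := by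
              have := Real.log_two_gt_d9
              linarith
            have h6 : 2 * ξ * m ≤ (⌈2 * ξ * m⌉₊ : ℝ) := Nat.le_ceil _
            have h7 : (0 : ℝ) ≤ (⌈2 * ξ * m⌉₊ : ℝ) := Nat.cast_nonneg _
            nlinarith
        _ = _ := by rw [Real.exp_nat_mul, Real.exp_log (by norm_num)]
    have h5 : (n : ℝ) ≤ 2 ^ (Nat.log 2 n + 4) := by
      have h6 : n < 2 ^ (Nat.log 2 n + 1) := Nat.lt_pow_succ_log_self (by norm_num) n
      have h7 : 2 ^ (Nat.log 2 n + 1) ≤ 2 ^ (Nat.log 2 n + 4) :=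
        Nat.pow_le_pow_right (by norm_num) (by omega)
      exact_mod_cast h6.le.trans h7
    rw [div_le_div_iff₀ (by positivity) hn0, hZ0, pow_add, pow_add]
    calc 2 ^ (κ * s) * (1 + p.En (2 * g) (2 * g) D / (ξ * M0)) ^ m * (n : ℝ)
        ≤ 2 ^ (κ * s) * 2 ^ ⌈2 * ξ * m⌉₊ * 2 ^ (Nat.log 2 n + 4) := by
          apply mul_le_mul _ h5 hn0.le (by positivity)
          exact mul_le_mul_of_nonneg_left h4 (by positivity)
      _ ≤ 2 * (2 ^ (κ * s) * 2 ^ ⌈2 * ξ * m⌉₊ * 2 ^ (Nat.log 2 n + 4)) := by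
          have : (0 : ℝ) ≤ 2 ^ (κ * s) * 2 ^ ⌈2 * ξ * m⌉₊ * 2 ^ (Nat.log 2 n + 4) := by positivity
          linarith
  rw [hB]
  linarith

end H40.OS
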