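import Mathlib

/-!
# Exponential moments of the distance to a set (Mathlib only)

`dS F y` is the Hamming distance of `y` to the set `F`.

Proof of `mgf` (Talagrand), by induction on `N`.  For `N = 0` both sides are `1`.  Step, with
`Fin (N + 1) → α ≃ α × (Fin N → α)` (`Fin.consEquiv`): let `F_a = {x | cons a x ∈ F}`, let `B` be
the set of all `x` with `cons a x ∈ F` for some `a`, `W = q ^ (2 N) c ^ N` with `q = card α`,
`c = 1/2 + (e^t + e^(-t))/4`.  Then `dS F (cons a x) ≤ dS F_a x` if `F_a` is nonempty and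
`dS F (cons a x) ≤ 1 + dS B x`, so for every `a`
`∑_x exp (t dS F (cons a x)) ≤ (W / |B|) / x_a` with `x_a = max (|F_a| / |B|) e^(-t) ∈ [e^(-t), 1]`,
and `1 / x ≤ 1 + e^t - e^t x` on `[e^(-t), 1]`.  As `|F| = ∑ |F_a| ≤ |B| ∑ x_a` one gets with
`S = ∑ x_a`: the left side is at most `W S (q (1 + e^t) - e^t S) ≤ W q² (1 + e^t)² / (4 e^t) =
W q² c` (since `4 e^t S (A - e^t S) ≤ A²`).
-/

set_option autoImplicit false

namespace H40.OS

/-- The Hamming distance to a set. -/
noncomputable def dS {N : ℕ} {α : Type} [DecidableEq α] (F : Finset (Fin N → α))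
    (y : Fin N → α) : ℕ :=
  sInf {k | ∃ f ∈ F, hammingDist y f = k}

private theorem Mgf_le {N : ℕ} {α : Type} [DecidableEq α] (F : Finset (Fin N → α))
    (y f : Fin N → α) (hf : f ∈ F) : dS F y ≤ hammingDist y f :=
  Nat.sInf_le ⟨f, hf, rfl⟩

private theorem Mgf_exists {N : ℕ} {α : Type} [DecidableEq α] (F : Finset (Fin N → α))
    (hF : F.Nonempty) (y : Fin N → α) : ∃ f ∈ F, hammingDist y f = dS F y := by
  obtain ⟨f, hf⟩ := hF
  exact Nat.sInf_mem (s := {k | ∃ f ∈ F, hammingDist y f = k}) ⟨_, f, hf, rfl⟩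

private theorem Mgf_dist_cons {N : ℕ} {α : Type} [DecidableEq α] (a b : α) (x y : Fin N → α) :
    hammingDist (Fin.cons a x : Fin (N + 1) → α) (Fin.cons b y) =
      (if a = b then 0 else 1) + hammingDist x y := by
  simp only [hammingDist, Finset.card_filter]
  rw [Fin.sum_univ_succ]
  simp only [Fin.cons_zero, Fin.cons_succ]
  split_ifs <;> simp_all

private theorem Mgf_inv {x E : ℝ} (hE : 0 < E) (hx1 : E⁻¹ ≤ x) (hx2 : x ≤ 1) :
    1 / x ≤ 1 + E - E * x := by
  have hx0 : 0 < x := lt_of_lt_of_le (inv_pos.mpr hE) hx1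
  rw [div_le_iff₀ hx0]
  have h1 : 0 ≤ E * x - 1 := by
    have := mul_le_mul_of_nonneg_left hx1 hE.le
    rw [mul_inv_cancel₀ hE.ne'] at this
    linarith
  nlinarith [mul_nonneg h1 (sub_nonneg.mpr hx2)]

private theorem Mgf_c (q E : ℝ) (hE : 0 < E) :
    q ^ 2 * (1 / 2 + (E + E⁻¹) / 4) = (q * (1 + E)) ^ 2 / (4 * E) := by
  field_simp
  ring

private theorem Mgf_sq (q E S : ℝ) :
    S * (q * (1 + E) - E * S) * (4 * E) ≤ (q * (1 + E)) ^ 2 := by
  nlinarith [sq_nonneg (q * (1 + E) - 2 * E * S)]

theorem mgf {α : Type} [Fintype α] [DecidableEq α] {t : ℝ} (ht : 0 ≤ t) (N : ℕ)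
    (F : Finset (Fin N → α)) (hF : F.Nonempty) :
    (F.card : ℝ) * ∑ y : Fin N → α, Real.exp (t * dS F y)
      ≤ (Fintype.card α : ℝ) ^ (2 * N) * (1 / 2 + (Real.exp t + Real.exp (-t)) / 4) ^ N := by
  induction N with
  | zero =>
    obtain ⟨f, hf⟩ := hF
    have hy : ∀ y : Fin 0 → α, y = f := fun y => Subsingleton.elim _ _
    have hd : dS F f = 0 := by
      have := Mgf_le F f f hf
      rw [hammingDist_self] at this
      omega
    have hc : F.card = 1 := by
      rw [Finset.card_eq_one]
      exact ⟨f, Finset.eq_singleton_iff_unique_mem.mpr ⟨hf, fun y _ => hy y⟩⟩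
    have hs : ∑ y : Fin 0 → α, Real.exp (t * dS F y) = 1 := by
      rw [Fintype.sum_eq_single f (fun y hne => (hne (hy y)).elim), hd]
      simp
    rw [hs, hc]
    simp
  | succ N ih =>
    classical
    set E : ℝ := Real.exp t with hE
    have hE0 : 0 < E := Real.exp_pos t
    have hE1 : 1 ≤ E := Real.one_le_exp ht
    have hEn : Real.exp (-t) = E⁻¹ := Real.exp_neg t
    rw [hEn] at ih ⊢
    set c : ℝ := 1 / 2 + (E + E⁻¹) / 4 with hc
    have hc0 : 0 < c := by positivity
    set q : ℝ := (Fintype.card α : ℝ) with hq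
    have hq0 : 0 ≤ q := Nat.cast_nonneg _
    set W : ℝ := q ^ (2 * N) * c ^ N with hW
    have hW0 : 0 ≤ W := by positivity
    let Fa : α → Finset (Fin N → α) := fun a =>
      Finset.univ.filter fun x => (Fin.cons a x : Fin (N + 1) → α) ∈ F
    let B : Finset (Fin N → α) := Finset.univ.filter fun x =>
      ∃ a, (Fin.cons a x : Fin (N + 1) → α) ∈ F
    have hFaB : ∀ a, Fa a ⊆ B := by
      intro a x hx
      simp only [Fa, B, Finset.mem_filter, Finset.mem_univ, true_and] at hx ⊢
      exact ⟨a, hx⟩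
    have hB : B.Nonempty := by
      obtain ⟨f, hf⟩ := hF
      refine ⟨Fin.tail f, ?_⟩
      simp only [B, Finset.mem_filter, Finset.mem_univ, true_and]
      exact ⟨f 0, by rwa [Fin.cons_self_tail]⟩
    have hB0 : (0 : ℝ) < (B.card : ℝ) := by exact_mod_cast hB.card_pos
    -- splitting the sum
    have hsum : ∀ G : (Fin (N + 1) → α) → ℝ, ∑ y, G y = ∑ a, ∑ x, G (Fin.cons a x) := by
      intro G
      rw [← Fintype.sum_prod_type']
      exact (Fintype.sum_equiv (Fin.consEquiv (fun _ : Fin (N + 1) => α)) _ _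
        (fun p => rfl)).symm
    have hFcard : (F.card : ℝ) = ∑ a, ((Fa a).card : ℝ) := by
      have h1 : (F.card : ℝ) = ∑ y : Fin (N + 1) → α, if y ∈ F then (1 : ℝ) else 0 := by
        rw [Finset.sum_boole, Finset.filter_mem_eq_inter, Finset.univ_inter]
      rw [h1, hsum]
      refine Finset.sum_congr rfl fun a _ => ?_
      rw [Finset.sum_boole]
    let xa : α → ℝ := fun a => max (((Fa a).card : ℝ) / B.card) E⁻¹
    have hxa1 : ∀ a, E⁻¹ ≤ xa a := fun a => le_max_right _ _
    have hxa2 : ∀ a, xa a ≤ 1 := by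
      intro a
      refine max_le ?_ (inv_le_one_of_one_le₀ hE1)
      rw [div_le_one hB0]
      exact_mod_cast Finset.card_le_card (hFaB a)
    have hxa0 : ∀ a, 0 < xa a := fun a => lt_of_lt_of_le (inv_pos.mpr hE0) (hxa1 a)
    -- the bounds for one letter
    have hb1 : ∀ a, (Fa a).Nonempty →
        ∑ x, Real.exp (t * dS F (Fin.cons a x)) ≤ W / (Fa a).card := by
      intro a ha
      have hpos : (0 : ℝ) < ((Fa a).card : ℝ) := by exact_mod_cast ha.card_pos
      rw [le_div_iff₀ hpos, mul_comm]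
      refine le_trans ?_ (ih (Fa a) ha)
      refine mul_le_mul_of_nonneg_left (Finset.sum_le_sum fun x _ => ?_) hpos.le
      refine Real.exp_le_exp.mpr (mul_le_mul_of_nonneg_left ?_ ht)
      obtain ⟨f, hf, hfd⟩ := Mgf_exists (Fa a) ha x
      simp only [Fa, Finset.mem_filter, Finset.mem_univ, true_and] at hf
      have h1 := Mgf_le F (Fin.cons a x) (Fin.cons a f) hf
      rw [Mgf_dist_cons, if_pos rfl, zero_add, hfd] at h1
      exact_mod_cast h1
    have hb2 : ∀ a, ∑ x, Real.exp (t * dS F (Fin.cons a x)) ≤ E * (W / B.card) := by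
      intro a
      rw [← mul_div_assoc, le_div_iff₀ hB0, mul_comm]
      have h0 := mul_le_mul_of_nonneg_left (ih B hB) hE0.le
      refine le_trans ?_ h0
      rw [← mul_assoc, mul_comm E, mul_assoc, Finset.mul_sum (a := E)]
      refine mul_le_mul_of_nonneg_left (Finset.sum_le_sum fun x _ => ?_) hB0.le
      rw [hE, ← Real.exp_add]
      refine Real.exp_le_exp.mpr ?_
      obtain ⟨f, hf, hfd⟩ := Mgf_exists B hB x
      simp only [B, Finset.mem_filter, Finset.mem_univ, true_and] at hf
      obtain ⟨b, hb⟩ := hf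
      have h1 := Mgf_le F (Fin.cons a x) (Fin.cons b f) hb
      rw [Mgf_dist_cons, hfd] at h1
      have h2 : dS F (Fin.cons a x) ≤ 1 + dS B x := by
        refine h1.trans ?_
        split_ifs <;> omega
      have h3 : (dS F (Fin.cons a x) : ℝ) ≤ 1 + (dS B x : ℝ) := by exact_mod_cast h2
      have h4 := mul_le_mul_of_nonneg_left h3 ht
      linarith
    have hb : ∀ a, ∑ x, Real.exp (t * dS F (Fin.cons a x)) ≤
        (W / B.card) * (1 + E - E * xa a) := by
      intro a
      have h0 : ∑ x, Real.exp (t * dS F (Fin.cons a x)) ≤ (W / B.card) * (1 / xa a) := by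
        rcases le_total (((Fa a).card : ℝ) / B.card) E⁻¹ with h | h
        · have : xa a = E⁻¹ := max_eq_right h
          rw [this, one_div, inv_inv, mul_comm]
          exact hb2 a
        · have hx : xa a = ((Fa a).card : ℝ) / B.card := max_eq_left h
          have hpos : 0 < ((Fa a).card : ℝ) / B.card := lt_of_lt_of_le (inv_pos.mpr hE0) h
          have hpos' : (0 : ℝ) < ((Fa a).card : ℝ) := by
            by_contra hcon
            have : ((Fa a).card : ℝ) = 0 := le_antisymm (not_lt.mp hcon) (Nat.cast_nonneg _)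
            rw [this] at hpos
            simp at hpos
          have hne : (Fa a).Nonempty := Finset.card_pos.mp (by exact_mod_cast hpos')
          rw [hx]
          refine (hb1 a hne).trans (le_of_eq ?_)
          field_simp
      refine h0.trans (mul_le_mul_of_nonneg_left (Mgf_inv hE0 (hxa1 a) (hxa2 a)) ?_)
      positivity
    set S : ℝ := ∑ a, xa a with hS
    have hS0 : 0 ≤ S := Finset.sum_nonneg fun a _ => (hxa0 a).le
    have htot : ∑ y : Fin (N + 1) → α, Real.exp (t * dS F y) ≤
        (W / B.card) * (q * (1 + E) - E * S) := by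
      rw [hsum]
      refine (Finset.sum_le_sum fun a _ => hb a).trans (le_of_eq ?_)
      rw [← Finset.mul_sum, Finset.sum_sub_distrib, ← Finset.mul_sum, Finset.sum_const,
        Finset.card_univ, nsmul_eq_mul]
    have hFS : (F.card : ℝ) ≤ B.card * S := by
      rw [hFcard, hS, Finset.mul_sum]
      refine Finset.sum_le_sum fun a _ => ?_
      have := le_max_left (((Fa a).card : ℝ) / B.card) E⁻¹
      rw [div_le_iff₀ hB0] at this
      change ((Fa a).card : ℝ) ≤ B.card * xa a
      rw [mul_comm]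
      exact this
    have hT0 : 0 ≤ ∑ y : Fin (N + 1) → α, Real.exp (t * dS F y) :=
      Finset.sum_nonneg fun y _ => (Real.exp_pos _).le
    calc (F.card : ℝ) * ∑ y : Fin (N + 1) → α, Real.exp (t * dS F y)
        ≤ (B.card * S) * ∑ y : Fin (N + 1) → α, Real.exp (t * dS F y) :=
          mul_le_mul_of_nonneg_right hFS hT0
      _ ≤ (B.card * S) * ((W / B.card) * (q * (1 + E) - E * S)) :=
          mul_le_mul_of_nonneg_left htot (mul_nonneg hB0.le hS0)
      _ = W * (S * (q * (1 + E) - E * S)) := by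
          generalize q * (1 + E) - E * S = Z
          have h1 : (B.card : ℝ) * (W / B.card) = W := mul_div_cancel₀ W hB0.ne'
          calc (B.card * S) * ((W / B.card) * Z) = (B.card * (W / B.card)) * (S * Z) := by ring
            _ = W * (S * Z) := by rw [h1]
      _ ≤ W * (q ^ 2 * c) := by
          refine mul_le_mul_of_nonneg_left ?_ hW0
          have h1 : q ^ 2 * c = (q * (1 + E)) ^ 2 / (4 * E) := Mgf_c q E hE0
          have h4 : (0 : ℝ) < 4 * E := by linarith
          rw [h1, le_div_iff₀ h4]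
          exact Mgf_sq q E S
      _ = q ^ (2 * (N + 1)) * c ^ (N + 1) := by
          rw [hW]
          ring

end H40.OS
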