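import Pool.Agent.H40.OS.Che

/-!
# Several passes: the deterministic bound
-/

set_option autoImplicit false

namespace H40.OS

open H40.LS

namespace Prm

variable (p : Prm)

/-- The part of the bound for a copy without the noise. -/
noncomputable def Gb (z : ℝ) (b ub : ℕ) : ℝ :=
  p.L * (((p.K : ℝ) + 3 * p.R) ^ p.h / z ^ b + ((p.K : ℝ) + 6 * p.R) ^ p.h / 2 ^ ub)
    + ((p.K : ℝ) + 6 * p.R) ^ p.h

theorem sum_cb {σ : Type} (step : ℕ → σ → ℕ → σ) {z θ : ℝ} (hz : 1 ≤ z) (hθ : 0 < θ)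
    (b ub D : ℕ) (q0 : σ) (A : ℕ → p.Sm) (m : ℕ) :
    ∑ c ∈ Finset.range m, p.cb step z b ub D q0 (p.hid A) (p.ofs A) c
      ≤ m * (p.Gb z b ub + θ) + p.L * ((p.K : ℝ) + 3 * p.R) ^ p.h *
        p.zn step b ub D θ q0 A m := by
  classical
  set M0 := (p.L : ℝ) * ((p.K : ℝ) + 3 * p.R) ^ p.h with hM0
  have hM0' : 0 ≤ M0 := by
    rw [hM0]
    positivity
  have hG0 : 0 ≤ p.Gb z b ub := by
    unfold Gb
    positivity
  have h1 : ∀ c ∈ Finset.range m, p.cb step z b ub D q0 (p.hid A) (p.ofs A) c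
      ≤ (p.Gb z b ub + θ) + M0 *
        (if θ ≤ p.noise step b ub D q0 (p.hid A) (p.ofs A) c then 1 else 0) := by
    intro c _
    by_cases hc : θ ≤ p.noise step b ub D q0 (p.hid A) (p.ofs A) c
    · rw [if_pos hc, mul_one]
      have h2 : p.cb step z b ub D q0 (p.hid A) (p.ofs A) c ≤ M0 := min_le_left _ _
      linarith
    · rw [if_neg hc, mul_zero, add_zero]
      have h2 : p.cb step z b ub D q0 (p.hid A) (p.ofs A) c
          ≤ p.Gb z b ub + p.noise step b ub D q0 (p.hid A) (p.ofs A) c := min_le_right _ _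
      have h3 := not_le.1 hc
      linarith
  refine (Finset.sum_le_sum h1).trans (le_of_eq ?_)
  rw [Finset.sum_add_distrib, Finset.sum_const, Finset.card_range, nsmul_eq_mul, ← Finset.mul_sum]
  congr 2
  unfold zn
  rw [Finset.sum_boole]

open Classical in
theorem det_multi [NeZero p.Q] {κ s : ℕ} (M : Alg κ s) {z : ℝ} (h1 : Par p.K p.R 1 z)
    (h2 : Par p.K p.R 2 1) (b ub D : ℕ) (a0 : p.Sm) (m Z0 : ℕ)
    (r : (Fin m → p.Sm) → ℕ) {Y θ : ℝ} (hY : 0 ≤ Y) (hθ : 0 < θ)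
    (hsm : Y * (1 + m * (p.Gb z b ub + θ) + p.L * ((p.K : ℝ) + 3 * p.R) ^ p.h * Z0)
      < m * (p.L * ((p.K : ℝ) + 3 * p.R) ^ p.h)) :
    ∑ A : Fin m → p.Sm, Set.indicator {A : Fin m → p.Sm |
      (LIS (p.tst a0 A (r A)) : ℝ) ≤ Y * M.out (p.tst a0 A (r A)) ∧ ¬ p.Over a0 D r M.out A}
        (fun _ => (1 : ℝ)) A
      ≤ (Fintype.card p.Sm : ℝ) ^ m *
        (m * p.P * 4 ^ (κ * s) * Real.exp (-(D : ℝ) ^ 2 / (2 * p.N))
        + m * p.nT * p.N * (2 * p.L / p.Q)
        + 2 ^ (κ * s) * (1 + p.En b ub D / θ) ^ m / 2 ^ Z0) := by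
  have hR := h1.hR
  have hz1 := h1.hz1
  set M0 := (p.L : ℝ) * ((p.K : ℝ) + 3 * p.R) ^ p.h with hM0
  have hM0' : 0 ≤ M0 := by
    rw [hM0]
    positivity
  have htyp := p.typ_count M.pstep M.card_states a0 D m
  have hnw := p.nw_count a0 m
  have hzn := p.count_zn M.pstep M.card_states hR b ub D hθ Z0 a0 m
  have hpt : ∀ A : Fin m → p.Sm, Set.indicator {A : Fin m → p.Sm |
      (LIS (p.tst a0 A (r A)) : ℝ) ≤ Y * M.out (p.tst a0 A (r A)) ∧ ¬ p.Over a0 D r M.out A}
        (fun _ => (1 : ℝ)) A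
      ≤ (if ¬ p.Typ M.pstep D m (p.hid (toF a0 A)) (p.ofs (toF a0 A)) then 1 else 0)
        + (if ¬ p.NW m (p.ofs (toF a0 A)) then 1 else 0)
        + (if ∃ q0 : Fin κ → M.Q, Z0 ≤ p.zn M.pstep b ub D θ q0 (toF a0 A) m then 1 else 0) := by
    intro A
    have e1 : (0 : ℝ) ≤ (if ¬ p.Typ M.pstep D m (p.hid (toF a0 A)) (p.ofs (toF a0 A))
        then 1 else 0) := by split_ifs <;> norm_num
    have e2 : (0 : ℝ) ≤ (if ¬ p.NW m (p.ofs (toF a0 A)) then 1 else 0) := by
      split_ifs <;> norm_num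
    have e3 : (0 : ℝ) ≤ (if ∃ q0 : Fin κ → M.Q, Z0 ≤ p.zn M.pstep b ub D θ q0 (toF a0 A) m
        then 1 else 0) := by split_ifs <;> norm_num
    by_cases hA : A ∈ {A : Fin m → p.Sm |
      (LIS (p.tst a0 A (r A)) : ℝ) ≤ Y * M.out (p.tst a0 A (r A)) ∧ ¬ p.Over a0 D r M.out A}
    · rw [Set.indicator_of_mem hA]
      obtain ⟨hsucc, hO⟩ := hA
      by_cases hT : p.Typ M.pstep D m (p.hid (toF a0 A)) (p.ofs (toF a0 A))
      · by_cases hN : p.NW m (p.ofs (toF a0 A))
        · by_cases hZ : ∃ q0 : Fin κ → M.Q, Z0 ≤ p.zn M.pstep b ub D θ q0 (toF a0 A) m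
          · rw [if_pos hZ]
            linarith
          · exfalso
            push Not at hZ
            have h3 := p.core M h1 h2 b ub D a0 A r hT hN hO
            have h4 := p.sum_cb M.pstep hz1 hθ b ub D (M.starts (p.tst a0 A (r A))) (toF a0 A) m
            have h5 := p.lis_up (Af := p.hid (toF a0 A)) (fun c l => ext_lt hR _ l)
              (p.ofs (toF a0 A)) m hN (List.replicate (r A) 1)
            have h6 : m * M0 ≤ (LIS (p.tst a0 A (r A)) : ℝ) := by
              rw [hM0]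
              unfold tst
              exact_mod_cast h5
            have h7 : (p.zn M.pstep b ub D θ (M.starts (p.tst a0 A (r A))) (toF a0 A) m : ℝ)
                ≤ Z0 := by exact_mod_cast (hZ _).le
            have h8 := mul_le_mul_of_nonneg_left h7 hM0'
            have h9 : M.out (p.tst a0 A (r A)) ≤ 1 + m * (p.Gb z b ub + θ) + M0 * Z0 := by
              linarith
            have h10 := mul_le_mul_of_nonneg_left h9 hY
            linarith
        · rw [if_pos hN]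
          linarith
      · rw [if_pos hT]
        linarith
    · rw [Set.indicator_of_notMem hA]
      linarith
  refine (Finset.sum_le_sum fun A _ => hpt A).trans ?_
  rw [Finset.sum_add_distrib, Finset.sum_add_distrib, Finset.sum_boole, Finset.sum_boole,
    Finset.sum_boole, mul_add, mul_add]
  refine add_le_add (add_le_add htyp hnw) ?_
  rw [mul_div_assoc', le_div_iff₀ (by positivity)]
  refine hzn.trans (le_of_eq ?_)
  rw [mul_pow]
  ring

end Prm

end H40.OS
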