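import Pool.Agent.H40.LS.PNum

/-!
# The size of the parameters, algebraic part
-/

set_option autoImplicit false

namespace H40.OS

open H40.LS

theorem numA {q g : ℕ} (hq : 3 ≤ q) :
    (2 ^ (q * g) * (((Kq q : ℝ) + 3 * Rq q) ^ (q * g) / zq q ^ g
        + ((Kq q : ℝ) + 6 * Rq q) ^ (q * g) / 2 ^ g) + ((Kq q : ℝ) + 6 * Rq q) ^ (q * g)
      ≤ 3 * xq q ^ g * (2 ^ (q * g) * ((Kq q : ℝ) + 3 * Rq q) ^ (q * g))) ∧
    (1 ≤ xq q ^ g * (2 ^ (q * g) * ((Kq q : ℝ) + 3 * Rq q) ^ (q * g))) ∧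
    (((Kq q : ℝ) + 4 * Rq q) ^ (q * g) * 2 ^ (q * g) *
        ((Rq q : ℝ) ^ ((q - 3) * g) * (2 ^ (q * g) * (Rq q : ℝ) ^ (g + g)))
        / (Rq q : ℝ) ^ (q * g)
      ≤ (1 / 4) ^ g * (2 ^ (q * g) * ((Kq q : ℝ) + 3 * Rq q) ^ (q * g))) := by
  have hR : (1 : ℝ) ≤ Rq q := by exact_mod_cast Rq_pos q
  have hR0 : (0 : ℝ) < Rq q := by linarith
  have hKq : (Kq q : ℝ) = 9 * q * Rq q := by
    unfold Kq
    push_cast
    ring
  have hq1 : (3 : ℝ) ≤ q := by exact_mod_cast hq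
  have hx1 := xq_ge q
  have hz : (zq q)⁻¹ ≤ xq q := le_max_left _ _
  have hz1 : 1 ≤ zq q := (parz hq).hz1
  have hR4 : (4 : ℝ) * 4 ^ q ≤ Rq q := by
    have h1 : 4 * 4 ^ q ≤ Rq q := by
      unfold Rq
      rw [pow_succ, mul_comm (4 ^ q) 4]
      exact Nat.le_mul_of_pos_right _ (by positivity)
    exact_mod_cast h1
  have hqg : (q - 3) * g + (g + g) + g = q * g := by
    obtain ⟨m, rfl⟩ := Nat.exists_eq_add_of_le' hq
    rw [Nat.add_sub_cancel]
    ring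
  rw [hKq]
  generalize (Rq q : ℝ) = R at *
  generalize zq q = z at *
  generalize xq q = ξ at *
  have hN0 : (0 : ℝ) < (9 * q * R + 3 * R) ^ (q * g) := by positivity
  have hx0 : (0 : ℝ) < ξ := by linarith
  -- first term
  have t1 : (9 * q * R + 3 * R) ^ (q * g) / z ^ g ≤ ξ ^ g * (9 * q * R + 3 * R) ^ (q * g) := by
    rw [div_eq_mul_inv, ← inv_pow, mul_comm]
    exact mul_le_mul_of_nonneg_right (pow_le_pow_left₀ (by positivity) hz g) hN0.le
  have h32 : (9 * q * R + 6 * R) ^ (q * g) ≤ (3 / 2) ^ g * (9 * q * R + 3 * R) ^ (q * g) := by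
    have h1 : (9 * q * R + 6 * R) ^ q ≤ 3 / 2 * (9 * q * R + 3 * R) ^ q := by
      have h2 := num2 hq
      have e1 : 9 * q * R + 6 * R = (9 * q + 6) * R := by ring
      have e2 : 9 * q * R + 3 * R = (9 * q + 3) * R := by ring
      rw [e1, e2, mul_pow, mul_pow]
      have := mul_le_mul_of_nonneg_right h2 (show 0 ≤ R ^ q by positivity)
      linarith
    rw [pow_mul, pow_mul, ← mul_pow]
    exact pow_le_pow_left₀ (by positivity) h1 g
  -- second term
  have t2 : (9 * q * R + 6 * R) ^ (q * g) / 2 ^ g ≤ ξ ^ g * (9 * q * R + 3 * R) ^ (q * g) := by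
    rw [div_le_iff₀ (by positivity)]
    calc (9 * q * R + 6 * R) ^ (q * g) ≤ (3 / 2) ^ g * (9 * q * R + 3 * R) ^ (q * g) := h32
      _ = (3 / 4) ^ g * (9 * q * R + 3 * R) ^ (q * g) * 2 ^ g := by
        have e1 : (3 / 2 : ℝ) ^ g = (3 / 4) ^ g * 2 ^ g := by
          rw [← mul_pow]
          norm_num
        rw [e1]
        ring
      _ ≤ _ := by
        apply mul_le_mul_of_nonneg_right _ (by positivity)
        apply mul_le_mul_of_nonneg_right _ (by positivity)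
        exact pow_le_pow_left₀ (by norm_num) hx1 g
  -- third term
  have h2q : (2 : ℝ) ^ g ≤ 2 ^ (q * g) :=
    pow_le_pow_right₀ (by norm_num) (Nat.le_mul_of_pos_left _ (by omega))
  have t3 : (9 * q * R + 6 * R) ^ (q * g)
      ≤ ξ ^ g * (2 ^ (q * g) * (9 * q * R + 3 * R) ^ (q * g)) := by
    have h1 : (3 / 2 : ℝ) ^ g ≤ ξ ^ g * 2 ^ (q * g) := by
      calc (3 / 2 : ℝ) ^ g = (3 / 4) ^ g * 2 ^ g := by
            rw [← mul_pow]
            norm_num
        _ ≤ ξ ^ g * 2 ^ (q * g) :=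
            mul_le_mul (pow_le_pow_left₀ (by norm_num) hx1 g) h2q (by positivity)
              (by positivity)
    calc _ ≤ (3 / 2) ^ g * (9 * q * R + 3 * R) ^ (q * g) := h32
      _ ≤ (ξ ^ g * 2 ^ (q * g)) * (9 * q * R + 3 * R) ^ (q * g) :=
          mul_le_mul_of_nonneg_right h1 hN0.le
      _ = _ := by ring
  have h2p : (0 : ℝ) < 2 ^ (q * g) := by positivity
  refine ⟨?_, ?_, ?_⟩
  · have := mul_le_mul_of_nonneg_left (add_le_add t1 t2) h2p.le
    nlinarith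
  · have h1 : (1 : ℝ) ≤ ξ ^ g * 2 ^ (q * g) := by
      calc (1 : ℝ) ≤ (ξ * 2) ^ g := one_le_pow₀ (by linarith)
        _ = ξ ^ g * 2 ^ g := mul_pow _ _ _
        _ ≤ _ := mul_le_mul_of_nonneg_left h2q (by positivity)
    have h2 : (1 : ℝ) ≤ (9 * q * R + 3 * R) ^ (q * g) := one_le_pow₀ (by nlinarith)
    rw [← mul_assoc]
    exact one_le_mul_of_one_le_of_one_le h1 h2
  · rw [div_le_iff₀ (by positivity)]
    have h1 : (9 * q * R + 4 * R) ^ (q * g) ≤ 2 ^ (q * g) * (9 * q * R + 3 * R) ^ (q * g) := by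
      rw [← mul_pow]
      apply pow_le_pow_left₀ (by positivity)
      nlinarith
    have h2 : R ^ ((q - 3) * g) * R ^ (g + g) * R ^ g = R ^ (q * g) := by
      rw [← pow_add, ← pow_add, hqg]
    have h3 : (2 : ℝ) ^ (q * g) * 2 ^ (q * g) ≤ (1 / 4) ^ g * R ^ g := by
      calc (2 : ℝ) ^ (q * g) * 2 ^ (q * g) = (4 ^ q) ^ g := by
            rw [← mul_pow, ← pow_mul]
            norm_num
        _ ≤ (1 / 4 * R) ^ g := pow_le_pow_left₀ (by positivity) (by linarith) g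
        _ = _ := mul_pow _ _ _
    calc (9 * q * R + 4 * R) ^ (q * g) * 2 ^ (q * g) *
          (R ^ ((q - 3) * g) * (2 ^ (q * g) * R ^ (g + g)))
        ≤ (2 ^ (q * g) * (9 * q * R + 3 * R) ^ (q * g)) * 2 ^ (q * g) *
          (R ^ ((q - 3) * g) * (2 ^ (q * g) * R ^ (g + g))) := by
          apply mul_le_mul_of_nonneg_right _ (by positivity)
          exact mul_le_mul_of_nonneg_right h1 h2p.le
      _ = (2 ^ (q * g) * (9 * q * R + 3 * R) ^ (q * g)) * (R ^ ((q - 3) * g) * R ^ (g + g)) *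
          (2 ^ (q * g) * 2 ^ (q * g)) := by ring
      _ ≤ (2 ^ (q * g) * (9 * q * R + 3 * R) ^ (q * g)) * (R ^ ((q - 3) * g) * R ^ (g + g)) *
          ((1 / 4) ^ g * R ^ g) := mul_le_mul_of_nonneg_left h3 (by positivity)
      _ = (1 / 4) ^ g * (2 ^ (q * g) * (9 * q * R + 3 * R) ^ (q * g)) *
          (R ^ ((q - 3) * g) * R ^ (g + g) * R ^ g) := by ring
      _ = _ := by rw [h2]

end H40.OS
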