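import Pool.Agent.H40.OS.Core

/-!
# One pass: the deterministic bound
-/

set_option autoImplicit false

namespace H40.OS

open H40.LS

namespace Prm

variable (p : Prm)

theorem sum_noise_one [NeZero p.Q] {σ : Type} (step : ℕ → σ → ℕ → σ) (hR : 1 ≤ p.R)
    (b ub D : ℕ) (q0 : σ) (a0 : p.Sm) :
    ∑ A : Fin 1 → p.Sm, (p.noise step b ub D q0 (p.hid (toF a0 A)) (p.ofs (toF a0 A)) 0 : ℝ)
      ≤ (Fintype.card p.Sm : ℝ) * (p.P * (D * (2 ^ p.h * (p.R : ℝ) ^ (b + ub))) /
        (p.R : ℝ) ^ p.h) := by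
  have hR' : (0 : ℝ) < p.R := by exact_mod_cast hR
  have h1 := p.exp_noise step hR b ub D q0 (fun _ => a0) 0
  have h2 : ∑ A : Fin 1 → p.Sm, (p.noise step b ub D q0 (p.hid (toF a0 A))
      (p.ofs (toF a0 A)) 0 : ℝ) = ∑ a : p.Sm, (p.noise step b ub D q0
      (p.hid (Function.update (fun _ => a0) 0 a)) (p.ofs (Function.update (fun _ => a0) 0 a)) 0
        : ℝ) := by
    rw [← (Equiv.funUnique (Fin 1) p.Sm).symm.sum_comp]
    apply Finset.sum_congr rfl
    intro a _
    have h3 : toF a0 ((Equiv.funUnique (Fin 1) p.Sm).symm a)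
        = Function.update (fun _ => a0) 0 a := by
      funext c
      unfold toF
      by_cases hc : c < 1
      · have hc0 : c = 0 := by omega
        subst hc0
        rw [dif_pos hc, Function.update_self]
        rfl
      · rw [dif_neg hc, Function.update_of_ne (by omega)]
    rw [h3]
  rw [h2, ← mul_div_assoc, le_div_iff₀ (by positivity)]
  have h3 : ((∑ a : p.Sm, p.noise step b ub D q0 (p.hid (Function.update (fun _ => a0) 0 a))
      (p.ofs (Function.update (fun _ => a0) 0 a)) 0 : ℕ) : ℝ) * (p.R : ℝ) ^ p.h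
      ≤ p.P * (D * (2 ^ p.h * (p.R : ℝ) ^ (b + ub))) * Fintype.card p.Sm := by
    exact_mod_cast h1
  push_cast at h3
  linarith

open Classical in
theorem det_one [NeZero p.Q] {s : ℕ} (M : Alg 1 s) {z : ℝ} (h1 : Par p.K p.R 1 z)
    (h2 : Par p.K p.R 2 1) (hL : 1 ≤ p.L) (b ub D : ℕ) (a0 : p.Sm)
    (r : (Fin 1 → p.Sm) → ℕ) {Y : ℝ} (hY : 0 ≤ Y) :
    ∑ A : Fin 1 → p.Sm, Set.indicator {A : Fin 1 → p.Sm |
      (LIS (p.tst a0 A (r A)) : ℝ) ≤ Y * M.out (p.tst a0 A (r A)) ∧ ¬ p.Over a0 D r M.out A}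
        (fun _ => (1 : ℝ)) A
      ≤ (Fintype.card p.Sm : ℝ) * (p.P * 4 ^ s * Real.exp (-(D : ℝ) ^ 2 / (2 * p.N))
        + p.nT * p.N * (2 * p.L / p.Q)
        + Y / (p.L * ((p.K : ℝ) + 3 * p.R) ^ p.h) * (1 +
          (p.L * (((p.K : ℝ) + 3 * p.R) ^ p.h / z ^ b + ((p.K : ℝ) + 6 * p.R) ^ p.h / 2 ^ ub)
            + ((p.K : ℝ) + 6 * p.R) ^ p.h)
          + p.P * (D * (2 ^ p.h * (p.R : ℝ) ^ (b + ub))) / (p.R : ℝ) ^ p.h)) := by
  have hR := h1.hR
  have hR' : (0 : ℝ) < p.R := by exact_mod_cast hR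
  have hL' : (0 : ℝ) < p.L := by exact_mod_cast hL
  have hM0 : (0 : ℝ) < p.L * ((p.K : ℝ) + 3 * p.R) ^ p.h := by positivity
  set M0 := (p.L : ℝ) * ((p.K : ℝ) + 3 * p.R) ^ p.h with hM0def
  set G := (p.L : ℝ) * (((p.K : ℝ) + 3 * p.R) ^ p.h / z ^ b +
    ((p.K : ℝ) + 6 * p.R) ^ p.h / 2 ^ ub) + ((p.K : ℝ) + 6 * p.R) ^ p.h with hG
  have hz1 := h1.hz1
  have hG0 : 0 ≤ G := by
    rw [hG]
    positivity
  have htyp := p.typ_count M.pstep (S := 1 * s) M.card_states a0 D 1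
  have hnw := p.nw_count a0 1
  have hnoise := p.sum_noise_one M.pstep hR b ub D (fun _ => M.start) a0
  have hstart : ∀ l, M.starts l = fun _ => M.start := by
    intro l
    funext κ
    unfold Alg.starts
    have : (κ : ℕ) = 0 := by omega
    rw [this]
    rfl
  have hpt : ∀ A : Fin 1 → p.Sm, Set.indicator {A : Fin 1 → p.Sm |
      (LIS (p.tst a0 A (r A)) : ℝ) ≤ Y * M.out (p.tst a0 A (r A)) ∧ ¬ p.Over a0 D r M.out A}
        (fun _ => (1 : ℝ)) A
      ≤ (if ¬ p.Typ M.pstep D 1 (p.hid (toF a0 A)) (p.ofs (toF a0 A)) then 1 else 0)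
        + (if ¬ p.NW 1 (p.ofs (toF a0 A)) then 1 else 0)
        + Y / M0 * (1 + G + p.noise M.pstep b ub D (fun _ => M.start) (p.hid (toF a0 A))
          (p.ofs (toF a0 A)) 0) := by
    intro A
    have hn0 : (0 : ℝ) ≤ p.noise M.pstep b ub D (fun _ => M.start) (p.hid (toF a0 A))
          (p.ofs (toF a0 A)) 0 := Nat.cast_nonneg _
    have hlast : 0 ≤ Y / M0 * (1 + G + p.noise M.pstep b ub D (fun _ => M.start)
        (p.hid (toF a0 A)) (p.ofs (toF a0 A)) 0) := by positivity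
    by_cases hA : A ∈ {A : Fin 1 → p.Sm |
      (LIS (p.tst a0 A (r A)) : ℝ) ≤ Y * M.out (p.tst a0 A (r A)) ∧ ¬ p.Over a0 D r M.out A}
    · rw [Set.indicator_of_mem hA]
      obtain ⟨hsucc, hO⟩ := hA
      by_cases hT : p.Typ M.pstep D 1 (p.hid (toF a0 A)) (p.ofs (toF a0 A))
      · by_cases hN : p.NW 1 (p.ofs (toF a0 A))
        · rw [if_neg (not_not.2 hT), if_neg (not_not.2 hN), zero_add, zero_add]
          have h3 := p.core M h1 h2 b ub D a0 A r hT hN hO
          rw [hstart, Finset.sum_range_one] at h3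
          have h4 : p.cb M.pstep z b ub D (fun _ => M.start) (p.hid (toF a0 A))
              (p.ofs (toF a0 A)) 0 ≤ G + p.noise M.pstep b ub D (fun _ => M.start)
              (p.hid (toF a0 A)) (p.ofs (toF a0 A)) 0 := min_le_right _ _
          have h5 := p.lis_up (Af := p.hid (toF a0 A)) (fun c l => ext_lt hR _ l)
            (p.ofs (toF a0 A)) 1 hN (List.replicate (r A) 1)
          have h6 : M0 ≤ (LIS (p.tst a0 A (r A)) : ℝ) := by
            rw [hM0def]
            unfold tst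
            rw [one_mul] at h5
            exact_mod_cast h5
          rw [div_mul_eq_mul_div, le_div_iff₀ hM0, one_mul]
          calc M0 ≤ Y * M.out (p.tst a0 A (r A)) := h6.trans hsucc
            _ ≤ _ := mul_le_mul_of_nonneg_left (by linarith) hY
        · rw [if_pos hN]
          split_ifs <;> linarith
      · rw [if_pos hT]
        split_ifs <;> linarith
    · rw [Set.indicator_of_notMem hA]
      have e1 : (0 : ℝ) ≤ (if ¬ p.Typ M.pstep D 1 (p.hid (toF a0 A)) (p.ofs (toF a0 A))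
          then 1 else 0) := by split_ifs <;> norm_num
      have e2 : (0 : ℝ) ≤ (if ¬ p.NW 1 (p.ofs (toF a0 A)) then 1 else 0) := by
        split_ifs <;> norm_num
      linarith
  refine (Finset.sum_le_sum fun A _ => hpt A).trans ?_
  rw [Finset.sum_add_distrib, Finset.sum_add_distrib, ← Finset.mul_sum, Finset.sum_add_distrib,
    Finset.sum_boole, Finset.sum_boole, Finset.sum_const, Finset.card_univ, Fintype.card_fun,
    Fintype.card_fin, pow_one, nsmul_eq_mul]
  rw [pow_one, Nat.cast_one, one_mul, one_mul] at htyp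
  rw [pow_one, Nat.cast_one, one_mul] at hnw
  have hlast := mul_le_mul_of_nonneg_left (add_le_add_right hnoise
    ((Fintype.card p.Sm : ℝ) * (1 + G))) (show 0 ≤ Y / M0 by positivity)
  calc _ ≤ (Fintype.card p.Sm : ℝ) * (p.P * 4 ^ s * Real.exp (-(D : ℝ) ^ 2 / (2 * p.N)))
        + (Fintype.card p.Sm : ℝ) * (p.nT * p.N * (2 * p.L / p.Q))
        + Y / M0 * ((Fintype.card p.Sm : ℝ) * (1 + G) + (Fintype.card p.Sm : ℝ) *
          (p.P * (D * (2 ^ p.h * (p.R : ℝ) ^ (b + ub))) / (p.R : ℝ) ^ p.h)) :=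
        add_le_add (add_le_add htyp hnw) hlast
    _ = _ := by ring

end Prm

end H40.OS
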