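import Pool.Agent.H40.OS.Mach
import Pool.Agent.H40.OS.Entry

/-!
# The elements of an increasing subsequence of the stream

Let `T = (List.range (m * P)).flatMap fun k => (ents Af k (f k)).map fun e => (cop k, e)`, so
`strm = T.map fun x => vl x.1 x.2`.  For `x` before `y` in `T`: `x.1 < y.1`, or `x.1 = y.1` and
`tlt (tm x) (tm y)` or the times are equal and the substep of `x` is smaller (`tau_lt`), or `x`, `y`
are in the same block and `vl y < vl x` (`tickAt_sorted`, offsets `< Q`).  A sublist `t` of the stream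
is the image of a sublist `T'` of `T` (`List.sublist_map_iff`); as `t` is increasing the last case is
impossible in `T'` and the values increase, so `T'` has no duplicates.  `E c` is the set of all `e`
with `(c, e) ∈ T'`.
-/

set_option autoImplicit false

namespace H40.OS

open H40.LS

namespace Prm

variable (p : Prm)

/-- the list of the elements with their copies -/
private def Tag_T (Af : ℕ → List ℕ → ℕ) (f : ℕ → Fin p.N → ZMod p.Q) (n : ℕ) :
    List (ℕ × (List (ℕ × ℕ) × ℕ × ℕ)) :=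
  (List.range n).flatMap fun k => (p.ents Af k (f k)).map fun e => (p.cop k, e)

private theorem Tag_strm (Af : ℕ → List ℕ → ℕ) (f : ℕ → Fin p.N → ZMod p.Q) (n : ℕ) :
    p.strm Af f n = (Tag_T p Af f n).map fun x => p.vl x.1 x.2 := by
  unfold strm Tag_T bl
  rw [List.map_flatMap]
  congr 1
  funext k
  rw [List.map_map]
  rfl

/-- `x` comes before `y` -/
private def Tag_R (x y : ℕ × (List (ℕ × ℕ) × ℕ × ℕ)) : Prop :=
  x.1 < y.1 ∨ (x.1 = y.1 ∧ (tlt (tm x.2.1) (tm y.2.1) ∨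
    (tm x.2.1 = tm y.2.1 ∧ x.2.2.1 < y.2.2.1)))

private theorem Tag_off [NeZero p.Q] {N : ℕ} (v : Fin N → ZMod p.Q) (i : ℕ) : off v i < p.Q := by
  unfold off
  split_ifs with h
  · exact ZMod.val_lt _
  · exact Nat.pos_of_ne_zero (NeZero.ne _)

private theorem Tag_mem {Af : ℕ → List ℕ → ℕ} {k : ℕ} {v : Fin p.N → ZMod p.Q}
    {e : List (ℕ × ℕ) × ℕ × ℕ} (he : e ∈ p.ents Af k v) :
    ∃ n, ∃ hn : n < (p.cells Af k).length, e = ((p.cells Af k)[n], p.sub k, off v n) := by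
  unfold ents at he
  obtain ⟨n, hn, h⟩ := List.mem_mapIdx.1 he
  exact ⟨n, hn, h.symm⟩

private theorem Tag_tm {Af : ℕ → List ℕ → ℕ} {k : ℕ} {v : Fin p.N → ZMod p.Q}
    {e : List (ℕ × ℕ) × ℕ × ℕ} (he : e ∈ p.ents Af k v) : tm e.1 = p.tau k ∧ e.2.1 = p.sub k := by
  obtain ⟨n, hn, rfl⟩ := Tag_mem p he
  exact ⟨(mem_tickAt (List.getElem_mem hn)).1, rfl⟩

private theorem Tag_pw [NeZero p.Q] {Af : ℕ → List ℕ → ℕ} (hA : ∀ c l, Af c l < p.R)
    (f : ℕ → Fin p.N → ZMod p.Q) (m : ℕ) :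
    (Tag_T p Af f (m * p.P)).Pairwise
      (fun x y => Tag_R x y ∨ p.vl y.1 y.2 < p.vl x.1 x.2) := by
  unfold Tag_T
  rw [List.pairwise_flatMap]
  constructor
  · intro k hk
    have hk' : k < m * p.P := List.mem_range.1 hk
    rw [List.pairwise_map]
    have hs : (p.cells Af k).Pairwise (fun x y =>
        code (p.K + 4 * p.R) (2 * p.R * (p.K + 4 * p.R)) y <
          code (p.K + 4 * p.R) (2 * p.R * (p.K + 4 * p.R)) x) :=
      tickAt_sorted (hA _) (mem_times.1 (p.tau_mem hk')).2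
    rw [List.pairwise_iff_getElem] at hs ⊢
    intro i j hi hj hij
    right
    have hi' : i < (p.cells Af k).length := by
      unfold ents at hi
      rwa [List.length_mapIdx] at hi
    have hj' : j < (p.cells Af k).length := by
      unfold ents at hj
      rwa [List.length_mapIdx] at hj
    have ei : (p.ents Af k (f k))[i] = ((p.cells Af k)[i], p.sub k, off (f k) i) := by
      unfold ents
      rw [List.getElem_mapIdx]
    have ej : (p.ents Af k (f k))[j] = ((p.cells Af k)[j], p.sub k, off (f k) j) := by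
      unfold ents
      rw [List.getElem_mapIdx]
    rw [ei, ej]
    have h1 := hs i j hi' hj' hij
    have h2 := Tag_off p (f k) j
    unfold vl val
    simp only
    have h3 : (code (p.K + 4 * p.R) (2 * p.R * (p.K + 4 * p.R)) (p.cells Af k)[j] + 1 +
        p.cop k * wid p.K p.R p.h) + 1 ≤
        code (p.K + 4 * p.R) (2 * p.R * (p.K + 4 * p.R)) (p.cells Af k)[i] + 1 +
        p.cop k * wid p.K p.R p.h := by omega
    have h4 := Nat.mul_le_mul_right p.Q h3
    rw [Nat.add_mul, Nat.one_mul] at h4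
    omega
  · refine List.Pairwise.imp_of_mem ?_ (List.pairwise_lt_range (n := m * p.P))
    intro k k' hk hk' hkk x hx y hy
    obtain ⟨e, he, rfl⟩ := List.mem_map.1 hx
    obtain ⟨e', he', rfl⟩ := List.mem_map.1 hy
    obtain ⟨a1, a2⟩ := Tag_tm p he
    obtain ⟨b1, b2⟩ := Tag_tm p he'
    left
    rcases p.tau_lt hkk (List.mem_range.1 hk') with h | ⟨h, h'⟩
    · exact Or.inl h
    · refine Or.inr ⟨h, ?_⟩
      show tlt (tm e.1) (tm e'.1) ∨ (tm e.1 = tm e'.1 ∧ e.2.1 < e'.2.1)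
      rw [a1, b1, a2, b2]
      rcases h' with h' | ⟨h1, h2⟩
      · exact Or.inl h'
      · refine Or.inr ⟨?_, h2⟩
        unfold tau
        rw [h1]

theorem exists_ents [NeZero p.Q] {Af : ℕ → List ℕ → ℕ} (hA : ∀ c l, Af c l < p.R)
    (f : ℕ → Fin p.N → ZMod p.Q) (m : ℕ) (t : List ℕ)
    (ht : t.Sublist (p.strm Af f (m * p.P))) (hinc : t.Pairwise (· < ·)) :
    ∃ E : ℕ → Finset (List (ℕ × ℕ) × ℕ × ℕ), t.length = ∑ c ∈ Finset.range m, (E c).card ∧
      (∀ c < m, ∀ e ∈ E c, ∃ k < m * p.P, p.cop k = c ∧ ∃ n, ∃ hn : n < (p.cells Af k).length,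
        e = ((p.cells Af k)[n], p.sub k, off (f k) n)) ∧
      ∀ c < m, ∀ e ∈ E c, ∀ e' ∈ E c, e ≠ e' →
        Before p.K p.R p.Q e e' ∨ Before p.K p.R p.Q e' e := by
  classical
  rw [Tag_strm] at ht
  obtain ⟨T', hT', rfl⟩ := List.sublist_map_iff.1 ht
  rw [List.pairwise_map] at hinc
  have hpw := (Tag_pw p hA f m).sublist hT'
  have hboth : T'.Pairwise (fun x y => p.vl x.1 x.2 < p.vl y.1 y.2 ∧ Tag_R x y) := by
    refine (hinc.and hpw).imp ?_
    rintro x y ⟨h1, h2 | h2⟩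
    · exact ⟨h1, h2⟩
    · omega
  have hnd : T'.Nodup := by
    refine hinc.imp ?_
    rintro x y h rfl
    omega
  have hsym : T'.Pairwise (fun x y => (p.vl x.1 x.2 < p.vl y.1 y.2 ∧ Tag_R x y) ∨
      (p.vl y.1 y.2 < p.vl x.1 x.2 ∧ Tag_R y x)) := hboth.imp fun h => Or.inl h
  have hall : ∀ x ∈ T', ∀ y ∈ T', x ≠ y → (p.vl x.1 x.2 < p.vl y.1 y.2 ∧ Tag_R x y) ∨
      (p.vl y.1 y.2 < p.vl x.1 x.2 ∧ Tag_R y x) := by
    intro x hx y hy hxy
    haveI : Std.Symm (fun x y : ℕ × (List (ℕ × ℕ) × ℕ × ℕ) =>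
        (p.vl x.1 x.2 < p.vl y.1 y.2 ∧ Tag_R x y) ∨
        (p.vl y.1 y.2 < p.vl x.1 x.2 ∧ Tag_R y x)) := ⟨fun x y h => h.symm⟩
    exact hsym.forall hx hy hxy
  have hmem : ∀ x ∈ T', ∃ k < m * p.P, x.1 = p.cop k ∧ x.2 ∈ p.ents Af k (f k) := by
    intro x hx
    have h1 := hT'.subset hx
    unfold Tag_T at h1
    obtain ⟨k, hk, h2⟩ := List.mem_flatMap.1 h1
    obtain ⟨e, he, rfl⟩ := List.mem_map.1 h2
    exact ⟨k, List.mem_range.1 hk, rfl, he⟩
  let E : ℕ → Finset (List (ℕ × ℕ) × ℕ × ℕ) := fun c =>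
    (T'.toFinset.filter fun x => x.1 = c).image Prod.snd
  have hE : ∀ c e, e ∈ E c → (c, e) ∈ T' := by
    intro c e he
    obtain ⟨x, hx, rfl⟩ := Finset.mem_image.1 he
    obtain ⟨h1, h2⟩ := Finset.mem_filter.1 hx
    rw [← h2]
    exact List.mem_toFinset.1 h1
  refine ⟨E, ?_, ?_, ?_⟩
  · rw [List.length_map, ← List.toFinset_card_of_nodup hnd,
      Finset.card_eq_sum_card_fiberwise (f := Prod.fst) (t := Finset.range m)]
    · refine Finset.sum_congr rfl fun c _ => ?_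
      symm
      refine Finset.card_image_of_injOn ?_
      intro x hx y hy hxy
      have h1 := (Finset.mem_filter.1 (Finset.mem_coe.1 hx)).2
      have h2 := (Finset.mem_filter.1 (Finset.mem_coe.1 hy)).2
      exact Prod.ext (h1.trans h2.symm) hxy
    · intro x hx
      obtain ⟨k, hk, h1, -⟩ := hmem x (List.mem_toFinset.1 (Finset.mem_coe.1 hx))
      refine Finset.mem_coe.2 (Finset.mem_range.2 ?_)
      rw [h1]
      exact p.cop_lt hk
  · intro c hc e he
    obtain ⟨k, hk, h1, h2⟩ := hmem _ (hE c e he)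
    exact ⟨k, hk, h1.symm, Tag_mem p h2⟩
  · intro c hc e he e' he' hne
    have hne' : (c, e) ≠ (c, e') := fun h => hne (congrArg Prod.snd h)
    have key : ∀ e e' : List (ℕ × ℕ) × ℕ × ℕ, p.vl c e < p.vl c e' → Tag_R (c, e) (c, e') →
        Before p.K p.R p.Q e e' := by
      intro e e' h1 h2
      unfold vl at h1
      rw [Nat.add_mul, Nat.add_mul] at h1
      refine ⟨by omega, ?_⟩
      rcases h2 with h2 | ⟨-, h2⟩
      · exact absurd h2 (lt_irrefl _)
      · exact h2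
    rcases hall _ (hE c e he) _ (hE c e' he') hne' with ⟨h1, h2⟩ | ⟨h1, h2⟩
    · exact Or.inl (key e e' h1 h2)
    · exact Or.inr (key e' e h1 h2)

end Prm

end H40.OS
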