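import Pool.Agent.H40.OS.Mach

/-!
# Averaging over the offsets of one tick

The map `(A, v) ↦ (upd A c a v, (A c).2 a)` is an involution of the set of all pairs, so
`∑ A, ∑ v, g (upd A c a v) = card V * ∑ A, g A`; `count_upd` is the case of an indicator function.
-/

set_option autoImplicit false

namespace H40.OS

open H40.LS

namespace Prm

variable (p : Prm)

/-- Replace the offsets of the copy `c` at the tick `a`. -/
def upd {m : ℕ} (A : Fin m → p.Sm) (c : Fin m) (a : Fin p.nT) (v : Fin p.N → ZMod p.Q) :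
    Fin m → p.Sm :=
  Function.update A c ((A c).1, Function.update (A c).2 a v)

theorem hid_upd {m : ℕ} (a0 : p.Sm) (A : Fin m → p.Sm) (c : Fin m) (a : Fin p.nT)
    (v : Fin p.N → ZMod p.Q) : p.hid (toF a0 (p.upd A c a v)) = p.hid (toF a0 A) := by
  funext c'
  unfold hid toF
  by_cases h : c' < m
  · rw [dif_pos h, dif_pos h]
    unfold upd
    by_cases hc : (⟨c', h⟩ : Fin m) = c
    · rw [hc, Function.update_self]
    · rw [Function.update_of_ne hc]
  · rw [dif_neg h, dif_neg h]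

theorem ofs_upd {m : ℕ} (a0 : p.Sm) (A : Fin m → p.Sm) (c : Fin m) (a : Fin p.nT)
    (v : Fin p.N → ZMod p.Q) : p.ofs (toF a0 (p.upd A c a v)) c a = v := by
  unfold ofs
  rw [dif_pos a.isLt]
  unfold toF upd
  rw [dif_pos c.isLt]
  simp

private theorem upd_upd {m : ℕ} (A : Fin m → p.Sm) (c : Fin m) (a : Fin p.nT)
    (v : Fin p.N → ZMod p.Q) : p.upd (p.upd A c a v) c a ((A c).2 a) = A := by
  unfold upd
  simp

/-- the involution -/
private def updE {m : ℕ} (c : Fin m) (a : Fin p.nT) :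
    ((Fin m → p.Sm) × (Fin p.N → ZMod p.Q)) ≃ ((Fin m → p.Sm) × (Fin p.N → ZMod p.Q)) where
  toFun x := (p.upd x.1 c a x.2, (x.1 c).2 a)
  invFun x := (p.upd x.1 c a x.2, (x.1 c).2 a)
  left_inv := by
    rintro ⟨A, v⟩
    refine Prod.ext (p.upd_upd A c a v) ?_
    simp [upd]
  right_inv := by
    rintro ⟨A, v⟩
    refine Prod.ext (p.upd_upd A c a v) ?_
    simp [upd]

open Classical in
theorem count_upd [NeZero p.Q] {m : ℕ} (c : Fin m) (a : Fin p.nT) (Z : (Fin m → p.Sm) → Prop)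
    (B : ℝ) (hB : ∀ A, ((Finset.univ.filter fun v : Fin p.N → ZMod p.Q =>
      Z (p.upd A c a v)).card : ℝ) ≤ B * (p.Q : ℝ) ^ p.N) :
    ((Finset.univ.filter fun A : Fin m → p.Sm => Z A).card : ℝ)
      ≤ B * (Fintype.card p.Sm : ℝ) ^ m := by
  have hQ : (0 : ℝ) < (p.Q : ℝ) ^ p.N := by
    have : 0 < p.Q := Nat.pos_of_ne_zero (NeZero.ne p.Q)
    positivity
  have h1 : ∑ x : (Fin m → p.Sm) × (Fin p.N → ZMod p.Q),
      (if Z (p.upd x.1 c a x.2) then (1 : ℝ) else 0)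
      = ∑ x : (Fin m → p.Sm) × (Fin p.N → ZMod p.Q), (if Z x.1 then (1 : ℝ) else 0) :=
    Equiv.sum_comp (p.updE c a) (fun x => if Z x.1 then (1 : ℝ) else 0)
  rw [Fintype.sum_prod_type, Fintype.sum_prod_type] at h1
  have h2 : ∀ A : Fin m → p.Sm,
      ∑ v : Fin p.N → ZMod p.Q, (if Z (p.upd A c a v) then (1 : ℝ) else 0)
        ≤ B * (p.Q : ℝ) ^ p.N := by
    intro A
    have := hB A
    rwa [Finset.sum_boole]
  have h3 : ∀ A : Fin m → p.Sm, ∑ v : Fin p.N → ZMod p.Q, (if Z A then (1 : ℝ) else 0)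
      = (p.Q : ℝ) ^ p.N * (if Z A then (1 : ℝ) else 0) := by
    intro A
    rw [Finset.sum_const, nsmul_eq_mul, Finset.card_univ, Fintype.card_fun, Fintype.card_fin,
      ZMod.card]
    push_cast
    rfl
  rw [Finset.sum_congr rfl fun A _ => h3 A, ← Finset.mul_sum, Finset.sum_boole] at h1
  have h4 : ∑ A : Fin m → p.Sm, ∑ v : Fin p.N → ZMod p.Q,
      (if Z (p.upd A c a v) then (1 : ℝ) else 0)
      ≤ (Fintype.card p.Sm : ℝ) ^ m * (B * (p.Q : ℝ) ^ p.N) := by
    refine (Finset.sum_le_card_nsmul _ _ _ fun A _ => h2 A).trans (le_of_eq ?_)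
    rw [nsmul_eq_mul, Finset.card_univ, Fintype.card_fun, Fintype.card_fin]
    push_cast
    rfl
  rw [h1] at h4
  have h5 : (p.Q : ℝ) ^ p.N * ((Finset.univ.filter fun A : Fin m → p.Sm => Z A).card : ℝ)
      ≤ (p.Q : ℝ) ^ p.N * (B * (Fintype.card p.Sm : ℝ) ^ m) := by
    refine h4.trans (le_of_eq ?_)
    ring
  exact le_of_mul_le_mul_left h5 hQ

end Prm

end H40.OS
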